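import Mathlib

/-!
The base field of this folder. The files `D_*`, `Q_*`, `E_*` are the library files `R_seed8/D71/*`,
`R_seed8/Helper447/D71/*`, `R_seed8/Helper819/ZE/*` with the complex numbers replaced by an
algebraically closed field `𝕜` of characteristic other than `2`, `3`, `5`, given by the instance
argument `BaseField`.
-/

set_option autoImplicit false

namespace Pool.Agent.H67NP

/-- An algebraically closed field `𝕜` of characteristic other than `2`, `3`, `5`. -/
class BaseField where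
  /-- the field -/
  𝕜 : Type
  [fld : Field 𝕜]
  [alg : IsAlgClosed 𝕜]
  nz : (30 : 𝕜) ≠ 0

export BaseField (𝕜)

attribute [instance_reducible] BaseField.fld
attribute [instance] BaseField.fld BaseField.alg

section
variable [BaseField]

theorem nz2 : (2 : 𝕜) ≠ 0 := fun h => BaseField.nz (by linear_combination 15 * h)
theorem nz3 : (3 : 𝕜) ≠ 0 := fun h => BaseField.nz (by linear_combination 10 * h)
theorem nz4 : (4 : 𝕜) ≠ 0 := by
  have h : (4 : 𝕜) = 2 * 2 := by norm_num
  rw [h]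
  exact mul_ne_zero nz2 nz2
theorem nz5 : (5 : 𝕜) ≠ 0 := fun h => BaseField.nz (by linear_combination 6 * h)

theorem up (K : Type*) [Field K] [Algebra 𝕜 K] (n : ℕ) [n.AtLeastTwo]
    (h : (OfNat.ofNat n : 𝕜) ≠ 0) : (OfNat.ofNat n : K) ≠ 0 := by
  have e : (OfNat.ofNat n : K) = algebraMap 𝕜 K (OfNat.ofNat n) := (map_ofNat _ n).symm
  rw [e]
  exact (map_ne_zero _).2 h

theorem K2 (K : Type*) [Field K] [Algebra 𝕜 K] : (2 : K) ≠ 0 := up K 2 nz2
theorem K3 (K : Type*) [Field K] [Algebra 𝕜 K] : (3 : K) ≠ 0 := up K 3 nz3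
theorem K4 (K : Type*) [Field K] [Algebra 𝕜 K] : (4 : K) ≠ 0 := up K 4 nz4
theorem K5 (K : Type*) [Field K] [Algebra 𝕜 K] : (5 : K) ≠ 0 := up K 5 nz5

instance : NeZero (2 : 𝕜) := ⟨nz2⟩
instance : NeZero (3 : 𝕜) := ⟨nz3⟩
instance : NeZero (4 : 𝕜) := ⟨nz4⟩
instance : NeZero (5 : 𝕜) := ⟨nz5⟩

end

end Pool.Agent.H67NP
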