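import Pool.Agent.helper67NP.Base
import Mathlib

set_option autoImplicit false

namespace Pool.Agent.H67NP.Q

variable [BaseField]

/-- `O` is a local ring (elementary form, `0⁻¹ = 0`). -/
def Loc {K : Type*} [Field K] (O : Subring K) : Prop := ∀ x ∈ O, x⁻¹ ∈ O ∨ (1 - x)⁻¹ ∈ O

/-- `O` is the localisation of `A` at a prime ideal (elementary form). -/
def IsLocAt {K : Type*} [Field K] (A O : Subring K) : Prop :=
  A ≤ O ∧ Loc O ∧ ∀ z ∈ O, ∃ x ∈ A, ∃ s ∈ A, s ≠ 0 ∧ s⁻¹ ∈ O ∧ z * s = x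

/-- the ring `V` dominates the local ring `O` -/
def Dom {K : Type*} [Field K] (V O : Subring K) : Prop := O ≤ V ∧ ∀ x ∈ O, x⁻¹ ∈ V → x⁻¹ ∈ O

/-- `x` lies in the maximal ideal of the local ring `O` -/
def InM {K : Type*} [Field K] (O : Subring K) (x : K) : Prop := x ∈ O ∧ (x = 0 ∨ x⁻¹ ∉ O)

/-- a finite family in `R` without common divisor (in fractional form) -/
def Cop {K : Type*} [Field K] (R : Subring K) {n : ℕ} (y : Fin n → K) : Prop :=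
  (∀ j, y j ∈ R) ∧ ∀ z : K, (∀ j, z * y j ∈ R) → z ∈ R

/-- the ring `𝕜[x,y,z]` inside `K` -/
def PR {K : Type*} [Field K] [Algebra 𝕜 K] (x y z : K) : Subring K :=
  (Algebra.adjoin 𝕜 ({x, y, z} : Set K)).toSubring

/-- `K` is the fraction field of `𝕜[x,y,z]` -/
def IsGen {K : Type*} [Field K] [Algebra 𝕜 K] (x y z : K) : Prop :=
  ∀ k : K, ∃ f ∈ PR x y z, ∃ g ∈ PR x y z, g ≠ 0 ∧ k * g = f

/-! ### polynomial data of the example -/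

section data
variable {F : Type*} [CommRing F]

def fc (a b : F) : F := 3 * a ^ 2 - 4 * b ^ 3 + 1
def fq0 (a b : F) : F := b ^ 2 * (4 * a + 1)
def fq1 (a b : F) : F := 1 + 3 * a ^ 3 + a + b ^ 3
def fw1 (a b v : F) : F := a * fq0 a b - fc a b * v
def fw0 (a b v : F) : F := -b * fw1 a b v - a
def fw3 (a b v : F) : F := v - a * fw1 a b v

def fm (w0 w1 w3 : F) : F := -w1 - 9 * w0 ^ 2 * w1 + 6 * w0 * w3
def fkap (w0 w1 : F) : F := 1 - 4 * w0 - 9 * w1 ^ 3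
def fA0 (w0 w1 w3 : F) : F := w1 + w3 - w0 * w1 - 3 * w0 ^ 3 * w1 + 3 * w0 ^ 2 * w3
def fA1 (w0 w1 w3 : F) : F := w1 * fm w0 w1 w3
def fA2 (w0 w1 w3 : F) : F := w0 * fkap w0 w1 + 3 * w1 ^ 2 * w3
def fA3 (w0 w1 w3 : F) : F := w1 * (1 - 4 * w0 - 3 * w1 ^ 3) - 4 * w3
def fDl (w0 w1 : F) : F := (1 - 4 * w0 - 3 * w1 ^ 3) * (1 + 3 * w0 ^ 2) + 4 * (1 - w0 - 3 * w0 ^ 3)
/-- `δ = Δ κ` -/
def fde (a b v : F) : F := fDl (fw0 a b v) (fw1 a b v) * fkap (fw0 a b v) (fw1 a b v)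
/-- `s = σ₀ = e₁ = A₃` -/
def fs (a b v : F) : F := fA3 (fw0 a b v) (fw1 a b v) (fw3 a b v)
def fe2 (a b v : F) : F := b * fs a b v + fA2 (fw0 a b v) (fw1 a b v) (fw3 a b v)
def fe3 (a b v : F) : F := b * fe2 a b v + fA1 (fw0 a b v) (fw1 a b v) (fw3 a b v)
/-- `t = T₀` -/
def ft (a b v : F) : F := fDl (fw0 a b v) (fw1 a b v) * fe2 a b v
    - 4 * fm (fw0 a b v) (fw1 a b v) (fw3 a b v) * fe3 a b v

end data

/-- the ring `B'_δ = 𝕜[w₀,w₁,w₃,θ₁,θ₂,1/δ]` with further generators `S` -/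
def BR {K : Type*} [Field K] [Algebra 𝕜 K] (a b v : K) (S : Set K) : Subring K :=
  (Algebra.adjoin 𝕜 (({fw0 a b v, fw1 a b v, fw3 a b v, b * fs a b v, b * fe2 a b v,
    (fde a b v)⁻¹} : Set K) ∪ S)).toSubring

/-- the gadget charts -/
def G1 {K : Type*} [Field K] [Algebra 𝕜 K] (a b v : K) : Subring K :=
  BR a b v {ft a b v / fs a b v, b * ft a b v / fs a b v, fs a b v ^ 2 / ft a b v}
def G2 {K : Type*} [Field K] [Algebra 𝕜 K] (a b v : K) : Subring K :=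
  BR a b v {ft a b v / fs a b v ^ 2}
def G3 {K : Type*} [Field K] [Algebra 𝕜 K] (a b v : K) : Subring K :=
  BR a b v {b⁻¹, fs a b v / (b * ft a b v)}
def G4 {K : Type*} [Field K] [Algebra 𝕜 K] (a b v : K) : Subring K :=
  BR a b v {b, fs a b v / ft a b v}

/-- the ring `P₁ = 𝕜[1/b, a/b, w₀, w₁, w₃]` -/
def P1 {K : Type*} [Field K] [Algebra 𝕜 K] (a b v : K) : Subring K :=
  (Algebra.adjoin 𝕜 ({b⁻¹, a / b, fw0 a b v, fw1 a b v, fw3 a b v} : Set K)).toSubring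

/-- third generator of the polynomial ring `P₁ = 𝕜[1/b, a/b, u]` -/
noncomputable def fu {K : Type*} [Field K] (a b v : K) : K :=
  ((3 * (a / b) ^ 2 + (1 / b) ^ 2) / 4) ^ 4 * (fw3 a b v - a / b * fw0 a b v)
   + -(1 + (1 / b) * ((3 * (a / b) ^ 2 + (1 / b) ^ 2) / 4)
       + (1 / b) ^ 2 * ((3 * (a / b) ^ 2 + (1 / b) ^ 2) / 4) ^ 2
       + (1 / b) ^ 3 * ((3 * (a / b) ^ 2 + (1 / b) ^ 2) / 4) ^ 3) / 4 * fw0 a b v

/-- `O[1/s]` inside `K` -/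
def away {K : Type*} [Field K] (O : Subring K) (s : O) : Subring K where
  carrier := {z | ∃ n : ℕ, z * (s : K) ^ n ∈ O}
  mul_mem' := by
    rintro x y ⟨n, hn⟩ ⟨m, hm⟩
    refine ⟨n + m, ?_⟩
    have : x * y * (s : K) ^ (n + m) = (x * (s : K) ^ n) * (y * (s : K) ^ m) := by ring
    rw [this]; exact O.mul_mem hn hm
  one_mem' := ⟨0, by simp [O.one_mem]⟩
  add_mem' := by
    rintro x y ⟨n, hn⟩ ⟨m, hm⟩
    refine ⟨n + m, ?_⟩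
    have : (x + y) * (s : K) ^ (n + m) = (x * (s : K) ^ n) * (s : K) ^ m + (y * (s : K) ^ m) * (s : K) ^ n := by ring
    rw [this]
    exact O.add_mem (O.mul_mem hn (O.pow_mem s.2 _)) (O.mul_mem hm (O.pow_mem s.2 _))
  zero_mem' := ⟨0, by simp [O.zero_mem]⟩
  neg_mem' := by
    rintro x ⟨n, hn⟩
    refine ⟨n, ?_⟩
    have : -x * (s : K) ^ n = -(x * (s : K) ^ n) := by ring
    rw [this]; exact O.neg_mem hn

/-- properties of the partial homomorphism `Ψ : b ↦ 0, v ↦ ε, a ↦ τ ε²` on `D ⊂ K` -/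
structure PsiD {K : Type*} [Field K] [Algebra 𝕜 K] (a b v : K) (D : Subring K)
    (Ψ : D →+* PowerSeries (RatFunc 𝕜)) : Prop where
  hc : ∀ c : 𝕜, ∃ h : algebraMap 𝕜 K c ∈ D, Ψ ⟨_, h⟩ = PowerSeries.C (RatFunc.C c)
  ha : ∃ h : a ∈ D, Ψ ⟨a, h⟩ = PowerSeries.C RatFunc.X * PowerSeries.X ^ 2
  hb : ∃ h : b ∈ D, Ψ ⟨b, h⟩ = 0
  hv : ∃ h : v ∈ D, Ψ ⟨v, h⟩ = PowerSeries.X
  cl : ∀ (z : K) (x y : D) (q : PowerSeries (RatFunc 𝕜)), z * y = x → Ψ y ≠ 0 → Ψ x = q * Ψ y →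
        ∃ hz : z ∈ D, Ψ ⟨z, hz⟩ = q

/-- properties of the local ring of the generic point of `R'` -/
structure EtaO {K : Type*} [Field K] [Algebra 𝕜 K] (a b v : K) (O D : Subring K)
    (Ψ : D →+* PowerSeries (RatFunc 𝕜)) : Prop where
  loc : IsLocAt (G2 a b v) O
  OD : O ≤ D
  PD : PR a b v ≤ D
  pc : ∀ f (h : f ∈ D), f ∈ PR a b v → ∃ c : 𝕜, PowerSeries.constantCoeff (Ψ ⟨f, h⟩) = RatFunc.C c
  inM : ∀ z (h : z ∈ D), z ∈ O → (InM O z ↔ PowerSeries.constantCoeff (Ψ ⟨z, h⟩) = 0)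
  rho : ∃ ρ, ∃ h : ρ ∈ D, ρ ∈ O ∧ ¬ ∃ c : 𝕜, PowerSeries.constantCoeff (Ψ ⟨ρ, h⟩) = RatFunc.C c
  s0 : ∃ h : fs a b v ∈ D, PowerSeries.constantCoeff (Ψ ⟨_, h⟩) = 0
  reg : ∀ (z : K) (n m : ℕ), z * fs a b v ^ n ∈ O → z * (b * fs a b v) ^ m ∈ O → z ∈ O

/-- `D₂ = q₁' W₂` in the chart `x₂ w₃ ≠ 0` -/
def fD2 {K : Type*} [Field K] (a b v : K) : K :=
  -(a⁻¹) * (fw0 a b v / fw3 a b v) * ((a⁻¹) ^ 3 + 3 + (a⁻¹) ^ 2 + (b / a) ^ 3)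
    + (b / a) * (3 * a⁻¹ - 4 * (b / a) ^ 3 + (a⁻¹) ^ 3
      + (4 * (b / a) ^ 2 + a⁻¹ * (b / a) ^ 2) * (fw0 a b v / fw3 a b v))

/-- properties of the local ring of the generic point of `B` -/
structure EtaB {K : Type*} [Field K] [Algebra 𝕜 K] (a b v : K) (O : Subring K)
    {F : Type*} [Field F] [Algebra 𝕜 F] (ψ : O →+* F) : Prop where
  loc : IsLocAt (PR v⁻¹ a b) O
  inM : ∀ z : O, InM O z ↔ ψ z = 0
  hc : ∀ c : 𝕜, ∃ h : algebraMap 𝕜 K c ∈ O, ψ ⟨_, h⟩ = algebraMap 𝕜 F c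
  hv : ∃ h : v⁻¹ ∈ O, ψ ⟨_, h⟩ = 0
  hab : ∃ (h : a ∈ O) (h' : b ∈ O), fc (ψ ⟨_, h⟩) (ψ ⟨_, h'⟩) = 0 ∧ Transcendental 𝕜 (ψ ⟨_, h'⟩)

end Pool.Agent.H67NP.Q
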