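import Pool.Agent.helper67NP.Base
import Pool.Agent.helper67NP.Q_Defs

set_option autoImplicit false

/-! charts and targets E2/E3 of MP_d71e86_ag -/

namespace Pool.Agent.H67NP.Q

variable [BaseField]

variable {K : Type*} [Field K] [Algebra 𝕜 K]

def xs (a b : K) : Fin 3 → K := ![1, b, a]
noncomputable def ws (a b v : K) : Fin 4 → K := ![fw0 a b v, fw1 a b v, 1, fw3 a b v]

/-- chart `x_j w_l ≠ 0` of `Z` -/
noncomputable def ch (a b v : K) (j : Fin 3) (l : Fin 4) : Subalgebra 𝕜 K :=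
  Algebra.adjoin 𝕜 (Set.range (fun i => xs a b i / xs a b j) ∪ Set.range (fun m => ws a b v m / ws a b v l))

/-- gadget charts `A'₁,...,A'₄` as subalgebras -/
noncomputable def gd (a b v : K) (i : Fin 4) : Subalgebra 𝕜 K :=
  Algebra.adjoin 𝕜 (({fw0 a b v, fw1 a b v, fw3 a b v, b * fs a b v, b * fe2 a b v,
    (fde a b v)⁻¹} : Set K) ∪
    (![{ft a b v / fs a b v, b * ft a b v / fs a b v, fs a b v ^ 2 / ft a b v},
      {ft a b v / fs a b v ^ 2},
      {b⁻¹, fs a b v / (b * ft a b v)},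
      {b, fs a b v / ft a b v}] : Fin 4 → Set K) i)

/-- the 13 charts of `X` -/
def charts (a b v : K) : Set (Subalgebra 𝕜 K) :=
  {A | (∃ j, ∃ l, l ≠ 2 ∧ A = ch a b v j l) ∨ ∃ i, A = gd a b v i}

end Pool.Agent.H67NP.Q
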