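import Pool.Agent.helper67NP.Base
import Pool.Agent.helper67NP.D_Pts
import Pool.Agent.helper67NP.Q_Charts

set_option autoImplicit false

/-! Translations between the predicates of the different layers, and the charts around `η_B`. -/

namespace Pool.Agent.H67NP.D

open D71
variable [BaseField]

open ZA Pool.Agent.H67NP.Q

section general

variable {K : Type} [Field K]

theorem lc_of_loc {O : Subring K} (h : Loc O) : Lc O := by
  intro x hx y hy hxy hxyi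
  have hz : x * (x + y)⁻¹ ∈ O := O.mul_mem hx hxyi
  by_cases hx0 : x = 0
  · subst hx0
    rw [zero_add] at hxy hxyi
    exact Or.inr ⟨hxy, hxyi⟩
  by_cases hy0 : y = 0
  · subst hy0
    rw [add_zero] at hxy hxyi
    exact Or.inl ⟨hxy, hxyi⟩
  rcases h _ hz with h1 | h1
  · left
    refine ⟨hx0, ?_⟩
    have : x⁻¹ = (x * (x + y)⁻¹)⁻¹ * (x + y)⁻¹ := by field_simp
    rw [this]
    exact O.mul_mem h1 hxyi
  · right
    refine ⟨hy0, ?_⟩
    have h2 : 1 - x * (x + y)⁻¹ = y * (x + y)⁻¹ := by field_simp; ring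
    rw [h2] at h1
    have : y⁻¹ = (y * (x + y)⁻¹)⁻¹ * (x + y)⁻¹ := by field_simp
    rw [this]
    exact O.mul_mem h1 hxyi

theorem loc_of_lc {O : Subring K} (h : Lc O) : Loc O := by
  intro x hx
  rcases h x hx (1 - x) (O.sub_mem O.one_mem hx) (by rw [add_sub_cancel]; exact one_ne_zero)
    (by rw [add_sub_cancel, inv_one]; exact O.one_mem) with h1 | h1
  · exact Or.inl h1.2
  · exact Or.inr h1.2

theorem isLocAt_iff {k : Type} [Field k] [Algebra k K] (A : Subalgebra k K) (O : Subring K) :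
    IsLocAt A.toSubring O ↔ Lc O ∧ Is A O := by
  constructor
  · rintro ⟨h1, h2, h3⟩
    refine ⟨lc_of_loc h2, fun x hx => h1 hx, fun z hz => ?_⟩
    obtain ⟨x, hx, s, hs, hs0, hsi, h⟩ := h3 z hz
    exact ⟨s, hs, hs0, hsi, by rw [h]; exact hx⟩
  · rintro ⟨h1, h2, h3⟩
    refine ⟨fun x hx => h2 x hx, loc_of_lc h1, fun z hz => ?_⟩
    obtain ⟨s, hs, hs0, hsi, h⟩ := h3 z hz
    exact ⟨_, h, s, hs, hs0, hsi, rfl⟩

/-- change of the chart -/
theorem isLocAt_change {A B O : Subring K} (hA : IsLocAt A O) (hBO : B ≤ O) (e : K) (heB : e ∈ B)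
    (he0 : e ≠ 0) (he : e⁻¹ ∈ O) (h : ∀ x ∈ A, ∃ N : ℕ, x * e ^ N ∈ B) : IsLocAt B O := by
  refine ⟨hBO, hA.2.1, fun z hz => ?_⟩
  obtain ⟨x, hx, s, hs, hs0, hsi, hzs⟩ := hA.2.2 z hz
  obtain ⟨N, hN⟩ := h x hx
  obtain ⟨M, hM⟩ := h s hs
  refine ⟨(x * e ^ N) * e ^ M, B.mul_mem hN (pow_mem heB _), (s * e ^ M) * e ^ N,
    B.mul_mem hM (pow_mem heB _), mul_ne_zero (mul_ne_zero hs0 (pow_ne_zero _ he0))
      (pow_ne_zero _ he0), ?_, ?_⟩
  · rw [mul_inv, mul_inv, ← inv_pow, ← inv_pow]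
    exact O.mul_mem (O.mul_mem hsi (pow_mem he _)) (pow_mem he _)
  · rw [← hzs]
    ring

/-- denominators for an adjoin -/
theorem adjoin_denom [Algebra 𝕜 K] {S : Set K} {B : Subalgebra 𝕜 K} {e : K} (he : e ∈ B)
    (h : ∀ x ∈ S, ∃ N : ℕ, x * e ^ N ∈ B) :
    ∀ x ∈ Algebra.adjoin 𝕜 S, ∃ N : ℕ, x * e ^ N ∈ B := by
  intro x hx
  induction hx using Algebra.adjoin_induction with
  | mem x hx => exact h x hx
  | algebraMap r => exact ⟨0, by simp⟩
  | add x y _ _ hx hy =>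
    obtain ⟨N, hN⟩ := hx
    obtain ⟨M, hM⟩ := hy
    refine ⟨N + M, ?_⟩
    have : (x + y) * e ^ (N + M) = (x * e ^ N) * e ^ M + (y * e ^ M) * e ^ N := by ring
    rw [this]
    exact B.add_mem (B.mul_mem hN (pow_mem he _)) (B.mul_mem hM (pow_mem he _))
  | mul x y _ _ hx hy =>
    obtain ⟨N, hN⟩ := hx
    obtain ⟨M, hM⟩ := hy
    refine ⟨N + M, ?_⟩
    have : x * y * e ^ (N + M) = (x * e ^ N) * (y * e ^ M) := by ring
    rw [this]
    exact B.mul_mem hN hM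

end general

section etaB

variable {K : Type} [Field K] [Algebra 𝕜 K]

theorem mem_PR_left (x y z : K) : x ∈ PR x y z := Algebra.subset_adjoin (by simp)
theorem mem_PR_mid (x y z : K) : y ∈ PR x y z := Algebra.subset_adjoin (by simp)
theorem mem_PR_right (x y z : K) : z ∈ PR x y z := Algebra.subset_adjoin (by simp)

theorem fw1_div (a b v : K) (hv : v ≠ 0) : fw1 a b v * v⁻¹ ∈ PR v⁻¹ a b := by
  have h : fw1 a b v * v⁻¹ = a * (b ^ 2 * (4 * a + 1)) * v⁻¹ - (3 * a ^ 2 - 4 * b ^ 3 + 1) := by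
    simp only [fw1, fq0, fc]
    field_simp
  rw [h]
  have ha := mem_PR_mid v⁻¹ a b
  have hb := mem_PR_right v⁻¹ a b
  have hv' := mem_PR_left v⁻¹ a b
  have hn : ∀ n : ℕ, (n : K) ∈ PR v⁻¹ a b := fun n => natCast_mem _ n
  refine sub_mem (mul_mem (mul_mem ha (mul_mem (pow_mem hb _) (add_mem (mul_mem (by exact_mod_cast hn 4) ha)
    (one_mem _)))) hv') (add_mem (sub_mem (mul_mem (by exact_mod_cast hn 3) (pow_mem ha _))
      (mul_mem (by exact_mod_cast hn 4) (pow_mem hb _))) (one_mem _))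

theorem fw0_div (a b v : K) (hv : v ≠ 0) : fw0 a b v * v⁻¹ ∈ PR v⁻¹ a b := by
  have h : fw0 a b v * v⁻¹ = -b * (fw1 a b v * v⁻¹) - a * v⁻¹ := by
    simp only [fw0]; ring
  rw [h]
  exact sub_mem (mul_mem (neg_mem (mem_PR_right _ _ _)) (fw1_div a b v hv))
    (mul_mem (mem_PR_mid _ _ _) (mem_PR_left _ _ _))

theorem fw3_div (a b v : K) (hv : v ≠ 0) : fw3 a b v * v⁻¹ ∈ PR v⁻¹ a b := by
  have h : fw3 a b v * v⁻¹ = 1 - a * (fw1 a b v * v⁻¹) := by
    simp only [fw3]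
    field_simp
  rw [h]
  exact sub_mem (one_mem _) (mul_mem (mem_PR_mid _ _ _) (fw1_div a b v hv))

theorem ch03_eq (a b v : K) : ch a b v 0 3 = Algebra.adjoin 𝕜
    (Set.range (fun i => xs a b i / xs a b 0) ∪ Set.range (fun m => ws a b v m / ws a b v 3)) := rfl

omit [Algebra 𝕜 K] in
/-- generators of the chart `(0,3)` -/
theorem ch03_ind {a b v : K} {p : K → Prop} (h1 : p 1) (ha : p a) (hb : p b)
    (h0 : p (fw0 a b v / fw3 a b v)) (h1' : p (fw1 a b v / fw3 a b v)) (h2 : p (1 / fw3 a b v))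
    (h3 : p (fw3 a b v / fw3 a b v)) :
    ∀ x ∈ (Set.range (fun i => xs a b i / xs a b 0) ∪ Set.range (fun m => ws a b v m / ws a b v 3)),
      p x := by
  rintro x (⟨i, rfl⟩ | ⟨m, rfl⟩)
  · fin_cases i
    · simpa [xs] using h1
    · simpa [xs] using hb
    · simpa [xs] using ha
  · fin_cases m
    · exact h0
    · exact h1'
    · exact h2
    · exact h3

variable (a b v : K) (hv : v ≠ 0) (hw3 : fw3 a b v ≠ 0)
include hv hw3

/-- `ch 0 3 ≤ O` and the unit `v / w₃` -/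
theorem OB_aux (O : Subring K) (hPR : PR v⁻¹ a b ≤ O) (hu : v / fw3 a b v ∈ O) :
    (ch a b v 0 3).toSubring ≤ O := by
  have hconst : ∀ c : 𝕜, algebraMap 𝕜 K c ∈ O := fun c =>
    hPR ((Algebra.adjoin 𝕜 ({v⁻¹, a, b} : Set K)).algebraMap_mem c)
  let O' : Subalgebra 𝕜 K := { O with algebraMap_mem' := hconst }
  have hdiv : ∀ x : K, x * v⁻¹ ∈ O → x / fw3 a b v ∈ O := fun x hx => by
    have : x / fw3 a b v = x * v⁻¹ * (v / fw3 a b v) := by field_simp
    rw [this]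
    exact O.mul_mem hx hu
  have : ch a b v 0 3 ≤ O' := by
    rw [ch03_eq]
    apply Algebra.adjoin_le
    exact ch03_ind (p := fun x => x ∈ O) O.one_mem (hPR (mem_PR_mid _ _ _)) (hPR (mem_PR_right _ _ _))
      (hdiv _ (hPR (fw0_div a b v hv))) (hdiv _ (hPR (fw1_div a b v hv)))
      (hdiv _ (by rw [one_mul]; exact hPR (mem_PR_left _ _ _))) (hdiv _ (hPR (fw3_div a b v hv)))
  exact fun x hx => this hx

theorem PR_to_ch : ∀ x ∈ PR v⁻¹ a b, ∃ N : ℕ, x * (v / fw3 a b v) ^ N ∈ ch a b v 0 3 := by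
  have hsub : ∀ x ∈ (Set.range (fun i => xs a b i / xs a b 0) ∪
      Set.range (fun m => ws a b v m / ws a b v 3)), x ∈ ch a b v 0 3 :=
    fun x hx => Algebra.subset_adjoin hx
  have hb' : b ∈ ch a b v 0 3 := hsub _ (Or.inl ⟨1, by simp [xs]⟩)
  have ha' : a ∈ ch a b v 0 3 := hsub _ (Or.inl ⟨2, by simp [xs]⟩)
  have h1' : fw1 a b v / fw3 a b v ∈ ch a b v 0 3 := hsub _ (Or.inr ⟨1, rfl⟩)
  have h2' : 1 / fw3 a b v ∈ ch a b v 0 3 := hsub _ (Or.inr ⟨2, rfl⟩)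
  have hu : v / fw3 a b v ∈ ch a b v 0 3 := by
    have : v / fw3 a b v = 1 + a * (fw1 a b v / fw3 a b v) := by
      field_simp
      simp only [fw3]
      ring
    rw [this]
    exact add_mem (one_mem _) (mul_mem ha' h1')
  apply adjoin_denom hu
  rintro x (rfl | rfl | rfl)
  · refine ⟨1, ?_⟩
    have : v⁻¹ * (v / fw3 a b v) ^ 1 = 1 / fw3 a b v := by field_simp
    rw [this]
    exact h2'
  · exact ⟨0, by simpa using ha'⟩
  · exact ⟨0, by simpa using hb'⟩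

theorem ch_to_PR : ∀ x ∈ ch a b v 0 3, ∃ N : ℕ, x * (fw3 a b v * v⁻¹) ^ N ∈ PR v⁻¹ a b := by
  have key : ∀ x : K, x * v⁻¹ ∈ PR v⁻¹ a b → ∃ N : ℕ, (x / fw3 a b v) * (fw3 a b v * v⁻¹) ^ N ∈
      Algebra.adjoin 𝕜 ({v⁻¹, a, b} : Set K) := fun x hx => ⟨1, by
    have : (x / fw3 a b v) * (fw3 a b v * v⁻¹) ^ 1 = x * v⁻¹ := by field_simp
    rw [this]
    exact hx⟩
  have := adjoin_denom (S := Set.range (fun i => xs a b i / xs a b 0) ∪
      Set.range (fun m => ws a b v m / ws a b v 3)) (B := Algebra.adjoin 𝕜 ({v⁻¹, a, b} : Set K))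
    (e := fw3 a b v * v⁻¹) (fw3_div a b v hv)
    (ch03_ind (p := fun x => ∃ N : ℕ, x * (fw3 a b v * v⁻¹) ^ N ∈
        Algebra.adjoin 𝕜 ({v⁻¹, a, b} : Set K))
      ⟨0, by simp⟩ ⟨0, by rw [pow_zero, mul_one]; exact mem_PR_mid v⁻¹ a b⟩
      ⟨0, by rw [pow_zero, mul_one]; exact mem_PR_right v⁻¹ a b⟩
      (key _ (fw0_div a b v hv)) (key _ (fw1_div a b v hv))
      (key _ (by rw [one_mul]; exact mem_PR_left _ _ _)) (key _ (fw3_div a b v hv)))
  exact this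

/-- `O_B` is a localisation of the chart `(0,3)` -/
theorem OBch (O : Subring K) (hO : IsLocAt (PR v⁻¹ a b) O) (hu : v / fw3 a b v ∈ O)
    (hui : (v / fw3 a b v)⁻¹ ∈ O) : IsLocAt (ch a b v 0 3).toSubring O := by
  have h1 : v / fw3 a b v ∈ ch a b v 0 3 := by
    have hsub : ∀ x ∈ (Set.range (fun i => xs a b i / xs a b 0) ∪
        Set.range (fun m => ws a b v m / ws a b v 3)), x ∈ ch a b v 0 3 :=
      fun x hx => Algebra.subset_adjoin hx
    have ha' : a ∈ ch a b v 0 3 := hsub _ (Or.inl ⟨2, by simp [xs]⟩)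
    have h1' : fw1 a b v / fw3 a b v ∈ ch a b v 0 3 := hsub _ (Or.inr ⟨1, rfl⟩)
    have : v / fw3 a b v = 1 + a * (fw1 a b v / fw3 a b v) := by
      field_simp
      simp only [fw3]
      ring
    rw [this]
    exact add_mem (one_mem _) (mul_mem ha' h1')
  exact isLocAt_change hO (OB_aux a b v hv hw3 O hO.1 hu) (v / fw3 a b v) h1
    (div_ne_zero hv hw3) hui (PR_to_ch a b v hv hw3)

/-- the points above `O_B` are localisations of `𝕜[1/v,a,b]` -/
theorem OB_above (O O' : Subring K) (hO : IsLocAt (PR v⁻¹ a b) O) (hu : v / fw3 a b v ∈ O)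
    (hO' : IsLocAt (ch a b v 0 3).toSubring O') (hle : O ≤ O') : IsLocAt (PR v⁻¹ a b) O' := by
  refine isLocAt_change hO' (hO.1.trans hle) (fw3 a b v * v⁻¹) (fw3_div a b v hv)
    (mul_ne_zero hw3 (inv_ne_zero hv)) ?_ (ch_to_PR a b v hv hw3)
  have : (fw3 a b v * v⁻¹)⁻¹ = v / fw3 a b v := by field_simp
  rw [this]
  exact hle hu

end etaB

end Pool.Agent.H67NP.D
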