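import Pool.Agent.helper67NP.Base
import Pool.Agent.helper67NP.D_Pts
import Mathlib.RingTheory.RegularLocalRing.Defs

set_option autoImplicit false

/-! The local rings at the closed points are regular local rings of dimension `3`. -/

namespace Pool.Agent.H67NP.D

open D71
variable [BaseField]

/-- every maximal ideal of `𝕜[X₁,...,Xₙ]` has height at least `n`. -/
theorem mv_height_ge (n : ℕ) (m : Ideal (MvPolynomial (Fin n) 𝕜)) (hm : m.IsMaximal) :
    (n : ℕ∞) ≤ m.height := by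
  obtain ⟨c, rfl⟩ := MvPolynomial.isMaximal_iff_eq_vanishingIdeal_singleton.mp hm
  let φ : ℕ → (MvPolynomial (Fin n) 𝕜 →ₐ[𝕜] MvPolynomial (Fin n) 𝕜) := fun j =>
    MvPolynomial.aeval (fun i : Fin n => if (i : ℕ) < j then MvPolynomial.C (c i) else MvPolynomial.X i)
  have hφ : ∀ (j : ℕ) (i : Fin n), φ j (MvPolynomial.X i) =
      if (i : ℕ) < j then MvPolynomial.C (c i) else MvPolynomial.X i := by
    intro j i
    simp only [φ, MvPolynomial.aeval_X]
  let P : ℕ → Ideal (MvPolynomial (Fin n) 𝕜) := fun j => RingHom.ker (φ j : MvPolynomial (Fin n) 𝕜 →+* MvPolynomial (Fin n) 𝕜)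
  have hP : ∀ j, (P j).IsPrime := fun j => RingHom.ker_isPrime _
  have hmem : ∀ j f, f ∈ P j ↔ φ j f = 0 := fun j f => RingHom.mem_ker
  have hlt : ∀ j : ℕ, j < n → P j < P (j + 1) := by
    intro j hj
    refine lt_of_le_of_ne ?_ ?_
    · intro f hf
      rw [hmem] at hf ⊢
      have hcomp : φ (j + 1) = (φ (j + 1)).comp (φ j) := by
        apply MvPolynomial.algHom_ext
        intro i
        rw [AlgHom.comp_apply, hφ j i, hφ (j + 1) i]
        by_cases h : (i : ℕ) < j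
        · rw [if_pos (by omega), if_pos h]
          exact ((φ (j + 1)).commutes (c i)).symm
        · rw [if_neg h, hφ (j + 1) i]
      rw [hcomp, AlgHom.comp_apply, hf, map_zero]
    · intro heq
      have h1 : (MvPolynomial.X ⟨j, hj⟩ - MvPolynomial.C (c ⟨j, hj⟩) : MvPolynomial (Fin n) 𝕜) ∈ P (j + 1) := by
        rw [hmem, map_sub, hφ, if_pos (by simp)]
        have : φ (j + 1) (MvPolynomial.C (c ⟨j, hj⟩)) = MvPolynomial.C (c ⟨j, hj⟩) :=
          (φ (j + 1)).commutes _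
        rw [this, sub_self]
      rw [← heq, hmem, map_sub, hφ, if_neg (by simp)] at h1
      have h2 : φ j (MvPolynomial.C (c ⟨j, hj⟩)) = MvPolynomial.C (c ⟨j, hj⟩) :=
        (φ j).commutes _
      rw [h2] at h1
      have h3 := congrArg (MvPolynomial.eval (fun i => c i + 1)) h1
      simp at h3
  have hht : ∀ j : ℕ, j ≤ n → (j : ℕ∞) ≤ (P j).height := by
    intro j
    induction j with
    | zero => intro _; simp
    | succ j ih =>
      intro hj
      have := hP j
      have := hP (j + 1)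
      have h1 := ih (by omega)
      have h2 := Ideal.height_add_one_le_of_lt_of_isPrime (hlt j (by omega))
      calc ((j + 1 : ℕ) : ℕ∞) = (j : ℕ∞) + 1 := by push_cast; rfl
        _ ≤ (P j).height + 1 := by gcongr
        _ ≤ _ := h2
  refine (hht n le_rfl).trans (Ideal.height_mono ?_)
  intro f hf
  rw [hmem] at hf
  rw [MvPolynomial.mem_vanishingIdeal_singleton_iff]
  have hcomp : (MvPolynomial.aeval c : MvPolynomial (Fin n) 𝕜 →ₐ[𝕜] 𝕜) =
      (MvPolynomial.aeval c).comp (φ n) := by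
    apply MvPolynomial.algHom_ext
    intro i
    rw [AlgHom.comp_apply, hφ, if_pos i.isLt, MvPolynomial.aeval_X]
    simp
  rw [hcomp, AlgHom.comp_apply, hf, map_zero]

theorem fg_height_ge
    (hmv : ∀ (n : ℕ) (m : Ideal (MvPolynomial (Fin n) 𝕜)), m.IsMaximal → (n : ℕ∞) ≤ m.height)
    {A : Type} [CommRing A] [IsDomain A] [Algebra 𝕜 A] [Algebra.FiniteType 𝕜 A] (n : ℕ)
    (h : Algebra.trdeg 𝕜 A = n) (M : Ideal A) (hM : M.IsMaximal) : (n : ℕ∞) ≤ M.height := by
  obtain ⟨s, g, ginj, gint⟩ := exists_integral_inj_algHom_of_fg 𝕜 A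
  let : Algebra (MvPolynomial (Fin s) 𝕜) A := g.toRingHom.toAlgebra
  have : IsScalarTower 𝕜 (MvPolynomial (Fin s) 𝕜) A :=
    IsScalarTower.of_algebraMap_eq (fun r => (g.commutes r).symm)
  have : Algebra.IsIntegral (MvPolynomial (Fin s) 𝕜) A := ⟨gint⟩
  have : FaithfulSMul (MvPolynomial (Fin s) 𝕜) A :=
    (faithfulSMul_iff_algebraMap_injective _ _).2 ginj
  have hs : (s : Cardinal.{0}) = n := by
    have h1 := _root_.trdeg_add_eq 𝕜 (MvPolynomial (Fin s) 𝕜) (A := A)
    rw [MvPolynomial.trdeg_of_isDomain, _root_.trdeg_eq_zero, h, add_zero] at h1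
    simpa using h1
  have hsn : s = n := by exact_mod_cast hs
  subst hsn
  let m := M.comap (algebraMap (MvPolynomial (Fin s) 𝕜) A)
  have : m.IsMaximal := Ideal.isMaximal_comap_of_isIntegral_of_isMaximal M
  have : IsNoetherianRing A := Algebra.FiniteType.isNoetherianRing 𝕜 A
  have : M.LiesOver m := ⟨rfl⟩
  have h2 := Ideal.height_eq_height_add_of_liesOver_of_hasGoingDown m M
  exact (hmv s m inferInstance).trans (by rw [h2]; exact le_self_add)

theorem height_ge {A : Type} [CommRing A] [IsDomain A] [Algebra 𝕜 A] [Algebra.FiniteType 𝕜 A] (n : ℕ)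
    (h : Algebra.trdeg 𝕜 A = n) (M : Ideal A) (hM : M.IsMaximal) : (n : ℕ∞) ≤ M.height :=
  fg_height_ge mv_height_ge n h M hM

open ZA

section reg

variable {K : Type} [Field K] [Algebra 𝕜 K]

/-- a closed point is the localisation at a maximal ideal -/
theorem closed_max {X C : Set (Subalgebra 𝕜 K)} (hX : X = {O | ∃ A ∈ C, O ∈ Spec A})
    {O : Subalgebra 𝕜 K} (hO : IsClosedPt X O) :
    ∃ A ∈ C, ∃ M : Ideal A, M.IsMaximal ∧ ∀ x : K, x ∈ O ↔ ∃ a s : A, s ∉ M ∧ x * (s : K) = (a : K) := by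
  obtain ⟨hOX, hmin⟩ := hO
  obtain ⟨A, hA, hOA⟩ := (by rw [hX] at hOX; exact hOX : ∃ A ∈ C, O ∈ Spec A)
  refine ⟨A, hA, ?_⟩
  obtain ⟨P, hP, hPO⟩ := hOA
  obtain ⟨M, hM, hPM⟩ := Ideal.exists_le_maximal P hP.ne_top
  have hMp : M.IsPrime := hM.isPrime
  let O' : Subalgebra 𝕜 K :=
    { carrier := {x | ∃ a s : A, s ∉ M ∧ x * (s : K) = (a : K)}
      mul_mem' := by
        rintro x y ⟨a, s, hs, h⟩ ⟨b, t, ht, h'⟩
        refine ⟨a * b, s * t, fun h1 => (hMp.mem_or_mem h1).elim hs ht, ?_⟩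
        push_cast
        rw [← h, ← h']
        ring
      add_mem' := by
        rintro x y ⟨a, s, hs, h⟩ ⟨b, t, ht, h'⟩
        refine ⟨a * t + b * s, s * t, fun h1 => (hMp.mem_or_mem h1).elim hs ht, ?_⟩
        push_cast
        rw [← h, ← h']
        ring
      algebraMap_mem' := fun c =>
        ⟨algebraMap 𝕜 A c, 1, (Ideal.ne_top_iff_one M).1 hM.ne_top, by simp⟩ }
  have hO'def : ∀ x, x ∈ O' ↔ ∃ a s : A, s ∉ M ∧ x * (s : K) = (a : K) := fun x => Iff.rfl
  have hO'X : O' ∈ X := by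
    rw [hX]
    exact ⟨A, hA, M, hMp, hO'def⟩
  have hle : O' ≤ O := by
    intro x hx
    obtain ⟨a, s, hs, h⟩ := (hO'def x).1 hx
    exact (hPO x).2 ⟨a, s, fun h1 => hs (hPM h1), h⟩
  have heq := hmin O' hO'X hle
  refine ⟨M, hM, ?_⟩
  rw [← heq]
  exact hO'def

theorem trdeg_sub (hK : Algebra.trdeg 𝕜 K = 3) (A : Subalgebra 𝕜 K)
    (hfr : ∀ x : K, ∃ a ∈ A, ∃ s ∈ A, s ≠ 0 ∧ x = a / s) : Algebra.trdeg 𝕜 A = 3 := by
  have halg : Algebra.IsAlgebraic A K := by
    refine ⟨fun x => ?_⟩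
    obtain ⟨a, ha, s, hs, hs0, rfl⟩ := hfr x
    refine ⟨Polynomial.C ⟨s, hs⟩ * Polynomial.X - Polynomial.C ⟨a, ha⟩, ?_, ?_⟩
    · intro h0
      have h1 := congrArg (fun p => Polynomial.coeff p 1) h0
      simp only [Polynomial.coeff_sub, Polynomial.coeff_C_mul, Polynomial.coeff_X_one, mul_one,
        Polynomial.coeff_zero] at h1
      rw [Polynomial.coeff_C_of_ne_zero one_ne_zero, sub_zero] at h1
      exact hs0 (congrArg Subtype.val h1)
    · simp only [map_sub, map_mul, Polynomial.aeval_C, Polynomial.aeval_X]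
      show s * (a / s) - a = 0
      field_simp
      ring
  have hf : FaithfulSMul 𝕜 A :=
    (faithfulSMul_iff_algebraMap_injective 𝕜 A).2 (algebraMap 𝕜 A).injective
  have h1 := trdeg_add_eq (R := 𝕜) (S := A) (A := K)
  have h2 : Algebra.trdeg A K = 0 := trdeg_eq_zero
  rw [h2, add_zero, hK] at h1
  exact h1

theorem regular_of {X C : Set (Subalgebra 𝕜 K)} (hK : Algebra.trdeg 𝕜 K = 3)
    (hX : X = {O | ∃ A ∈ C, O ∈ Spec A}) (hFG : ∀ A ∈ C, A.FG)
    (hfr : ∀ A ∈ C, ∀ x : K, ∃ a ∈ A, ∃ s ∈ A, s ≠ 0 ∧ x = a / s)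
    {O : Subalgebra 𝕜 K} (hO : IsClosedPt X O)
    (ht : ∃ t₁ t₂ t₃ : O, Ideal.span {t₁, t₂, t₃} = {x : O | ¬ IsUnit x}) :
    IsRegularLocalRing O ∧ ringKrullDim O = 3 := by
  obtain ⟨A, hA, M, hM, hMO⟩ := closed_max hX hO
  have hMp : M.IsPrime := hM.isPrime
  have hAO : A ≤ O := fun x hx =>
    (hMO x).2 ⟨⟨x, hx⟩, 1, (Ideal.ne_top_iff_one M).1 hM.ne_top, by simp⟩
  have hne : ∀ s : A, s ∉ M → (s : K) ≠ 0 := fun s hs h0 => hs (by
    have : s = 0 := Subtype.ext h0
    rw [this]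
    exact M.zero_mem)
  let : Algebra A O := (Subalgebra.inclusion hAO).toRingHom.toAlgebra
  have hmap : ∀ a : A, ((algebraMap A O a : O) : K) = (a : K) := fun a => rfl
  have hloc : IsLocalization.AtPrime O M := by
    refine (isLocalization_iff M.primeCompl O).2 ⟨fun s => ?_, fun z => ?_, fun {x y} h => ?_⟩
    · have hs := hne s s.2
      refine ⟨⟨⟨_, hAO (s : A).2⟩, ⟨((s : A) : K)⁻¹, (hMO _).2 ⟨1, s, s.2, by simp [hs]⟩⟩,
        Subtype.ext (mul_inv_cancel₀ hs), Subtype.ext (inv_mul_cancel₀ hs)⟩, rfl⟩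
    · obtain ⟨a, s, hs, h⟩ := (hMO (z : K)).1 z.2
      exact ⟨(a, ⟨s, hs⟩), Subtype.ext h⟩
    · refine ⟨1, ?_⟩
      have : (x : K) = (y : K) := congrArg (fun z : O => (z : K)) h
      rw [Subtype.ext this]
  have hFT : Algebra.FiniteType 𝕜 A := A.fg_iff_finiteType.1 (hFG A hA)
  have hnA : IsNoetherianRing A := Algebra.FiniteType.isNoetherianRing 𝕜 A
  have hnO : IsNoetherianRing O := IsLocalization.isNoetherianRing M.primeCompl O hnA
  have hlO : IsLocalRing O := IsLocalization.AtPrime.isLocalRing O M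
  have hdim := IsLocalization.AtPrime.ringKrullDim_eq_height M O
  have hge : (3 : ℕ∞) ≤ M.height := by
    have := height_ge (A := A) 3 (by exact_mod_cast trdeg_sub hK A (hfr A hA)) M hM
    exact_mod_cast this
  obtain ⟨t₁, t₂, t₃, ht⟩ := ht
  have hmax : IsLocalRing.maximalIdeal O = Ideal.span {t₁, t₂, t₃} := by
    apply SetLike.coe_injective
    rw [ht]
    rfl
  have hrank : (IsLocalRing.maximalIdeal O).spanFinrank ≤ 3 := by
    rw [hmax]
    refine (Submodule.spanFinrank_span_le_ncard_of_finite (Set.toFinite _)).trans ?_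
    refine (Set.ncard_insert_le _ _).trans ?_
    have := Set.ncard_insert_le t₂ {t₃}
    rw [Set.ncard_singleton] at this
    omega
  have hge' : (3 : WithBot ℕ∞) ≤ ringKrullDim O := by
    rw [hdim]
    exact WithBot.coe_le_coe.2 hge
  have hle : ((IsLocalRing.maximalIdeal O).spanFinrank : WithBot ℕ∞) ≤ 3 := by
    exact_mod_cast hrank
  have hreg : IsRegularLocalRing O := IsRegularLocalRing.of_spanFinrank_maximalIdeal_le O
    (hle.trans hge')
  refine ⟨hreg, le_antisymm ?_ hge'⟩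
  exact (ringKrullDim_le_spanFinrank_maximalIdeal O).trans hle

end reg

end Pool.Agent.H67NP.D
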