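import Pool.Agent.helper67NP.Base
import Pool.Graph.R_seed8.D71.Defs

set_option autoImplicit false

namespace Pool.Agent.H67NP.D

open D71
variable [BaseField]

/-- The main statement (over the complex numbers). -/
def Main : Prop :=
  ∃ (K : Type) (_ : Field K) (_ : Algebra 𝕜 K) (X : Set (Subalgebra 𝕜 K)),
    IsThreefold X ∧ IsComplete X ∧ IsSmooth X ∧ ¬ IsProjective X ∧
    ∃ U : Set (Subalgebra 𝕜 K), IsMaxQPOpen X U ∧
      ∃ (O : Subalgebra 𝕜 K) (_ : IsLocalRing O), IsGenericPtOfComponent X U O ∧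
        Algebra.trdeg 𝕜 (IsLocalRing.ResidueField O) = 1 ∧
        IsEmpty (IsLocalRing.ResidueField O ≃ₐ[𝕜] RatFunc 𝕜)

end Pool.Agent.H67NP.D
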