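import Pool.Agent.helper67NP.Base
import Pool.Agent.helper67NP.E_Defs
import Pool.Agent.helper67NP.E_L_nz

set_option autoImplicit false
set_option linter.unusedVariables false
set_option linter.unusedSectionVars false
set_option linter.dupNamespace false

namespace Pool.Agent.H67NP.Q.E

variable [BaseField]
open Pool.Agent.H67NP.Q
variable {K : Type*} [Field K] [Algebra 𝕜 K]

namespace ch_gens


theorem ch_gens (a b v : K) (j : Fin 3) (l : Fin 4) :
    (∀ i, xs a b i / xs a b j ∈ ch a b v j l) ∧ (∀ m, ws a b v m / ws a b v l ∈ ch a b v j l) :=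
  ⟨fun i => Algebra.subset_adjoin (Or.inl ⟨i, rfl⟩), fun m => Algebra.subset_adjoin (Or.inr ⟨m, rfl⟩)⟩


end ch_gens

alias ch_gens := ch_gens.ch_gens

end Pool.Agent.H67NP.Q.E
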