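import Pool.Agent.helper67NP.Base
import Pool.Agent.helper67NP.E_Defs
import Pool.Agent.helper67NP.E_L_nz
import Pool.Agent.helper67NP.E_L_ch02
import Pool.Agent.helper67NP.E_L_BB_mem

set_option autoImplicit false
set_option linter.unusedVariables false
set_option linter.unusedSectionVars false
set_option linter.dupNamespace false

namespace Pool.Agent.H67NP.Q.E

variable [BaseField]
open Pool.Agent.H67NP.Q
variable {K : Type*} [Field K] [Algebra 𝕜 K]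

namespace BB_ch02



theorem aux_hom {F G : Type*} [CommRing F] [CommRing G] (f : F →+* G) (w0 w1 w3 : F) :
    fm (f w0) (f w1) (f w3) = f (fm w0 w1 w3) ∧ fkap (f w0) (f w1) = f (fkap w0 w1) ∧
    fA0 (f w0) (f w1) (f w3) = f (fA0 w0 w1 w3) ∧ fA1 (f w0) (f w1) (f w3) = f (fA1 w0 w1 w3) ∧
    fA2 (f w0) (f w1) (f w3) = f (fA2 w0 w1 w3) ∧ fA3 (f w0) (f w1) (f w3) = f (fA3 w0 w1 w3) ∧
    fDl (f w0) (f w1) = f (fDl w0 w1) := by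
  refine ⟨?_, ?_, ?_, ?_, ?_, ?_, ?_⟩ <;>
    simp only [fm, fkap, fA0, fA1, fA2, fA3, fDl, map_add, map_sub, map_mul, map_pow, map_neg,
      map_ofNat, map_one]

theorem aux_poly (A : Subalgebra 𝕜 K) (w0 w1 w3 : K) (h0 : w0 ∈ A) (h1 : w1 ∈ A) (h3 : w3 ∈ A) :
    fm w0 w1 w3 ∈ A ∧ fkap w0 w1 ∈ A ∧ fA0 w0 w1 w3 ∈ A ∧ fA1 w0 w1 w3 ∈ A ∧ fA2 w0 w1 w3 ∈ A ∧
      fA3 w0 w1 w3 ∈ A ∧ fDl w0 w1 ∈ A := by
  obtain ⟨g1, g2, g3, g4, g5, g6, g7⟩ :=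
    aux_hom (A.val.toRingHom) (⟨w0, h0⟩ : A) (⟨w1, h1⟩ : A) (⟨w3, h3⟩ : A)
  have hm : ∀ x : A, A.val.toRingHom x ∈ A := fun x => x.2
  have e0 : A.val.toRingHom (⟨w0, h0⟩ : A) = w0 := rfl
  have e1 : A.val.toRingHom (⟨w1, h1⟩ : A) = w1 := rfl
  have e3 : A.val.toRingHom (⟨w3, h3⟩ : A) = w3 := rfl
  rw [e0, e1] at g2 g7
  rw [e0, e1, e3] at g1 g3 g4 g5 g6
  rw [g1, g2, g3, g4, g5, g6, g7]
  exact ⟨hm _, hm _, hm _, hm _, hm _, hm _, hm _⟩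

theorem BB_ch02 (a b v : K) (R : Subring K) (hde : fde a b v ≠ 0) (hd : (fde a b v)⁻¹ ∈ R) :
    BB a b v ≤ Cen (ch a b v 0 2) R ∧ fs a b v ∈ ch a b v 0 2 ∧ ft a b v ∈ ch a b v 0 2 ∧
      fde a b v ∈ ch a b v 0 2 := by
  obtain ⟨⟨hb, ha, h0, h1, h3⟩, -⟩ := ch02 a b v
  obtain ⟨A, hA⟩ : ∃ A, A = ch a b v 0 2 := ⟨_, rfl⟩
  rw [← hA] at hb ha h0 h1 h3 ⊢
  obtain ⟨k1, k2, k3, k4, k5, k6, k7⟩ := aux_poly A _ _ _ h0 h1 h3
  have hs : fs a b v ∈ A := k6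
  have he2 : fe2 a b v ∈ A := A.add_mem (A.mul_mem hb hs) k5
  have he3 : fe3 a b v ∈ A := A.add_mem (A.mul_mem hb he2) k4
  have h4 : (4 : K) ∈ A := by
    have := A.algebraMap_mem (4 : 𝕜)
    rw [map_ofNat] at this
    exact this
  have ht : ft a b v ∈ A := A.sub_mem (A.mul_mem k7 he2) (A.mul_mem (A.mul_mem h4 k1) he3)
  have hd' : fde a b v ∈ A := A.mul_mem k7 k2
  have hcen : ∀ x ∈ A, x ∈ Cen A R := fun x hx =>
    ⟨x, hx, 1, A.one_mem, one_ne_zero, by rw [inv_one]; exact R.one_mem, by rw [mul_one]⟩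
  refine ⟨?_, hs, ht, hd'⟩
  apply Algebra.adjoin_le
  intro x hx
  simp only [Set.mem_insert_iff, Set.mem_singleton_iff] at hx
  rcases hx with rfl | rfl | rfl | rfl | rfl | rfl
  · exact hcen _ h0
  · exact hcen _ h1
  · exact hcen _ h3
  · exact hcen _ (A.mul_mem hb hs)
  · exact hcen _ (A.mul_mem hb he2)
  · exact ⟨1, A.one_mem, fde a b v, hd', hde, hd, inv_mul_cancel₀ hde⟩


end BB_ch02

alias BB_ch02 := BB_ch02.BB_ch02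

end Pool.Agent.H67NP.Q.E
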