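import Pool.Agent.helper67NP.Base
import Pool.Agent.helper67NP.E_Defs
import Pool.Agent.helper67NP.E_L_nz
import Pool.Agent.helper67NP.E_L_ch12
import Pool.Agent.helper67NP.E_L_BB_mem

set_option autoImplicit false
set_option linter.unusedVariables false
set_option linter.unusedSectionVars false
set_option linter.dupNamespace false

namespace Pool.Agent.H67NP.Q.E

variable [BaseField]
open Pool.Agent.H67NP.Q
variable {K : Type*} [Field K] [Algebra 𝕜 K]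

namespace BB_ch12


theorem be3_id (a b v : K) : b * fe3 a b v = - fA0 (fw0 a b v) (fw1 a b v) (fw3 a b v) := by
  simp only [fe3, fe2, fs, fA0, fA1, fA2, fA3, fm, fkap, fw0, fw1, fw3, fq0, fc]
  ring

theorem b2t_id (a b v : K) : b ^ 2 * ft a b v =
    -(fm (fw0 a b v) (fw1 a b v) (fw3 a b v)) * (1 + 3 * fw0 a b v ^ 2) * (b * fs a b v)
      - fDl (fw0 a b v) (fw1 a b v) * fA0 (fw0 a b v) (fw1 a b v) (fw3 a b v) := by
  have h1 : b * fe3 a b v = - fA0 (fw0 a b v) (fw1 a b v) (fw3 a b v) := be3_id a b v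
  have h2 : fe3 a b v = b * fe2 a b v + fA1 (fw0 a b v) (fw1 a b v) (fw3 a b v) := rfl
  have h3 : ft a b v = fDl (fw0 a b v) (fw1 a b v) * fe2 a b v
    - 4 * fm (fw0 a b v) (fw1 a b v) (fw3 a b v) * fe3 a b v := rfl
  have h4 : fs a b v = fA3 (fw0 a b v) (fw1 a b v) (fw3 a b v) := rfl
  have h5 : fA1 (fw0 a b v) (fw1 a b v) (fw3 a b v) =
    fw1 a b v * fm (fw0 a b v) (fw1 a b v) (fw3 a b v) := rfl
  have h6 : 4 * fA0 (fw0 a b v) (fw1 a b v) (fw3 a b v) - fDl (fw0 a b v) (fw1 a b v) * fw1 a b v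
      = -(1 + 3 * fw0 a b v ^ 2) * fs a b v := by
    rw [h4]
    simp only [fA0, fDl, fA3]
    ring
  rw [h3]
  have h7 : b * (b * fe2 a b v) = - fA0 (fw0 a b v) (fw1 a b v) (fw3 a b v)
      - b * (fw1 a b v * fm (fw0 a b v) (fw1 a b v) (fw3 a b v)) := by
    rw [← h1, ← h5]
    linear_combination (b) * (-h2)
  linear_combination (fDl (fw0 a b v) (fw1 a b v)) * h7
    - 4 * b * fm (fw0 a b v) (fw1 a b v) (fw3 a b v) * h1
    + b * fm (fw0 a b v) (fw1 a b v) (fw3 a b v) * h6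

theorem BB_ch12 (a b v : K) (hb : b ≠ 0) (R : Subring K) (hde : fde a b v ≠ 0)
    (hd : (fde a b v)⁻¹ ∈ R) :
    BB a b v ≤ Cen (ch a b v 1 2) R ∧ fs a b v ∈ ch a b v 1 2 ∧ b * fs a b v ∈ ch a b v 1 2 ∧
      b ^ 2 * ft a b v ∈ ch a b v 1 2 ∧ fde a b v ∈ ch a b v 1 2 := by
  obtain ⟨⟨h1, h2, h3, h4, h5⟩, -⟩ := ch12 a b v hb
  have nat : ∀ n : ℕ, ((n : ℕ) : K) ∈ ch a b v 1 2 := fun n => natCast_mem _ n
  have n3 : (3 : K) ∈ ch a b v 1 2 := by have := nat 3; exact_mod_cast this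
  have n4 : (4 : K) ∈ ch a b v 1 2 := by have := nat 4; exact_mod_cast this
  have n6 : (6 : K) ∈ ch a b v 1 2 := by have := nat 6; exact_mod_cast this
  have n9 : (9 : K) ∈ ch a b v 1 2 := by have := nat 9; exact_mod_cast this
  have n1 : (1 : K) ∈ ch a b v 1 2 := Subalgebra.one_mem _
  set S := ch a b v 1 2 with hS
  have hm : fm (fw0 a b v) (fw1 a b v) (fw3 a b v) ∈ S :=
    S.add_mem (S.sub_mem (S.neg_mem h4) (S.mul_mem (S.mul_mem n9 (S.pow_mem h3 2)) h4))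
      (S.mul_mem (S.mul_mem n6 h3) h5)
  have hkap : fkap (fw0 a b v) (fw1 a b v) ∈ S :=
    S.sub_mem (S.sub_mem n1 (S.mul_mem n4 h3)) (S.mul_mem n9 (S.pow_mem h4 3))
  have hA0 : fA0 (fw0 a b v) (fw1 a b v) (fw3 a b v) ∈ S :=
    S.add_mem (S.sub_mem (S.sub_mem (S.add_mem h4 h5) (S.mul_mem h3 h4))
      (S.mul_mem (S.mul_mem n3 (S.pow_mem h3 3)) h4)) (S.mul_mem (S.mul_mem n3 (S.pow_mem h3 2)) h5)
  have hA1 : fA1 (fw0 a b v) (fw1 a b v) (fw3 a b v) ∈ S := S.mul_mem h4 hm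
  have hA2 : fA2 (fw0 a b v) (fw1 a b v) (fw3 a b v) ∈ S :=
    S.add_mem (S.mul_mem h3 hkap) (S.mul_mem (S.mul_mem n3 (S.pow_mem h4 2)) h5)
  have hin : (1 - 4 * fw0 a b v - 3 * fw1 a b v ^ 3) ∈ S :=
    S.sub_mem (S.sub_mem n1 (S.mul_mem n4 h3)) (S.mul_mem n3 (S.pow_mem h4 3))
  have hA3 : fA3 (fw0 a b v) (fw1 a b v) (fw3 a b v) ∈ S :=
    S.sub_mem (S.mul_mem h4 hin) (S.mul_mem n4 h5)
  have h13 : (1 + 3 * fw0 a b v ^ 2) ∈ S := S.add_mem n1 (S.mul_mem n3 (S.pow_mem h3 2))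
  have hDl : fDl (fw0 a b v) (fw1 a b v) ∈ S :=
    S.add_mem (S.mul_mem hin h13)
      (S.mul_mem n4 (S.sub_mem (S.sub_mem n1 h3) (S.mul_mem n3 (S.pow_mem h3 3))))
  have hs : fs a b v ∈ S := hA3
  have he3 : fe3 a b v ∈ S := by
    have : fe3 a b v = b⁻¹ * (- fA0 (fw0 a b v) (fw1 a b v) (fw3 a b v)) := by
      rw [← be3_id a b v, ← mul_assoc, inv_mul_cancel₀ hb, one_mul]
    rw [this]
    exact S.mul_mem h1 (S.neg_mem hA0)
  have hbe2 : b * fe2 a b v ∈ S := by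
    have : b * fe2 a b v = fe3 a b v - fA1 (fw0 a b v) (fw1 a b v) (fw3 a b v) := by
      simp only [fe3]; ring
    rw [this]
    exact S.sub_mem he3 hA1
  have he2 : fe2 a b v ∈ S := by
    have : fe2 a b v = b⁻¹ * (b * fe2 a b v) := by
      rw [← mul_assoc, inv_mul_cancel₀ hb, one_mul]
    rw [this]
    exact S.mul_mem h1 hbe2
  have hbs : b * fs a b v ∈ S := by
    have : b * fs a b v = fe2 a b v - fA2 (fw0 a b v) (fw1 a b v) (fw3 a b v) := by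
      simp only [fe2]; ring
    rw [this]
    exact S.sub_mem he2 hA2
  have hbt : b ^ 2 * ft a b v ∈ S := by
    rw [b2t_id]
    exact S.sub_mem (S.mul_mem (S.mul_mem (S.neg_mem hm) h13) hbs) (S.mul_mem hDl hA0)
  have hdeS : fde a b v ∈ S := S.mul_mem hDl hkap
  refine ⟨?_, hs, hbs, hbt, hdeS⟩
  have hle : ∀ x ∈ S, x ∈ Cen S R := fun x hx =>
    ⟨x, hx, 1, n1, one_ne_zero, by rw [inv_one]; exact R.one_mem, by rw [mul_one]⟩
  apply Algebra.adjoin_le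
  intro x hx
  simp only [Set.mem_insert_iff, Set.mem_singleton_iff] at hx
  rcases hx with rfl | rfl | rfl | rfl | rfl | rfl
  · exact hle _ h3
  · exact hle _ h4
  · exact hle _ h5
  · exact hle _ hbs
  · exact hle _ hbe2
  · exact ⟨1, n1, fde a b v, hdeS, hde, hd, inv_mul_cancel₀ hde⟩


end BB_ch12

alias BB_ch12 := BB_ch12.BB_ch12

end Pool.Agent.H67NP.Q.E
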