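import Pool.Agent.helper67NP.Base
import Pool.Agent.helper67NP.E_Defs
import Pool.Agent.helper67NP.E_L_nz

set_option autoImplicit false
set_option linter.unusedVariables false
set_option linter.unusedSectionVars false
set_option linter.dupNamespace false

namespace Pool.Agent.H67NP.Q.E

variable [BaseField]
open Pool.Agent.H67NP.Q
variable {K : Type*} [Field K] [Algebra 𝕜 K]

namespace Cen_inv


theorem Cen_inv (A : Subalgebra 𝕜 K) (R : Subring K) {x : K} (hx : x ∈ Cen A R) (h0 : x ≠ 0)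
    (h1 : x⁻¹ ∈ R) : x⁻¹ ∈ Cen A R := by
  obtain ⟨p, hp, q, hq, hq0, hqR, hxq⟩ := hx
  refine ⟨q, hq, p, hp, ?_, ?_, ?_⟩
  · rw [← hxq]; exact mul_ne_zero h0 hq0
  · rw [← hxq, mul_inv]; exact R.mul_mem h1 hqR
  · rw [← hxq, ← mul_assoc, inv_mul_cancel₀ h0, one_mul]


end Cen_inv

alias Cen_inv := Cen_inv.Cen_inv

end Pool.Agent.H67NP.Q.E
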