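import Pool.Agent.helper67NP.Base
import Pool.Agent.helper67NP.E_Defs
import Pool.Agent.helper67NP.E_L_nz

set_option autoImplicit false
set_option linter.unusedVariables false
set_option linter.unusedSectionVars false
set_option linter.dupNamespace false

namespace Pool.Agent.H67NP.Q.E

variable [BaseField]
open Pool.Agent.H67NP.Q
variable {K : Type*} [Field K] [Algebra 𝕜 K]

namespace Cen_sub


theorem Cen_sub (A : Subalgebra 𝕜 K) (R : Subring K) (hA : ∀ x ∈ A, x ∈ R) {x : K}
    (hx : x ∈ Cen A R) : x ∈ R := by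
  obtain ⟨p, hp, q, hq, h0, h1, h2⟩ := hx
  have e : x = p * q⁻¹ := by rw [← h2, mul_assoc, mul_inv_cancel₀ h0, mul_one]
  rw [e]
  exact R.mul_mem (hA p hp) h1


end Cen_sub

alias Cen_sub := Cen_sub.Cen_sub

end Pool.Agent.H67NP.Q.E
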