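import Pool.Agent.helper67NP.Base
import Pool.Agent.helper67NP.E_Defs
import Pool.Agent.helper67NP.E_L_nz
import Pool.Agent.helper67NP.E_L_Cen_inv

set_option autoImplicit false
set_option linter.unusedVariables false
set_option linter.unusedSectionVars false
set_option linter.dupNamespace false

namespace Pool.Agent.H67NP.Q.E

variable [BaseField]
open Pool.Agent.H67NP.Q
variable {K : Type*} [Field K] [Algebra 𝕜 K]

namespace Cen_trans


theorem Cen_trans (A B : Subalgebra 𝕜 K) (R : Subring K) (h : B ≤ Cen A R) :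
    Cen B R ≤ Cen A R := by
  rintro x ⟨p, hp, q, hq, h0, h1, h2⟩
  have hx : x = p * q⁻¹ := by
    rw [← h2, mul_assoc, mul_inv_cancel₀ h0, mul_one]
  rw [hx]
  exact (Cen A R).mul_mem (h hp) (Cen_inv A R (h hq) h0 h1)


end Cen_trans

alias Cen_trans := Cen_trans.Cen_trans

end Pool.Agent.H67NP.Q.E
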