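import Pool.Agent.helper67NP.Base
import Pool.Agent.helper67NP.E_Defs
import Pool.Agent.helper67NP.E_L_nz

set_option autoImplicit false
set_option linter.unusedVariables false
set_option linter.unusedSectionVars false
set_option linter.dupNamespace false

namespace Pool.Agent.H67NP.Q.E

variable [BaseField]
open Pool.Agent.H67NP.Q
variable {K : Type*} [Field K] [Algebra 𝕜 K]

namespace BB_le_gd


theorem BB_le_gd (a b v : K) (i : Fin 4) : BB a b v ≤ gd a b v i := by
  exact Algebra.adjoin_mono Set.subset_union_left


end BB_le_gd

alias BB_le_gd := BB_le_gd.BB_le_gd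

end Pool.Agent.H67NP.Q.E
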