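import Pool.Agent.helper67NP.Base
import Pool.Agent.helper67NP.E_Defs
import Pool.Agent.helper67NP.E_L_nz
import Pool.Agent.helper67NP.E_L_ratio_all
import Pool.Agent.helper67NP.E_L_BB_mem
import Pool.Agent.helper67NP.E_L_BB_le_gd
import Pool.Agent.helper67NP.E_L_ch_gens

set_option autoImplicit false
set_option linter.unusedVariables false
set_option linter.unusedSectionVars false
set_option linter.dupNamespace false

namespace Pool.Agent.H67NP.Q.E

variable [BaseField]
open Pool.Agent.H67NP.Q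
variable {K : Type*} [Field K] [Algebra 𝕜 K]

namespace E1charts


theorem memF_w (A : Subalgebra 𝕜 K) (x : K) :
    x ∈ Cen A (⊤ : Subring K) ↔ ∃ p ∈ A, ∃ q ∈ A, q ≠ 0 ∧ x * q = p := by
  constructor
  · rintro ⟨p, hp, q, hq, h0, -, h⟩
    exact ⟨p, hp, q, hq, h0, h⟩
  · rintro ⟨p, hp, q, hq, h0, h⟩
    exact ⟨p, hp, q, hq, h0, Subring.mem_top _, h⟩

theorem F_of_w (A : Subalgebra 𝕜 K) {x : K} (hx : x ∈ A) : x ∈ Cen A (⊤ : Subring K) :=
  (memF_w A x).2 ⟨x, hx, 1, A.one_mem, one_ne_zero, mul_one x⟩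

theorem F_div_w (A : Subalgebra 𝕜 K) {x y : K} (hx : x ∈ Cen A (⊤ : Subring K))
    (hy : y ∈ Cen A (⊤ : Subring K)) : x / y ∈ Cen A (⊤ : Subring K) := by
  rw [div_eq_mul_inv]
  refine (Cen A (⊤ : Subring K)).mul_mem hx ?_
  by_cases h0 : y = 0
  · rw [h0, inv_zero]
    exact (Cen A (⊤ : Subring K)).zero_mem
  · obtain ⟨p, hp, q, hq, hq0, h⟩ := (memF_w A y).1 hy
    refine (memF_w A y⁻¹).2 ⟨q, hq, p, hp, ?_, ?_⟩
    · rw [← h]
      exact mul_ne_zero h0 hq0
    · rw [← h, inv_mul_cancel_left₀ h0]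

theorem final_w (a b v : K) (hgen : IsGen a b v) (A : Subalgebra 𝕜 K)
    (ha : a ∈ Cen A (⊤ : Subring K)) (hb : b ∈ Cen A (⊤ : Subring K))
    (h1 : fw1 a b v ∈ Cen A (⊤ : Subring K)) (h3 : fw3 a b v ∈ Cen A (⊤ : Subring K)) (z : K) :
    ∃ x ∈ A, ∃ s ∈ A, s ≠ 0 ∧ z * s = x := by
  have hv : v ∈ Cen A (⊤ : Subring K) := by
    have e : v = fw3 a b v + a * fw1 a b v := by
      unfold fw3
      ring
    rw [e]
    exact (Cen A (⊤ : Subring K)).add_mem h3 ((Cen A (⊤ : Subring K)).mul_mem ha h1)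
  exact ratio_all a b v hgen A ((memF_w A a).1 ha) ((memF_w A b).1 hb) ((memF_w A v).1 hv) z

theorem E1charts (a b v : K) (hind : AlgebraicIndependent 𝕜 ![a, b, v]) (hgen : IsGen a b v)
    (A : Subalgebra 𝕜 K) (hA : A ∈ charts a b v) :
    A.FG ∧ ∀ z : K, ∃ x ∈ A, ∃ s ∈ A, s ≠ 0 ∧ z * s = x := by
  obtain ⟨ha0, hb0, hv0, hfc, hw0, hw1, hw3, hs0, ht0, hde⟩ := nz a b v hind
  rcases hA with ⟨j, l, hl, rfl⟩ | ⟨i, rfl⟩
  · refine ⟨?_, ?_⟩
    · exact Subalgebra.fg_def.2 ⟨_, (Set.finite_range _).union (Set.finite_range _), rfl⟩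
    · obtain ⟨hx, hw⟩ := ch_gens a b v j l
      have hxj : xs a b j ≠ 0 := by
        fin_cases j
        · exact one_ne_zero
        · exact hb0
        · exact ha0
      have hwl : ws a b v l ≠ 0 := by
        fin_cases l
        · exact hw0
        · exact hw1
        · exact one_ne_zero
        · exact hw3
      have hxF : ∀ i, xs a b i ∈ Cen (ch a b v j l) (⊤ : Subring K) := by
        intro i
        have e : xs a b i = (xs a b i / xs a b j) / (xs a b 0 / xs a b j) := by
          rw [div_div_div_cancel_right₀ hxj]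
          show _ = _ / (1 : K)
          rw [div_one]
        rw [e]
        exact F_div_w _ (F_of_w _ (hx i)) (F_of_w _ (hx 0))
      have hwF : ∀ m, ws a b v m ∈ Cen (ch a b v j l) (⊤ : Subring K) := by
        intro m
        have e : ws a b v m = (ws a b v m / ws a b v l) / (ws a b v 2 / ws a b v l) := by
          rw [div_div_div_cancel_right₀ hwl]
          show _ = _ / (1 : K)
          rw [div_one]
        rw [e]
        exact F_div_w _ (F_of_w _ (hw m)) (F_of_w _ (hw 2))
      exact final_w a b v hgen _ (hxF 2) (hxF 1) (hwF 1) (hwF 3)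
  · refine ⟨?_, ?_⟩
    · refine Subalgebra.fg_def.2 ⟨_, ?_, rfl⟩
      apply Set.Finite.union
      · exact Set.toFinite _
      · fin_cases i
        · exact Set.toFinite ({ft a b v / fs a b v, b * ft a b v / fs a b v, fs a b v ^ 2 / ft a b v} : Set K)
        · exact Set.toFinite ({ft a b v / fs a b v ^ 2} : Set K)
        · exact Set.toFinite ({b⁻¹, fs a b v / (b * ft a b v)} : Set K)
        · exact Set.toFinite ({b, fs a b v / ft a b v} : Set K)
    · obtain ⟨m0, m1, m3, mbs, -, -, ms, -⟩ := BB_mem a b v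
      have hle := BB_le_gd a b v i
      have hb : b ∈ Cen (gd a b v i) (⊤ : Subring K) := by
        have e : (b * fs a b v) / fs a b v = b := by
          rw [mul_div_assoc, div_self hs0, mul_one]
        have h := F_div_w _ (F_of_w _ (hle mbs)) (F_of_w _ (hle ms))
        rwa [e] at h
      have h0 := F_of_w (gd a b v i) (hle m0)
      have h1 := F_of_w (gd a b v i) (hle m1)
      have h3 := F_of_w (gd a b v i) (hle m3)
      have ha : a ∈ Cen (gd a b v i) (⊤ : Subring K) := by
        have e : -fw0 a b v - b * fw1 a b v = a := by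
          unfold fw0
          ring
        have h := (Cen (gd a b v i) (⊤ : Subring K)).sub_mem
          ((Cen (gd a b v i) (⊤ : Subring K)).neg_mem h0)
          ((Cen (gd a b v i) (⊤ : Subring K)).mul_mem hb h1)
        rwa [e] at h
      exact final_w a b v hgen _ ha hb h1 h3


end E1charts

alias E1charts := E1charts.E1charts

end Pool.Agent.H67NP.Q.E
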