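import Pool.Agent.helper67NP.Base
import Pool.Agent.helper67NP.E_Defs
import Pool.Agent.helper67NP.E_L_nz

set_option autoImplicit false
set_option linter.unusedVariables false
set_option linter.unusedSectionVars false
set_option linter.dupNamespace false

namespace Pool.Agent.H67NP.Q.E

variable [BaseField]
open Pool.Agent.H67NP.Q
variable {K : Type*} [Field K] [Algebra 𝕜 K]

namespace gen_max


theorem gen_max (S : Set K) (O : Subring K) (hO : IsLocAt (Algebra.adjoin 𝕜 S).toSubring O)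
    (I : Submodule O K) (hI : ∀ f ∈ I, InM O f)
    (hS : ∀ g ∈ S, ∃ c : 𝕜, g - algebraMap 𝕜 K c ∈ I) : ∀ f, InM O f → f ∈ I := by
  obtain ⟨hAO, hloc, hfr⟩ := hO
  have hAO' : ∀ f ∈ Algebra.adjoin 𝕜 S, f ∈ O := fun f hf => hAO hf
  have hcO : ∀ c : 𝕜, algebraMap 𝕜 K c ∈ O := fun c => hAO' _ (Subalgebra.algebraMap_mem _ c)
  have hsm : ∀ f ∈ O, ∀ x ∈ I, f * x ∈ I := fun f hf x hx => I.smul_mem (⟨f, hf⟩ : O) hx
  have step1 : ∀ f ∈ Algebra.adjoin 𝕜 S, ∃ c : 𝕜, f - algebraMap 𝕜 K c ∈ I := by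
    intro f hf
    induction hf using Algebra.adjoin_induction with
    | mem x hx => exact hS x hx
    | algebraMap r => exact ⟨r, by rw [sub_self]; exact I.zero_mem⟩
    | add x y _ _ hx hy =>
      obtain ⟨c, hc⟩ := hx
      obtain ⟨d, hd⟩ := hy
      refine ⟨c + d, ?_⟩
      have : x + y - algebraMap 𝕜 K (c + d) = (x - algebraMap 𝕜 K c) + (y - algebraMap 𝕜 K d) := by
        rw [map_add]; ring
      rw [this]
      exact I.add_mem hc hd
    | mul x y hx' _ hx hy =>
      obtain ⟨c, hc⟩ := hx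
      obtain ⟨d, hd⟩ := hy
      refine ⟨c * d, ?_⟩
      have : x * y - algebraMap 𝕜 K (c * d) = x * (y - algebraMap 𝕜 K d)
          + algebraMap 𝕜 K d * (x - algebraMap 𝕜 K c) := by
        rw [map_mul]; ring
      rw [this]
      exact I.add_mem (hsm _ (hAO' x hx') _ hd) (hsm _ (hcO d) _ hc)
  intro f hf
  obtain ⟨hfO, hf0⟩ := hf
  by_cases hfz : f = 0
  · rw [hfz]; exact I.zero_mem
  have hfinv : f⁻¹ ∉ O := hf0.resolve_left hfz
  obtain ⟨x, hx, s, hs, hs0, hsO, hfs⟩ := hfr f hfO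
  obtain ⟨c, hc⟩ := step1 x hx
  have hx0 : x ≠ 0 := by rw [← hfs]; exact mul_ne_zero hfz hs0
  have hxinv : x⁻¹ ∉ O := by
    intro h
    apply hfinv
    have : f⁻¹ = s * x⁻¹ := by rw [← hfs]; field_simp
    rw [this]
    exact O.mul_mem (hAO hs) h
  have hc0 : c = 0 := by
    by_contra hne
    have hcne : algebraMap 𝕜 K c ≠ 0 := by
      rw [Ne, map_eq_zero_iff _ (algebraMap 𝕜 K).injective]
      exact hne
    have hcinv : (algebraMap 𝕜 K c)⁻¹ ∈ O := by
      rw [← map_inv₀]; exact hcO _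
    have hyO : x * (algebraMap 𝕜 K c)⁻¹ ∈ O := O.mul_mem (hAO hx) hcinv
    have hxc : x - algebraMap 𝕜 K c ≠ 0 := by
      intro h
      rw [sub_eq_zero] at h
      rw [h] at hxinv
      exact hxinv hcinv
    rcases hloc _ hyO with h | h
    · apply hxinv
      have : x⁻¹ = (algebraMap 𝕜 K c)⁻¹ * (x * (algebraMap 𝕜 K c)⁻¹)⁻¹ := by
        field_simp
      rw [this]
      exact O.mul_mem hcinv h
    · rcases (hI _ hc).2 with h' | h'
      · exact hxc h'
      · apply h'
        have h1 : (1 - x * (algebraMap 𝕜 K c)⁻¹) = -(x - algebraMap 𝕜 K c) * (algebraMap 𝕜 K c)⁻¹ := by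
          field_simp
          ring
        have : (x - algebraMap 𝕜 K c)⁻¹ = (-(algebraMap 𝕜 K c)⁻¹) * (1 - x * (algebraMap 𝕜 K c)⁻¹)⁻¹ := by
          rw [h1]
          field_simp
        rw [this]
        exact O.mul_mem (O.neg_mem hcinv) h
  rw [hc0, map_zero, sub_zero] at hc
  have : f = s⁻¹ * x := by rw [← hfs]; field_simp
  rw [this]
  exact hsm _ hsO _ hc


end gen_max

alias gen_max := gen_max.gen_max

end Pool.Agent.H67NP.Q.E
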