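import Pool.Agent.helper67NP.Base
import Pool.Agent.helper67NP.E_Defs
import Pool.Agent.helper67NP.E_L_nz

set_option autoImplicit false
set_option linter.unusedVariables false
set_option linter.unusedSectionVars false
set_option linter.dupNamespace false

namespace Pool.Agent.H67NP.Q.E

variable [BaseField]
open Pool.Agent.H67NP.Q
variable {K : Type*} [Field K] [Algebra 𝕜 K]

namespace gd_gens


theorem gd_gens (a b v : K) :
    (ft a b v / fs a b v ∈ gd a b v 0 ∧ b * ft a b v / fs a b v ∈ gd a b v 0 ∧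
      fs a b v ^ 2 / ft a b v ∈ gd a b v 0) ∧
    (ft a b v / fs a b v ^ 2 ∈ gd a b v 1) ∧
    (b⁻¹ ∈ gd a b v 2 ∧ fs a b v / (b * ft a b v) ∈ gd a b v 2) ∧
    (b ∈ gd a b v 3 ∧ fs a b v / ft a b v ∈ gd a b v 3) := by
  refine ⟨⟨?_, ?_, ?_⟩, ?_, ⟨?_, ?_⟩, ⟨?_, ?_⟩⟩ <;>
  · unfold gd
    refine Algebra.subset_adjoin (Or.inr ?_)
    simp


end gd_gens

alias gd_gens := gd_gens.gd_gens

end Pool.Agent.H67NP.Q.E
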