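import Pool.Agent.helper67NP.Base
import Pool.Agent.helper67NP.E_Defs
import Pool.Agent.helper67NP.E_L_nz
import Pool.Agent.helper67NP.E_L_Cen_inv
import Pool.Agent.helper67NP.E_L_Cen_le
import Pool.Agent.helper67NP.E_L_BB_mem
import Pool.Agent.helper67NP.E_L_BB_le_gd
import Pool.Agent.helper67NP.E_L_gd_gens
import Pool.Agent.helper67NP.E_L_gd_le
import Pool.Agent.helper67NP.E_L_ch02
import Pool.Agent.helper67NP.E_L_ch12
import Pool.Agent.helper67NP.E_L_BB_ch02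
import Pool.Agent.helper67NP.E_L_BB_ch12
import Pool.Agent.helper67NP.E_L_Cen_sub

set_option autoImplicit false
set_option linter.unusedVariables false
set_option linter.unusedSectionVars false
set_option linter.dupNamespace false

namespace Pool.Agent.H67NP.Q.E

variable [BaseField]
open Pool.Agent.H67NP.Q
variable {K : Type*} [Field K] [Algebra 𝕜 K]

namespace off0


theorem off0_units {s t b : K} (hs : s ≠ 0) (ht : t ≠ 0) (hb : b ≠ 0) (R : Subring K)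
    (hp : t / s ∈ R) (hq : b * t / s ∈ R) (hr : s ^ 2 / t ∈ R)
    (hu : s⁻¹ ∈ R ∨ (b * s)⁻¹ ∈ R ∨ t⁻¹ ∈ R ∨ (b ^ 2 * t)⁻¹ ∈ R) :
    (s ^ 2 / t)⁻¹ ∈ R ∧ ((t / s)⁻¹ ∈ R ∨ (b * t / s)⁻¹ ∈ R) := by
  rcases hu with h | h | h | h
  · refine ⟨?_, Or.inl ?_⟩
    · have e : (s ^ 2 / t)⁻¹ = (t / s) * s⁻¹ := by field_simp
      rw [e]; exact R.mul_mem hp h
    · have e : (t / s)⁻¹ = (s ^ 2 / t) * s⁻¹ := by field_simp
      rw [e]; exact R.mul_mem hr h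
  · refine ⟨?_, Or.inr ?_⟩
    · have e : (s ^ 2 / t)⁻¹ = (b * t / s) * (b * s)⁻¹ := by field_simp
      rw [e]; exact R.mul_mem hq h
    · have e : (b * t / s)⁻¹ = (s ^ 2 / t) * (b * s)⁻¹ := by field_simp
      rw [e]; exact R.mul_mem hr h
  · refine ⟨?_, Or.inl ?_⟩
    · have e : (s ^ 2 / t)⁻¹ = (t / s) * (t / s) * t⁻¹ := by field_simp
      rw [e]; exact R.mul_mem (R.mul_mem hp hp) h
    · have e : (t / s)⁻¹ = (t / s) * (s ^ 2 / t) * t⁻¹ := by field_simp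
      rw [e]; exact R.mul_mem (R.mul_mem hp hr) h
  · refine ⟨?_, Or.inr ?_⟩
    · have e : (s ^ 2 / t)⁻¹ = (b * t / s) * (b * t / s) * (b ^ 2 * t)⁻¹ := by field_simp
      rw [e]; exact R.mul_mem (R.mul_mem hq hq) h
    · have e : (b * t / s)⁻¹ = (b * t / s) * (s ^ 2 / t) * (b ^ 2 * t)⁻¹ := by field_simp
      rw [e]; exact R.mul_mem (R.mul_mem hq hr) h

theorem off0 (a b v : K) (hind : AlgebraicIndependent 𝕜 ![a, b, v]) (R : Subring K)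
    (hG : ∀ x ∈ gd a b v 0, x ∈ R)
    (hu : (fs a b v)⁻¹ ∈ R ∨ (b * fs a b v)⁻¹ ∈ R ∨ (ft a b v)⁻¹ ∈ R ∨ (b ^ 2 * ft a b v)⁻¹ ∈ R) :
    Eqv (gd a b v 0) (ch a b v 0 2) R ∨ Eqv (gd a b v 0) (ch a b v 1 2) R := by
  obtain ⟨ha, hb, hv, hfc, hw0, hw1, hw3, hs, ht, hde⟩ := nz a b v hind
  obtain ⟨⟨hp, hq, hr⟩, _⟩ := gd_gens a b v
  obtain ⟨B0, B1, B3, _, _, Bd, _, _, _, _, _, _, _⟩ := BB_mem a b v
  have hBg := BB_le_gd a b v 0
  have hd : (fde a b v)⁻¹ ∈ R := hG _ (hBg Bd)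
  obtain ⟨hri, hpq⟩ := off0_units hs ht hb R (hG _ hp) (hG _ hq) (hG _ hr) hu
  rcases hpq with hpi | hqi
  · left
    have hch : ch a b v 0 2 ≤ Cen (gd a b v 0) R := by
      refine (ch02 a b v).2 _ ?_ (Cen_le _ _ (hBg B0)) (Cen_le _ _ (hBg B1)) (Cen_le _ _ (hBg B3))
      exact ⟨b * (ft a b v) / (fs a b v), hq, (ft a b v) / (fs a b v), hp, div_ne_zero ht hs, hpi, by field_simp⟩
    have hsi : (fs a b v)⁻¹ ∈ R := by
      have e : (fs a b v)⁻¹ = ((ft a b v) / (fs a b v))⁻¹ * ((fs a b v) ^ 2 / (ft a b v))⁻¹ := by field_simp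
      rw [e]; exact R.mul_mem hpi hri
    have hti : (ft a b v)⁻¹ ∈ R := by
      have e : (ft a b v)⁻¹ = ((ft a b v) / (fs a b v))⁻¹ * ((ft a b v) / (fs a b v))⁻¹ * ((fs a b v) ^ 2 / (ft a b v))⁻¹ := by field_simp
      rw [e]; exact R.mul_mem (R.mul_mem hpi hpi) hri
    obtain ⟨hBB, hsc, htc, _⟩ := BB_ch02 a b v R hde hd
    obtain ⟨⟨hbc, _, _, _, _⟩, _⟩ := ch02 a b v
    refine ⟨hG, fun x hx => Cen_sub _ R hG (hch hx), ?_, hch⟩
    refine (gd_le a b v _ hBB).1 ?_ ?_ ?_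
    · exact ⟨(ft a b v), htc, (fs a b v), hsc, hs, hsi, by field_simp⟩
    · exact ⟨b * (ft a b v), Subalgebra.mul_mem _ hbc htc, (fs a b v), hsc, hs, hsi, by field_simp⟩
    · exact ⟨(fs a b v) ^ 2, Subalgebra.pow_mem _ hsc 2, (ft a b v), htc, ht, hti, by field_simp⟩
  · right
    have hch : ch a b v 1 2 ≤ Cen (gd a b v 0) R := by
      refine (ch12 a b v hb).2 _ ?_ (Cen_le _ _ (hBg B0)) (Cen_le _ _ (hBg B1))
        (Cen_le _ _ (hBg B3))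
      exact ⟨(ft a b v) / (fs a b v), hp, b * (ft a b v) / (fs a b v), hq, div_ne_zero (mul_ne_zero hb ht) hs, hqi, by field_simp⟩
    have hsi : (b * (fs a b v))⁻¹ ∈ R := by
      have e : (b * (fs a b v))⁻¹ = (b * (ft a b v) / (fs a b v))⁻¹ * ((fs a b v) ^ 2 / (ft a b v))⁻¹ := by field_simp
      rw [e]; exact R.mul_mem hqi hri
    have hti : (b ^ 2 * (ft a b v))⁻¹ ∈ R := by
      have e : (b ^ 2 * (ft a b v))⁻¹ = (b * (ft a b v) / (fs a b v))⁻¹ * (b * (ft a b v) / (fs a b v))⁻¹ * ((fs a b v) ^ 2 / (ft a b v))⁻¹ := by field_simp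
      rw [e]; exact R.mul_mem (R.mul_mem hqi hqi) hri
    obtain ⟨hBB, hsc, hbsc, hbtc, _⟩ := BB_ch12 a b v hb R hde hd
    obtain ⟨⟨hbc, _, _, _, _⟩, _⟩ := ch12 a b v hb
    have hbs0 : b * (fs a b v) ≠ 0 := mul_ne_zero hb hs
    have hbt0 : b ^ 2 * (ft a b v) ≠ 0 := mul_ne_zero (pow_ne_zero 2 hb) ht
    refine ⟨hG, fun x hx => Cen_sub _ R hG (hch hx), ?_, hch⟩
    refine (gd_le a b v _ hBB).1 ?_ ?_ ?_
    · exact ⟨b ^ 2 * (ft a b v) * b⁻¹, Subalgebra.mul_mem _ hbtc hbc, b * (fs a b v), hbsc, hbs0, hsi,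
        by field_simp⟩
    · exact ⟨b ^ 2 * (ft a b v), hbtc, b * (fs a b v), hbsc, hbs0, hsi, by field_simp⟩
    · exact ⟨(b * (fs a b v)) ^ 2, Subalgebra.pow_mem _ hbsc 2, b ^ 2 * (ft a b v), hbtc, hbt0, hti,
        by field_simp⟩


end off0

alias off0 := off0.off0

end Pool.Agent.H67NP.Q.E
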