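import Pool.Agent.helper67NP.Base
import Pool.Agent.helper67NP.E_Defs
import Pool.Agent.helper67NP.E_L_nz
import Pool.Agent.helper67NP.E_L_Cen_inv
import Pool.Agent.helper67NP.E_L_Cen_le
import Pool.Agent.helper67NP.E_L_BB_mem
import Pool.Agent.helper67NP.E_L_BB_le_gd
import Pool.Agent.helper67NP.E_L_gd_gens
import Pool.Agent.helper67NP.E_L_gd_le
import Pool.Agent.helper67NP.E_L_ch02
import Pool.Agent.helper67NP.E_L_ch12
import Pool.Agent.helper67NP.E_L_BB_ch02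
import Pool.Agent.helper67NP.E_L_BB_ch12
import Pool.Agent.helper67NP.E_L_Cen_sub

set_option autoImplicit false
set_option linter.unusedVariables false
set_option linter.unusedSectionVars false
set_option linter.dupNamespace false

namespace Pool.Agent.H67NP.Q.E

variable [BaseField]
open Pool.Agent.H67NP.Q
variable {K : Type*} [Field K] [Algebra 𝕜 K]

namespace off1


theorem off1 (a b v : K) (hind : AlgebraicIndependent 𝕜 ![a, b, v]) (R : Subring K)
    (hG : ∀ x ∈ gd a b v 1, x ∈ R)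
    (hu : (fs a b v)⁻¹ ∈ R ∨ (b * fs a b v)⁻¹ ∈ R ∨ (ft a b v)⁻¹ ∈ R ∨ (b ^ 2 * ft a b v)⁻¹ ∈ R) :
    Eqv (gd a b v 1) (ch a b v 0 2) R ∨ Eqv (gd a b v 1) (ch a b v 1 2) R := by
  obtain ⟨ha0, hb0, hv0, hfc0, hw0, hw1, hw3, hs0, ht0, hde0⟩ := nz a b v hind
  obtain ⟨m0, m1, m3, mbs, mbe, mde, ms, me2, me3, mt, mbt, mb2t, mdel⟩ := BB_mem a b v
  have hle := BB_le_gd a b v 1
  have hrho := (gd_gens a b v).2.1
  have hdeR : (fde a b v)⁻¹ ∈ R := hG _ (hle mde)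
  have hsR : fs a b v ∈ R := hG _ (hle ms)
  have hbsR : b * fs a b v ∈ R := hG _ (hle mbs)
  have hrR : ft a b v / fs a b v ^ 2 ∈ R := hG _ hrho
  have hbs0 : b * fs a b v ≠ 0 := mul_ne_zero hb0 hs0
  have hcase : (fs a b v)⁻¹ ∈ R ∨ (b * fs a b v)⁻¹ ∈ R := by
    rcases hu with h | h | h | h
    · exact Or.inl h
    · exact Or.inr h
    · left
      have h1 : (fs a b v)⁻¹ = (ft a b v / fs a b v ^ 2) * fs a b v * (ft a b v)⁻¹ := by
        field_simp
      rw [h1]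
      exact R.mul_mem (R.mul_mem hrR hsR) h
    · right
      have h1 : (b * fs a b v)⁻¹ =
          (ft a b v / fs a b v ^ 2) * (b * fs a b v) * (b ^ 2 * ft a b v)⁻¹ := by
        field_simp
      rw [h1]
      exact R.mul_mem (R.mul_mem hrR hbsR) h
  rcases hcase with h | h
  · left
    have hC : ch a b v 0 2 ≤ Cen (gd a b v 1) R := by
      refine (ch02 a b v).2 _ ?_ (Cen_le _ _ (hle m0)) (Cen_le _ _ (hle m1)) (Cen_le _ _ (hle m3))
      exact ⟨b * fs a b v, hle mbs, fs a b v, hle ms, hs0, h, rfl⟩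
    refine ⟨hG, fun x hx => Cen_sub _ _ hG (hC hx), ?_, hC⟩
    obtain ⟨c1, c2, c3, c4⟩ := BB_ch02 a b v R hde0 hdeR
    refine (gd_le a b v _ c1).2.1 ?_
    refine ⟨ft a b v, c3, fs a b v ^ 2, Subalgebra.pow_mem _ c2 2, pow_ne_zero 2 hs0, ?_, ?_⟩
    · rw [← inv_pow]
      exact R.pow_mem h 2
    · field_simp
  · right
    have hC : ch a b v 1 2 ≤ Cen (gd a b v 1) R := by
      refine (ch12 a b v hb0).2 _ ?_ (Cen_le _ _ (hle m0)) (Cen_le _ _ (hle m1))
        (Cen_le _ _ (hle m3))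
      exact ⟨fs a b v, hle ms, b * fs a b v, hle mbs, hbs0, h, by field_simp⟩
    refine ⟨hG, fun x hx => Cen_sub _ _ hG (hC hx), ?_, hC⟩
    obtain ⟨c1, c2, c3, c4, c5⟩ := BB_ch12 a b v hb0 R hde0 hdeR
    refine (gd_le a b v _ c1).2.1 ?_
    refine ⟨b ^ 2 * ft a b v, c4, (b * fs a b v) ^ 2, Subalgebra.pow_mem _ c3 2,
      pow_ne_zero 2 hbs0, ?_, ?_⟩
    · rw [← inv_pow]
      exact R.pow_mem h 2
    · field_simp


end off1

alias off1 := off1.off1

end Pool.Agent.H67NP.Q.E
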