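import Pool.Agent.helper67NP.Base
import Pool.Agent.helper67NP.E_Defs

set_option autoImplicit false
set_option linter.unusedVariables false
set_option linter.unusedSectionVars false
set_option linter.dupNamespace false

namespace Pool.Agent.H67NP.Q.E

variable [BaseField]
open Pool.Agent.H67NP.Q
variable {K : Type*} [Field K] [Algebra 𝕜 K]

namespace idealC


theorem cub79 {F : Type*} [CommRing F] (a b v : F) :
    fA0 (fw0 a b v) (fw1 a b v) (fw3 a b v) + b * fe3 a b v = 0 := by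
  simp only [fe3, fe2, fs, fA0, fA1, fA2, fA3, fm, fkap, fw0, fw3, fw1, fq0, fc]
  ring

theorem w1D79 {F : Type*} [CommRing F] (w0 w1 w3 : F) :
    w1 * fDl w0 w1 = (1 + 3 * w0 ^ 2) * fA3 w0 w1 w3 + 4 * fA0 w0 w1 w3 := by
  simp only [fDl, fA3, fA0]
  ring

theorem w3D79 {F : Type*} [CommRing F] (w0 w1 w3 : F) :
    w3 * fDl w0 w1 = (1 - 4 * w0 - 3 * w1 ^ 3) * fA0 w0 w1 w3
      - (1 - w0 - 3 * w0 ^ 3) * fA3 w0 w1 w3 := by
  simp only [fDl, fA3, fA0]
  ring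
theorem idealC {K : Type*} [Field K] [Algebra 𝕜 K] (a b v : K) (hde : fde a b v ≠ 0)
    (A : Subring K) (h0 : fw0 a b v ∈ A) (h1 : fw1 a b v ∈ A) (h3 : fw3 a b v ∈ A)
    (ht1 : b * fs a b v ∈ A) (hd : (fde a b v)⁻¹ ∈ A)
    (hC : ∀ c : 𝕜, algebraMap 𝕜 K c ∈ A) (I : Submodule A K)
    (i1 : fs a b v ∈ I) (i2 : b * fs a b v ∈ I) (i3 : ft a b v ∈ I) (i4 : b * ft a b v ∈ I)
    (i5 : b ^ 2 * ft a b v ∈ I) :
    fw0 a b v ∈ I ∧ fw1 a b v ∈ I ∧ fw3 a b v ∈ I ∧ b * fe2 a b v ∈ I := by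
  have hm : ∀ x ∈ A, ∀ y ∈ I, x * y ∈ I := fun x hx y hy => I.smul_mem (⟨x, hx⟩ : A) hy
  have cub := cub79 a b v
  have hw1 := w1D79 (fw0 a b v) (fw1 a b v) (fw3 a b v)
  have hw3 := w3D79 (fw0 a b v) (fw1 a b v) (fw3 a b v)
  have es : fs a b v = fA3 (fw0 a b v) (fw1 a b v) (fw3 a b v) := rfl
  have ee2 : fe2 a b v = b * fs a b v + fA2 (fw0 a b v) (fw1 a b v) (fw3 a b v) := rfl
  have ee3 : fe3 a b v = b * fe2 a b v + fA1 (fw0 a b v) (fw1 a b v) (fw3 a b v) := rfl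
  have et : ft a b v = fDl (fw0 a b v) (fw1 a b v) * fe2 a b v
    - 4 * fm (fw0 a b v) (fw1 a b v) (fw3 a b v) * fe3 a b v := rfl
  have eA1 : fA1 (fw0 a b v) (fw1 a b v) (fw3 a b v) =
    fw1 a b v * fm (fw0 a b v) (fw1 a b v) (fw3 a b v) := rfl
  have eA2 : fA2 (fw0 a b v) (fw1 a b v) (fw3 a b v) =
    fw0 a b v * fkap (fw0 a b v) (fw1 a b v) + 3 * fw1 a b v ^ 2 * fw3 a b v := rfl
  have ede : fde a b v = fDl (fw0 a b v) (fw1 a b v) * fkap (fw0 a b v) (fw1 a b v) := rfl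
  have n1 : (1 : K) ∈ A := A.one_mem
  have n3 : (3 : K) ∈ A := by
    have := natCast_mem A 3; exact_mod_cast this
  have n4 : (4 : K) ∈ A := by
    have := natCast_mem A 4; exact_mod_cast this
  have n6 : (6 : K) ∈ A := by
    have := natCast_mem A 6; exact_mod_cast this
  have n9 : (9 : K) ∈ A := by
    have := natCast_mem A 9; exact_mod_cast this
  have mD : fDl (fw0 a b v) (fw1 a b v) ∈ A := by
    unfold fDl
    exact A.add_mem (A.mul_mem (A.sub_mem (A.sub_mem n1 (A.mul_mem n4 h0))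
      (A.mul_mem n3 (A.pow_mem h1 3))) (A.add_mem n1 (A.mul_mem n3 (A.pow_mem h0 2))))
      (A.mul_mem n4 (A.sub_mem (A.sub_mem n1 h0) (A.mul_mem n3 (A.pow_mem h0 3))))
  have mk : fkap (fw0 a b v) (fw1 a b v) ∈ A := by
    unfold fkap
    exact A.sub_mem (A.sub_mem n1 (A.mul_mem n4 h0)) (A.mul_mem n9 (A.pow_mem h1 3))
  have mm : fm (fw0 a b v) (fw1 a b v) (fw3 a b v) ∈ A := by
    unfold fm
    exact A.add_mem (A.sub_mem (A.neg_mem h1) (A.mul_mem (A.mul_mem n9 (A.pow_mem h0 2)) h1))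
      (A.mul_mem (A.mul_mem n6 h0) h3)
  have mc : 1 + 3 * fw0 a b v ^ 2 ∈ A := A.add_mem n1 (A.mul_mem n3 (A.pow_mem h0 2))
  have mc2 : 1 - 4 * fw0 a b v - 3 * fw1 a b v ^ 3 ∈ A :=
    A.sub_mem (A.sub_mem n1 (A.mul_mem n4 h0)) (A.mul_mem n3 (A.pow_mem h1 3))
  have mc3 : 1 - fw0 a b v - 3 * fw0 a b v ^ 3 ∈ A :=
    A.sub_mem (A.sub_mem n1 h0) (A.mul_mem n3 (A.pow_mem h0 3))
  rw [ede] at hde hd
  obtain ⟨hD0, hk0⟩ := mul_ne_zero_iff.1 hde
  generalize fDl (fw0 a b v) (fw1 a b v) = D at *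
  generalize fkap (fw0 a b v) (fw1 a b v) = k at *
  generalize fm (fw0 a b v) (fw1 a b v) (fw3 a b v) = m at *
  generalize fA0 (fw0 a b v) (fw1 a b v) (fw3 a b v) = A0 at *
  generalize fA1 (fw0 a b v) (fw1 a b v) (fw3 a b v) = A1 at *
  generalize fA2 (fw0 a b v) (fw1 a b v) (fw3 a b v) = A2 at *
  generalize fA3 (fw0 a b v) (fw1 a b v) (fw3 a b v) = A3 at *
  generalize fe2 a b v = e2 at *
  generalize fe3 a b v = e3 at *
  generalize ft a b v = t at *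
  generalize fs a b v = s at *
  generalize fw0 a b v = w0 at *
  generalize fw1 a b v = w1 at *
  generalize fw3 a b v = w3 at *
  have mDi : D⁻¹ ∈ A := by
    have : D⁻¹ = k * (D * k)⁻¹ := by field_simp
    rw [this]; exact A.mul_mem mk hd
  have mki : k⁻¹ ∈ A := by
    have : k⁻¹ = D * (D * k)⁻¹ := by field_simp
    rw [this]; exact A.mul_mem mD hd
  have dD : ∀ y, D * y ∈ I → y ∈ I := fun y hy => by
    have := hm _ mDi _ hy
    rwa [inv_mul_cancel_left₀ hD0] at this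
  have dk : ∀ y, k * y ∈ I → y ∈ I := fun y hy => by
    have := hm _ mki _ hy
    rwa [inv_mul_cancel_left₀ hk0] at this
  have I_e3 : e3 ∈ I := by
    apply dD
    have : D * e3 = b * t + (m * (1 + 3 * w0 ^ 2)) * s := by
      rw [et, ee3, eA1, es]
      have c' : A0 = - (b * (b * e2 + A1)) := by rw [← ee3]; linear_combination cub
      rw [eA1] at c'
      rw [c'] at hw1
      linear_combination m * hw1
    rw [this]
    exact I.add_mem i4 (hm _ (A.mul_mem mm mc) _ i1)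
  have I_e2 : e2 ∈ I := by
    apply dD
    have : D * e2 = t + (4 * m) * e3 := by rw [et]; ring
    rw [this]
    exact I.add_mem i3 (hm _ (A.mul_mem n4 mm) _ I_e3)
  have I_A2 : A2 ∈ I := by
    have : A2 = e2 - b * s := by rw [ee2]; ring
    rw [this]; exact I.sub_mem I_e2 i2
  have I_A0 : A0 ∈ I := by
    apply dD
    have : D * A0 = -(b ^ 2 * t) - (m * (1 + 3 * w0 ^ 2)) * (b * s) := by
      have c1 : A0 = -(b * e3) := by linear_combination cub
      have c2 : b * t = - (m * (1 + 3 * w0 ^ 2)) * s + D * e3 := by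
        rw [et]
        have c' : b * e2 = e3 - w1 * m := by rw [ee3, eA1]; ring
        rw [es]
        rw [c1] at hw1
        linear_combination D * c' - m * hw1
      have c3 : b ^ 2 * t = b * (b * t) := by ring
      rw [c3, c2, c1]; ring
    rw [this]
    exact I.sub_mem (I.neg_mem i5) (hm _ (A.mul_mem mm mc) _ i2)
  have I_A3 : A3 ∈ I := es ▸ i1
  have I_w1 : w1 ∈ I := by
    apply dD
    rw [mul_comm, hw1]
    exact I.add_mem (hm _ mc _ I_A3) (hm _ n4 _ I_A0)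
  have I_w3 : w3 ∈ I := by
    apply dD
    rw [mul_comm, hw3]
    exact I.sub_mem (hm _ mc2 _ I_A0) (hm _ mc3 _ I_A3)
  have I_w0 : w0 ∈ I := by
    apply dk
    have : k * w0 = A2 - (3 * w1 ^ 2) * w3 := by rw [eA2]; ring
    rw [this]
    exact I.sub_mem I_A2 (hm _ (A.mul_mem n3 (A.pow_mem h1 2)) _ I_w3)
  refine ⟨I_w0, I_w1, I_w3, ?_⟩
  have : b * e2 = e3 - m * w1 := by rw [ee3, eA1]; ring
  rw [this]
  exact I.sub_mem I_e3 (hm _ mm _ I_w1)



end idealC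

alias idealC := idealC.idealC

end Pool.Agent.H67NP.Q.E
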