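import Pool.Agent.helper67NP.Base
import Pool.Agent.helper67NP.E_Defs
import Pool.Agent.helper67NP.E_L_nz
import Pool.Agent.helper67NP.E_L_BB_mem
import Pool.Agent.helper67NP.E_L_gd_le

set_option autoImplicit false
set_option linter.unusedVariables false
set_option linter.unusedSectionVars false
set_option linter.dupNamespace false

namespace Pool.Agent.H67NP.Q.E

variable [BaseField]
open Pool.Agent.H67NP.Q
variable {K : Type*} [Field K] [Algebra 𝕜 K]

namespace gd_V


/-- the valuation ring as a subalgebra -/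
def gdVS (V : ValuationSubring K) (hV : ∀ c : 𝕜, algebraMap 𝕜 K c ∈ V) : Subalgebra 𝕜 K where
  carrier := {x | x ∈ V}
  mul_mem' := fun hx hy => V.mul_mem _ _ hx hy
  add_mem' := fun hx hy => V.add_mem _ _ hx hy
  algebraMap_mem' := hV

theorem gd_V (a b v : K) (hind : AlgebraicIndependent 𝕜 ![a, b, v])
    (V : ValuationSubring K) (hV : ∀ c : 𝕜, algebraMap 𝕜 K c ∈ V)
    (hB : ∀ x ∈ BB a b v, x ∈ V) : ∃ i, ∀ x ∈ gd a b v i, x ∈ V := by
  obtain ⟨-, hb0, -, -, -, -, -, hs0, ht0, -⟩ := nz a b v hind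
  have hBS : BB a b v ≤ gdVS V hV := fun x hx => hB x hx
  obtain ⟨g0, g1, g2, g3⟩ := gd_le a b v (gdVS V hV) hBS
  set s := fs a b v with hs
  set t := ft a b v with ht
  have hmem : ∀ x, x ∈ gdVS V hV ↔ x ∈ V := fun x => Iff.rfl
  -- the end of the argument
  have hend : t / s ∈ V → b * t / s ∈ V → ∃ i, ∀ x ∈ gd a b v i, x ∈ V := by
    intro h1 h2
    rcases V.mem_or_inv_mem (s ^ 2 / t) with h3 | h3
    · exact ⟨0, fun x hx => g0 h1 h2 h3 hx⟩
    · rw [inv_div] at h3
      exact ⟨1, fun x hx => g1 h3 hx⟩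
  rcases V.mem_or_inv_mem b with hb | hb
  · rcases V.mem_or_inv_mem (s / t) with h1 | h1
    · exact ⟨3, fun x hx => g3 hb h1 hx⟩
    · rw [inv_div] at h1
      refine hend h1 ?_
      rw [mul_div_assoc]
      exact V.mul_mem _ _ hb h1
  · rcases V.mem_or_inv_mem (s / (b * t)) with h1 | h1
    · exact ⟨2, fun x hx => g2 hb h1 hx⟩
    · rw [inv_div] at h1
      refine hend ?_ h1
      have h2 : t / s = b⁻¹ * (b * t / s) := by
        field_simp
      rw [h2]
      exact V.mul_mem _ _ hb h1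


end gd_V

alias gd_V := gd_V.gd_V

end Pool.Agent.H67NP.Q.E
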