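import Pool.Agent.helper67NP.Base
import Pool.Agent.helper67NP.E_Defs
import Pool.Agent.helper67NP.E_L_nz
import Pool.Agent.helper67NP.E_L_Z_V
import Pool.Agent.helper67NP.E_L_BB_V
import Pool.Agent.helper67NP.E_L_gd_V

set_option autoImplicit false
set_option linter.unusedVariables false
set_option linter.unusedSectionVars false
set_option linter.dupNamespace false

namespace Pool.Agent.H67NP.Q.E

variable [BaseField]
open Pool.Agent.H67NP.Q
variable {K : Type*} [Field K] [Algebra 𝕜 K]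

namespace E3complete


theorem E3complete (a b v : K) (hind : AlgebraicIndependent 𝕜 ![a, b, v])
    (V : ValuationSubring K) (hV : ∀ c : 𝕜, algebraMap 𝕜 K c ∈ V) :
    ∃ A ∈ charts a b v, ∀ x ∈ A, x ∈ V := by
  rcases Z_V a b v hind V hV with ⟨j, l, hl, h⟩ | ⟨h0, h1, h3, n0, n1, n3⟩
  · exact ⟨ch a b v j l, Or.inl ⟨j, l, hl, rfl⟩, h⟩
  · obtain ⟨i, hi⟩ := gd_V a b v hind V hV (BB_V a b v hind V hV h0 h1 h3 n0 n1 n3)
    exact ⟨gd a b v i, Or.inr ⟨i, rfl⟩, hi⟩


end E3complete

alias E3complete := E3complete.E3complete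

end Pool.Agent.H67NP.Q.E
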