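import Pool.Agent.helper67NP.Base
import Pool.Agent.helper67NP.E_Defs
import Pool.Agent.helper67NP.E_L_nz

set_option autoImplicit false
set_option linter.unusedVariables false
set_option linter.unusedSectionVars false
set_option linter.dupNamespace false

namespace Pool.Agent.H67NP.Q.E

variable [BaseField]
open Pool.Agent.H67NP.Q
variable {K : Type*} [Field K] [Algebra 𝕜 K]

namespace Eqv_symm


theorem Eqv_symm {A B : Subalgebra 𝕜 K} {R : Subring K} (h : Eqv A B R) : Eqv B A R :=
  ⟨h.2.1, h.1, h.2.2.2, h.2.2.1⟩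


end Eqv_symm

alias Eqv_symm := Eqv_symm.Eqv_symm

end Pool.Agent.H67NP.Q.E
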