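import Pool.Agent.helper67NP.Base
import Pool.Agent.helper67NP.E_Defs
import Pool.Agent.helper67NP.E_L_nz
import Pool.Agent.helper67NP.E_L_Cen_inv
import Pool.Agent.helper67NP.E_L_Cen_le
import Pool.Agent.helper67NP.E_L_BB_mem
import Pool.Agent.helper67NP.E_L_BB_le_gd
import Pool.Agent.helper67NP.E_L_gd_gens
import Pool.Agent.helper67NP.E_L_gd_le
import Pool.Agent.helper67NP.E_L_Cen_sub

set_option autoImplicit false
set_option linter.unusedVariables false
set_option linter.unusedSectionVars false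
set_option linter.dupNamespace false

namespace Pool.Agent.H67NP.Q.E

variable [BaseField]
open Pool.Agent.H67NP.Q
variable {K : Type*} [Field K] [Algebra 𝕜 K]

namespace pair03


theorem pair03 (a b v : K) (hind : AlgebraicIndependent 𝕜 ![a, b, v]) (R : Subring K)
    (h : ∀ x ∈ gd a b v 0, x ∈ R) (h' : ∀ x ∈ gd a b v 3, x ∈ R) :
    Eqv (gd a b v 0) (gd a b v 3) R := by
  obtain ⟨-, hb, -, -, -, -, -, hs, ht, -⟩ := nz a b v hind
  obtain ⟨⟨g1, g2, g3⟩, -, -, g4, g5⟩ := gd_gens a b v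
  have hi1 : (fs a b v / ft a b v)⁻¹ = ft a b v / fs a b v := inv_div _ _
  have hi2 : (ft a b v / fs a b v)⁻¹ = fs a b v / ft a b v := inv_div _ _
  have h3 := Cen_le (gd a b v 3) R
  have h0 := Cen_le (gd a b v 0) R
  have hsBB : fs a b v ∈ BB a b v := (BB_mem a b v).2.2.2.2.2.2.1
  have e1 : ft a b v / fs a b v ∈ Cen (gd a b v 3) R := by
    rw [← hi1]
    exact Cen_inv _ _ (h3 g5) (div_ne_zero hs ht) (by rw [hi1]; exact h _ g1)
  have e2 : fs a b v / ft a b v ∈ Cen (gd a b v 0) R := by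
    rw [← hi2]
    exact Cen_inv _ _ (h0 g1) (div_ne_zero ht hs) (by rw [hi2]; exact h' _ g5)
  refine ⟨h, h', ?_, ?_⟩
  · refine (gd_le a b v (Cen (gd a b v 3) R) ((BB_le_gd a b v 3).trans h3)).1 e1 ?_ ?_
    · have : b * ft a b v / fs a b v = b * (ft a b v / fs a b v) := by ring
      rw [this]
      exact (Cen (gd a b v 3) R).mul_mem (h3 g4) e1
    · have : fs a b v ^ 2 / ft a b v = fs a b v * (fs a b v / ft a b v) := by ring
      rw [this]
      exact (Cen (gd a b v 3) R).mul_mem (h3 (BB_le_gd a b v 3 hsBB)) (h3 g5)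
  · refine (gd_le a b v (Cen (gd a b v 0) R) ((BB_le_gd a b v 0).trans h0)).2.2.2 ?_ e2
    have h7 : (b * ft a b v / fs a b v) * (fs a b v / ft a b v) = b := by
      field_simp
    have h8 := (Cen (gd a b v 0) R).mul_mem (h0 g2) e2
    have h9 : ∀ y : K, (b * ft a b v / fs a b v) * (fs a b v / ft a b v) = y →
        y ∈ Cen (gd a b v 0) R := fun y hy => hy ▸ h8
    exact h9 b h7


end pair03

alias pair03 := pair03.pair03

end Pool.Agent.H67NP.Q.E
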