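import Pool.Agent.helper67NP.Base
import Pool.Agent.helper67NP.E_Defs
import Pool.Agent.helper67NP.E_L_nz
import Pool.Agent.helper67NP.E_L_Cen_inv
import Pool.Agent.helper67NP.E_L_Cen_le
import Pool.Agent.helper67NP.E_L_BB_mem
import Pool.Agent.helper67NP.E_L_BB_le_gd
import Pool.Agent.helper67NP.E_L_gd_gens
import Pool.Agent.helper67NP.E_L_gd_le
import Pool.Agent.helper67NP.E_L_Cen_sub

set_option autoImplicit false
set_option linter.unusedVariables false
set_option linter.unusedSectionVars false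
set_option linter.dupNamespace false

namespace Pool.Agent.H67NP.Q.E

variable [BaseField]
open Pool.Agent.H67NP.Q
variable {K : Type*} [Field K] [Algebra 𝕜 K]

namespace pair12


theorem pair12 (a b v : K) (hind : AlgebraicIndependent 𝕜 ![a, b, v]) (R : Subring K)
    (h : ∀ x ∈ gd a b v 1, x ∈ R) (h' : ∀ x ∈ gd a b v 2, x ∈ R) :
    Eqv (gd a b v 1) (gd a b v 2) R := by
  obtain ⟨ha, hb, hv, hfc, hw0, hw1, hw3, hs, ht, hde⟩ := nz a b v hind
  obtain ⟨m1, m2, m3, mbs, mbe2, mde', ms, me2, me3, mt, mbt, mb2t, mde⟩ := BB_mem a b v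
  obtain ⟨_, g1, ⟨g2b, g2m⟩, _⟩ := gd_gens a b v
  have hbsR : (b * fs a b v)⁻¹ ∈ R := by
    have h1 : ft a b v / fs a b v ^ 2 * (fs a b v / (b * ft a b v)) = (b * fs a b v)⁻¹ := by
      field_simp
    rw [← h1]
    exact R.mul_mem (h _ g1) (h' _ g2m)
  have hbs0 : b * fs a b v ≠ 0 := mul_ne_zero hb hs
  refine ⟨h, h', ?_, ?_⟩
  · refine (gd_le a b v (Cen (gd a b v 2) R) ((BB_le_gd a b v 2).trans (Cen_le _ _))).2.1 ?_
    refine ⟨b ^ 2 * ft a b v, BB_le_gd a b v 2 mb2t, (b * fs a b v) ^ 2,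
      (gd a b v 2).pow_mem (BB_le_gd a b v 2 mbs) 2, pow_ne_zero 2 hbs0, ?_, ?_⟩
    · rw [← inv_pow]
      exact R.pow_mem hbsR 2
    · field_simp
  · refine (gd_le a b v (Cen (gd a b v 1) R) ((BB_le_gd a b v 1).trans (Cen_le _ _))).2.2.1 ?_ ?_
    · refine ⟨fs a b v, BB_le_gd a b v 1 ms, b * fs a b v, BB_le_gd a b v 1 mbs, hbs0, hbsR, ?_⟩
      field_simp
    · refine ⟨1, (gd a b v 1).one_mem, ft a b v / fs a b v ^ 2 * (b * fs a b v),
        (gd a b v 1).mul_mem g1 (BB_le_gd a b v 1 mbs), ?_, ?_, ?_⟩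
      · exact mul_ne_zero (div_ne_zero ht (pow_ne_zero 2 hs)) hbs0
      · have h2 : (ft a b v / fs a b v ^ 2 * (b * fs a b v))⁻¹ = fs a b v / (b * ft a b v) := by
          field_simp
        rw [h2]
        exact h' _ g2m
      · field_simp


end pair12

alias pair12 := pair12.pair12

end Pool.Agent.H67NP.Q.E
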