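import Pool.Agent.helper67NP.Base
import Pool.Agent.helper67NP.E_Defs
import Pool.Agent.helper67NP.E_L_nz
import Pool.Agent.helper67NP.E_L_Cen_inv
import Pool.Agent.helper67NP.E_L_Cen_le
import Pool.Agent.helper67NP.E_L_BB_mem
import Pool.Agent.helper67NP.E_L_BB_le_gd
import Pool.Agent.helper67NP.E_L_gd_gens
import Pool.Agent.helper67NP.E_L_gd_le
import Pool.Agent.helper67NP.E_L_Cen_sub

set_option autoImplicit false
set_option linter.unusedVariables false
set_option linter.unusedSectionVars false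
set_option linter.dupNamespace false

namespace Pool.Agent.H67NP.Q.E

variable [BaseField]
open Pool.Agent.H67NP.Q
variable {K : Type*} [Field K] [Algebra 𝕜 K]

namespace pair13


theorem pair13 (a b v : K) (hind : AlgebraicIndependent 𝕜 ![a, b, v]) (R : Subring K)
    (h : ∀ x ∈ gd a b v 1, x ∈ R) (h' : ∀ x ∈ gd a b v 3, x ∈ R) :
    Eqv (gd a b v 1) (gd a b v 3) R := by
  obtain ⟨_, _, _, _, _, _, _, hs, ht, _⟩ := nz a b v hind
  obtain ⟨_, _, _, hbs, _, _, hsB, _, _, htB, _, _, _⟩ := BB_mem a b v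
  obtain ⟨_, hρ, _, hb3, hμ⟩ := gd_gens a b v
  have hρR := h _ hρ
  have hμR := h' _ hμ
  have hsinv : (fs a b v)⁻¹ ∈ R := by
    have h1 := R.mul_mem hρR hμR
    have e : ft a b v / fs a b v ^ 2 * (fs a b v / ft a b v) = (fs a b v)⁻¹ := by
      field_simp
    rwa [e] at h1
  refine ⟨h, h', ?_, ?_⟩
  · refine (gd_le a b v (Cen (gd a b v 3) R) ((BB_le_gd a b v 3).trans (Cen_le _ R))).2.1 ?_
    refine ⟨ft a b v, BB_le_gd a b v 3 htB, fs a b v ^ 2,
      (gd a b v 3).pow_mem (BB_le_gd a b v 3 hsB) 2, pow_ne_zero 2 hs, ?_, ?_⟩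
    · rw [← inv_pow]
      exact R.pow_mem hsinv 2
    · field_simp
  · refine (gd_le a b v (Cen (gd a b v 1) R) ((BB_le_gd a b v 1).trans (Cen_le _ R))).2.2.2 ?_ ?_
    · exact ⟨b * fs a b v, BB_le_gd a b v 1 hbs, fs a b v, BB_le_gd a b v 1 hsB, hs, hsinv, rfl⟩
    · refine ⟨1, (gd a b v 1).one_mem, ft a b v / fs a b v ^ 2 * fs a b v,
        (gd a b v 1).mul_mem hρ (BB_le_gd a b v 1 hsB), ?_, ?_, ?_⟩
      · exact mul_ne_zero (div_ne_zero ht (pow_ne_zero 2 hs)) hs
      · have e : (ft a b v / fs a b v ^ 2 * fs a b v)⁻¹ = fs a b v / ft a b v := by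
          field_simp
        rw [e]
        exact hμR
      · field_simp


end pair13

alias pair13 := pair13.pair13

end Pool.Agent.H67NP.Q.E
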