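import Pool.Agent.helper67NP.Base
import Pool.Agent.helper67NP.E_Defs
import Pool.Agent.helper67NP.E_L_nz
import Pool.Agent.helper67NP.E_L_Cen_inv
import Pool.Agent.helper67NP.E_L_Cen_le
import Pool.Agent.helper67NP.E_L_BB_mem
import Pool.Agent.helper67NP.E_L_BB_le_gd
import Pool.Agent.helper67NP.E_L_gd_gens
import Pool.Agent.helper67NP.E_L_gd_le
import Pool.Agent.helper67NP.E_L_Cen_sub

set_option autoImplicit false
set_option linter.unusedVariables false
set_option linter.unusedSectionVars false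
set_option linter.dupNamespace false

namespace Pool.Agent.H67NP.Q.E

variable [BaseField]
open Pool.Agent.H67NP.Q
variable {K : Type*} [Field K] [Algebra 𝕜 K]

namespace pair23


theorem pair23 (a b v : K) (hind : AlgebraicIndependent 𝕜 ![a, b, v]) (R : Subring K)
    (h : ∀ x ∈ gd a b v 2, x ∈ R) (h' : ∀ x ∈ gd a b v 3, x ∈ R) :
    Eqv (gd a b v 2) (gd a b v 3) R := by
  obtain ⟨-, hb, -, -, -, -, -, -, ht, -⟩ := nz a b v hind
  obtain ⟨-, -, ⟨h2a, h2b⟩, ⟨h3a, h3b⟩⟩ := gd_gens a b v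
  refine ⟨h, h', ?_, ?_⟩
  · have hbi : b⁻¹ ∈ Cen (gd a b v 3) R :=
      Cen_inv _ R (Cen_le _ R h3a) hb (h _ h2a)
    refine (gd_le a b v _ ((BB_le_gd a b v 3).trans (Cen_le _ R))).2.2.1 hbi ?_
    have e : fs a b v / (b * ft a b v) = b⁻¹ * (fs a b v / ft a b v) := by
      field_simp
    rw [e]
    exact Subalgebra.mul_mem _ hbi (Cen_le _ R h3b)
  · have hbi : b ∈ Cen (gd a b v 2) R := by
      have := Cen_inv (gd a b v 2) R (Cen_le _ R h2a) (inv_ne_zero hb)
        (by rw [inv_inv]; exact h' _ h3a)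
      rwa [inv_inv] at this
    refine (gd_le a b v _ ((BB_le_gd a b v 2).trans (Cen_le _ R))).2.2.2 hbi ?_
    have e : fs a b v / ft a b v = b * (fs a b v / (b * ft a b v)) := by
      field_simp
    rw [e]
    exact Subalgebra.mul_mem _ hbi (Cen_le _ R h2b)


end pair23

alias pair23 := pair23.pair23

end Pool.Agent.H67NP.Q.E
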