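import Pool.Agent.helper67NP.Base
import Pool.Agent.helper67NP.E_Defs
import Pool.Agent.helper67NP.E_L_nz
import Pool.Agent.helper67NP.E_L_pair01
import Pool.Agent.helper67NP.E_L_pair02
import Pool.Agent.helper67NP.E_L_pair03
import Pool.Agent.helper67NP.E_L_pair12
import Pool.Agent.helper67NP.E_L_pair13
import Pool.Agent.helper67NP.E_L_pair23
import Pool.Agent.helper67NP.E_L_Eqv_symm
import Pool.Agent.helper67NP.E_L_Cen_le

set_option autoImplicit false
set_option linter.unusedVariables false
set_option linter.unusedSectionVars false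
set_option linter.dupNamespace false

namespace Pool.Agent.H67NP.Q.E

variable [BaseField]
open Pool.Agent.H67NP.Q
variable {K : Type*} [Field K] [Algebra 𝕜 K]

namespace gd_gd


theorem gd_gd (a b v : K) (hind : AlgebraicIndependent 𝕜 ![a, b, v]) (R : Subring K)
    (i i' : Fin 4) (h : ∀ x ∈ gd a b v i, x ∈ R) (h' : ∀ x ∈ gd a b v i', x ∈ R) :
    Eqv (gd a b v i) (gd a b v i') R := by
  have hself : ∀ j : Fin 4, (∀ x ∈ gd a b v j, x ∈ R) → Eqv (gd a b v j) (gd a b v j) R :=
    fun j hj => ⟨hj, hj, Cen_le _ _, Cen_le _ _⟩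
  fin_cases i <;> fin_cases i'
  · exact hself 0 h
  · exact pair01 a b v hind R h h'
  · exact pair02 a b v hind R h h'
  · exact pair03 a b v hind R h h'
  · exact Eqv_symm (pair01 a b v hind R h' h)
  · exact hself 1 h
  · exact pair12 a b v hind R h h'
  · exact pair13 a b v hind R h h'
  · exact Eqv_symm (pair02 a b v hind R h' h)
  · exact Eqv_symm (pair12 a b v hind R h' h)
  · exact hself 2 h
  · exact pair23 a b v hind R h h'
  · exact Eqv_symm (pair03 a b v hind R h' h)
  · exact Eqv_symm (pair13 a b v hind R h' h)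
  · exact Eqv_symm (pair23 a b v hind R h' h)
  · exact hself 3 h



end gd_gd

alias gd_gd := gd_gd.gd_gd

end Pool.Agent.H67NP.Q.E
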