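import Pool.Agent.helper67NP.Base
import Pool.Agent.helper67NP.E_Defs
import Pool.Agent.helper67NP.E_L_nz
import Pool.Agent.helper67NP.E_L_off0
import Pool.Agent.helper67NP.E_L_off1
import Pool.Agent.helper67NP.E_L_off2
import Pool.Agent.helper67NP.E_L_off3
import Pool.Agent.helper67NP.E_L_unit_off
import Pool.Agent.helper67NP.E_L_BB_le_gd

set_option autoImplicit false
set_option linter.unusedVariables false
set_option linter.unusedSectionVars false
set_option linter.dupNamespace false

namespace Pool.Agent.H67NP.Q.E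

variable [BaseField]
open Pool.Agent.H67NP.Q
variable {K : Type*} [Field K] [Algebra 𝕜 K]

namespace gd_off


theorem gd_off (a b v : K) (hind : AlgebraicIndependent 𝕜 ![a, b, v]) (R : Subring K)
    (hR : Loc R) (i : Fin 4) (hG : ∀ x ∈ gd a b v i, x ∈ R)
    (hw : (fw0 a b v)⁻¹ ∈ R ∨ (fw1 a b v)⁻¹ ∈ R ∨ (fw3 a b v)⁻¹ ∈ R) :
    Eqv (gd a b v i) (ch a b v 0 2) R ∨ Eqv (gd a b v i) (ch a b v 1 2) R := by
  have hu := unit_off a b v hind R hR (fun x hx => hG x (BB_le_gd a b v i hx)) hw
  fin_cases i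
  · exact off0 a b v hind R hG hu
  · exact off1 a b v hind R hG hu
  · exact off2 a b v hind R hG hu
  · exact off3 a b v hind R hG hu


end gd_off

alias gd_off := gd_off.gd_off

end Pool.Agent.H67NP.Q.E
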