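import Pool.Agent.helper67NP.Base
import Pool.Agent.helper67NP.E_Defs
import Pool.Agent.helper67NP.E_L_nz
import Pool.Agent.helper67NP.E_L_all_eqv
import Pool.Agent.helper67NP.E_L_eq_of_Eqv

set_option autoImplicit false
set_option linter.unusedVariables false
set_option linter.unusedSectionVars false
set_option linter.dupNamespace false

namespace Pool.Agent.H67NP.Q.E

variable [BaseField]
open Pool.Agent.H67NP.Q
variable {K : Type*} [Field K] [Algebra 𝕜 K]

namespace E3sep


theorem E3sep (a b v : K) (hind : AlgebraicIndependent 𝕜 ![a, b, v])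
    (V : ValuationSubring K) (hV : ∀ c : 𝕜, algebraMap 𝕜 K c ∈ V)
    (A B : Subalgebra 𝕜 K) (hA : A ∈ charts a b v) (hB : B ∈ charts a b v)
    (O O' : Subring K) (hO : IsLocAt A.toSubring O) (hO' : IsLocAt B.toSubring O')
    (h : Dom V.toSubring O) (h' : Dom V.toSubring O') : O = O' := by
  have hAV : ∀ x ∈ A, x ∈ V := fun x hx => h.1 (hO.1 hx)
  have hBV : ∀ x ∈ B, x ∈ V := fun x hx => h'.1 (hO'.1 hx)
  exact eq_of_Eqv (all_eqv a b v hind V A B hA hB hAV hBV) hO hO' h h'


end E3sep

alias E3sep := E3sep.E3sep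

end Pool.Agent.H67NP.Q.E
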