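import Pool.Agent.helper67NP.Base
import Pool.Agent.helper67NP.E_L_nz
import Pool.Agent.helper67NP.E_L_idealC
import Pool.Agent.helper67NP.E_L_Cen_le
import Pool.Agent.helper67NP.E_L_Cen_inv
import Pool.Agent.helper67NP.E_L_Cen_sub
import Pool.Agent.helper67NP.E_L_Cen_trans
import Pool.Agent.helper67NP.E_L_Eqv_symm
import Pool.Agent.helper67NP.E_L_Eqv_trans
import Pool.Agent.helper67NP.E_L_eq_of_Eqv
import Pool.Agent.helper67NP.E_L_isLoc_of_Eqv
import Pool.Agent.helper67NP.E_L_BB_mem
import Pool.Agent.helper67NP.E_L_BB_le_gd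
import Pool.Agent.helper67NP.E_L_gd_gens
import Pool.Agent.helper67NP.E_L_gd_le
import Pool.Agent.helper67NP.E_L_ch_le
import Pool.Agent.helper67NP.E_L_ch_gens
import Pool.Agent.helper67NP.E_L_ch02
import Pool.Agent.helper67NP.E_L_ch12
import Pool.Agent.helper67NP.E_L_BB_ch02
import Pool.Agent.helper67NP.E_L_BB_ch12
import Pool.Agent.helper67NP.E_L_off0
import Pool.Agent.helper67NP.E_L_off1
import Pool.Agent.helper67NP.E_L_off2
import Pool.Agent.helper67NP.E_L_off3
import Pool.Agent.helper67NP.E_L_unit_off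
import Pool.Agent.helper67NP.E_L_Z_eqv
import Pool.Agent.helper67NP.E_L_pair01
import Pool.Agent.helper67NP.E_L_pair03
import Pool.Agent.helper67NP.E_L_pair02
import Pool.Agent.helper67NP.E_L_pair13
import Pool.Agent.helper67NP.E_L_pair12
import Pool.Agent.helper67NP.E_L_pair23
import Pool.Agent.helper67NP.E_L_BB_V
import Pool.Agent.helper67NP.E_L_gd_V
import Pool.Agent.helper67NP.E_L_Z_V
import Pool.Agent.helper67NP.E_L_E3complete
import Pool.Agent.helper67NP.E_L_gd_off
import Pool.Agent.helper67NP.E_L_gd_gd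
import Pool.Agent.helper67NP.E_L_all_eqv
import Pool.Agent.helper67NP.E_L_E3sep
import Pool.Agent.helper67NP.E_L_ratio_all
import Pool.Agent.helper67NP.E_L_E1charts
import Pool.Agent.helper67NP.E_L_gen_max
import Pool.Agent.helper67NP.E_L_three
import Pool.Agent.helper67NP.E_L_linalg
import Pool.Agent.helper67NP.E_L_Zsmooth
import Pool.Agent.helper67NP.E_L_over0
import Pool.Agent.helper67NP.E_L_over1
import Pool.Agent.helper67NP.E_L_over2
import Pool.Agent.helper67NP.E_L_over3
import Pool.Agent.helper67NP.E_L_E2smooth
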