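import Pool.Agent.helper67NP.Base
import Pool.Agent.helper67NP.Q_Defs

set_option autoImplicit false

namespace Pool.Agent.H67NP.Q

variable [BaseField]



theorem ellpt : ∃ x y : AlgebraicClosure (RatFunc 𝕜), fc x y = 0 ∧ Transcendental 𝕜 y := by
  obtain ⟨x, hx⟩ := IsAlgClosed.exists_eq_mul_self
    ((4 * (algebraMap (RatFunc 𝕜) (AlgebraicClosure (RatFunc 𝕜)) RatFunc.X) ^ 3 - 1) / 3)
  refine ⟨x, algebraMap (RatFunc 𝕜) (AlgebraicClosure (RatFunc 𝕜)) RatFunc.X, ?_, ?_⟩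
  · unfold fc
    have h3 : (3 : AlgebraicClosure (RatFunc 𝕜)) ≠ 0 := K3 _
    rw [div_eq_iff h3] at hx
    linear_combination -hx
  · rw [transcendental_algebraMap_iff (algebraMap (RatFunc 𝕜) (AlgebraicClosure (RatFunc 𝕜))).injective]
    exact RatFunc.transcendental_X

end Pool.Agent.H67NP.Q
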