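import Pool.Agent.helper67NP.Base
import Pool.Agent.helper67NP.Q_Defs

set_option autoImplicit false

namespace Pool.Agent.H67NP.Q

variable [BaseField]



theorem lochom {K : Type*} [Field K] (A : Subring K) {F : Type*} [Field F] (φ : A →+* F) :
    ∃ (O : Subring K) (ψ : O →+* F), IsLocAt A O ∧
      (∀ z : K, z ∈ O ↔ ∃ x y : A, φ y ≠ 0 ∧ z * y = x) ∧
      (∀ (x : A) (h : (x : K) ∈ O), ψ ⟨x, h⟩ = φ x) ∧ (∀ z : O, InM O z ↔ ψ z = 0) := by
  classical
  let O : Subring K :=
    { carrier := {z | ∃ x y : A, φ y ≠ 0 ∧ z * y = x}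
      mul_mem' := by
        rintro z w ⟨x, y, hy, hz⟩ ⟨x', y', hy', hw⟩
        refine ⟨x * x', y * y', ?_, ?_⟩
        · rw [map_mul]; exact mul_ne_zero hy hy'
        · push_cast
          rw [← hz, ← hw]; ring
      one_mem' := ⟨1, 1, by simp, by simp⟩
      add_mem' := by
        rintro z w ⟨x, y, hy, hz⟩ ⟨x', y', hy', hw⟩
        refine ⟨x * y' + x' * y, y * y', ?_, ?_⟩
        · rw [map_mul]; exact mul_ne_zero hy hy'
        · push_cast
          rw [← hz, ← hw]; ring
      zero_mem' := ⟨0, 1, by simp, by simp⟩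
      neg_mem' := by
        rintro z ⟨x, y, hy, hz⟩
        refine ⟨-x, y, hy, ?_⟩
        push_cast
        rw [← hz]; ring }
  have hO : ∀ z : K, z ∈ O ↔ ∃ x y : A, φ y ≠ 0 ∧ z * y = x := fun z => Iff.rfl
  have hne : ∀ y : A, φ y ≠ 0 → (y : K) ≠ 0 := by
    intro y hy h
    apply hy
    have : y = 0 := Subtype.ext (by simpa using h)
    rw [this, map_zero]
  have hwd : ∀ (z : K) (x y x' y' : A), φ y ≠ 0 → φ y' ≠ 0 → z * y = x → z * y' = x' →
      φ x / φ y = φ x' / φ y' := by
    intro z x y x' y' hy hy' h h'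
    rw [div_eq_div_iff hy hy', ← map_mul, ← map_mul]
    congr 1
    apply Subtype.ext
    push_cast
    rw [← h, ← h']; ring
  have hex : ∀ z : O, ∃ x y : A, φ y ≠ 0 ∧ (z : K) * y = x := fun z => (hO z).1 z.2
  choose X Y hY hXY using hex
  have key : ∀ (z : O) (x y : A), φ y ≠ 0 → (z : K) * y = x → φ (X z) / φ (Y z) = φ x / φ y :=
    fun z x y hy h => hwd z _ _ _ _ (hY z) hy (hXY z) h
  let ψ : O →+* F :=
    { toFun := fun z => φ (X z) / φ (Y z)
      map_one' := by
        change φ (X 1) / φ (Y 1) = 1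
        rw [key 1 1 1 (by simp) (by simp)]; simp
      map_mul' := by
        intro z w
        change φ (X (z * w)) / φ (Y (z * w)) = φ (X z) / φ (Y z) * (φ (X w) / φ (Y w))
        rw [key (z * w) (X z * X w) (Y z * Y w)
          (by rw [map_mul]; exact mul_ne_zero (hY z) (hY w))
          (by push_cast; rw [← hXY z, ← hXY w]; ring)]
        rw [map_mul, map_mul, mul_div_mul_comm]
      map_zero' := by
        change φ (X 0) / φ (Y 0) = 0
        rw [key 0 0 1 (by simp) (by simp)]; simp
      map_add' := by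
        intro z w
        change φ (X (z + w)) / φ (Y (z + w)) = φ (X z) / φ (Y z) + (φ (X w) / φ (Y w))
        rw [key (z + w) (X z * Y w + X w * Y z) (Y z * Y w)
          (by rw [map_mul]; exact mul_ne_zero (hY z) (hY w))
          (by push_cast; rw [← hXY z, ← hXY w]; ring)]
        rw [map_mul, map_add, map_mul, map_mul, div_add_div _ _ (hY z) (hY w)]
        congr 1
        ring }
  have hψ : ∀ z : O, ψ z = φ (X z) / φ (Y z) := fun z => rfl
  refine ⟨O, ψ, ⟨?_, ?_, ?_⟩, hO, ?_, ?_⟩
  · intro a ha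
    exact (hO a).2 ⟨⟨a, ha⟩, 1, by simp, by simp⟩
  · intro z hz
    obtain ⟨x, y, hy, h⟩ := (hO z).1 hz
    have hy0 := hne y hy
    by_cases hx : φ x = 0
    · right
      have h1 : φ (y - x) ≠ 0 := by rw [map_sub, hx, sub_zero]; exact hy
      have h2 := hne _ h1
      refine (hO _).2 ⟨y, y - x, h1, ?_⟩
      have h3 : ((y - x : A) : K) = (1 - z) * y := by
        push_cast
        rw [← h]; ring
      rw [h3] at h2 ⊢
      have h4 : (1 - z) ≠ 0 := fun h0 => h2 (by rw [h0, zero_mul])
      rw [← mul_assoc, inv_mul_cancel₀ h4, one_mul]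
    · left
      have h2 := hne _ hx
      have hz0 : z ≠ 0 := by
        intro h0
        apply h2
        rw [← h, h0, zero_mul]
      refine (hO _).2 ⟨y, x, hx, ?_⟩
      rw [← h, ← mul_assoc, inv_mul_cancel₀ hz0, one_mul]
  · intro z hz
    obtain ⟨x, y, hy, h⟩ := (hO z).1 hz
    refine ⟨x, x.2, y, y.2, hne y hy, ?_, h⟩
    exact (hO _).2 ⟨1, y, hy, by rw [inv_mul_cancel₀ (hne y hy)]; simp⟩
  · intro x h
    rw [hψ, key ⟨x, h⟩ x 1 (by simp) (by simp)]
    simp
  · intro z
    constructor
    · rintro ⟨-, h | h⟩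
      · have : z = 0 := Subtype.ext (by simpa using h)
        rw [this, map_zero]
      · by_contra hne0
        apply h
        rw [hψ] at hne0
        have hx : φ (X z) ≠ 0 := by
          intro h0
          apply hne0
          rw [h0, zero_div]
        have h2 := hne _ hx
        have hz0 : (z : K) ≠ 0 := by
          intro h0
          apply h2
          rw [← hXY z, h0, zero_mul]
        refine (hO _).2 ⟨Y z, X z, hx, ?_⟩
        rw [← hXY z, ← mul_assoc, inv_mul_cancel₀ hz0, one_mul]
    · intro h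
      refine ⟨z.2, ?_⟩
      by_cases hz0 : (z : K) = 0
      · exact Or.inl hz0
      · right
        intro hinv
        have h1 : z * ⟨(z : K)⁻¹, hinv⟩ = 1 := Subtype.ext (by simp [hz0])
        have h2 := congrArg ψ h1
        rw [map_mul, h, zero_mul, map_one] at h2
        exact zero_ne_one h2

end Pool.Agent.H67NP.Q
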