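import Pool.Agent.helper67NP.Base
import Pool.Agent.helper67NP.Q_Defs

set_option autoImplicit false

namespace Pool.Agent.H67NP.Q

variable [BaseField]



theorem genV_aux {K : Type*} [Field K] [Algebra 𝕜 K] (a b v : K) (hv : v ≠ 0) (f : K)
    (hf : f ∈ PR a b v) : ∃ k : ℕ, ∀ m : ℕ, k ≤ m → f * v⁻¹ ^ m ∈ PR v⁻¹ a b := by
  have hv' : v⁻¹ ∈ PR v⁻¹ a b := Algebra.subset_adjoin (by simp)
  have ha' : a ∈ PR v⁻¹ a b := Algebra.subset_adjoin (by simp)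
  have hb' : b ∈ PR v⁻¹ a b := Algebra.subset_adjoin (by simp)
  have hf' : f ∈ Algebra.adjoin 𝕜 ({a, b, v} : Set K) := hf
  induction hf' using Algebra.adjoin_induction with
  | mem x hx =>
    rcases hx with hx | hx | hx
    · rw [hx]
      exact ⟨0, fun m _ => Subring.mul_mem _ ha' (Subring.pow_mem _ hv' m)⟩
    · rw [hx]
      exact ⟨0, fun m _ => Subring.mul_mem _ hb' (Subring.pow_mem _ hv' m)⟩
    · rw [Set.mem_singleton_iff] at hx
      rw [hx]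
      refine ⟨1, fun m hm => ?_⟩
      obtain ⟨n, rfl⟩ := Nat.exists_eq_add_of_le hm
      have : v * v⁻¹ ^ (1 + n) = v⁻¹ ^ n := by
        rw [pow_add, pow_one, ← mul_assoc, mul_inv_cancel₀ hv, one_mul]
      rw [this]
      exact Subring.pow_mem _ hv' n
  | algebraMap r =>
    refine ⟨0, fun m _ => Subring.mul_mem _ ?_ (Subring.pow_mem _ hv' m)⟩
    exact (Algebra.adjoin 𝕜 ({v⁻¹, a, b} : Set K)).algebraMap_mem r
  | add x y hx hy ihx ihy =>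
    obtain ⟨k1, h1⟩ := ihx hx
    obtain ⟨k2, h2⟩ := ihy hy
    refine ⟨max k1 k2, fun m hm => ?_⟩
    rw [add_mul]
    exact Subring.add_mem _ (h1 m (le_trans (le_max_left _ _) hm))
      (h2 m (le_trans (le_max_right _ _) hm))
  | mul x y hx hy ihx ihy =>
    obtain ⟨k1, h1⟩ := ihx hx
    obtain ⟨k2, h2⟩ := ihy hy
    refine ⟨k1 + k2, fun m hm => ?_⟩
    obtain ⟨n, rfl⟩ := Nat.exists_eq_add_of_le hm
    have : x * y * v⁻¹ ^ (k1 + k2 + n) = (x * v⁻¹ ^ k1) * (y * v⁻¹ ^ (k2 + n)) := by ring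
    rw [this]
    exact Subring.mul_mem _ (h1 k1 le_rfl) (h2 (k2 + n) (Nat.le_add_right _ _))

theorem genV {K : Type*} [Field K] [Algebra 𝕜 K] (a b v : K) (hv : v ≠ 0) (h : IsGen a b v) :
    IsGen v⁻¹ a b := by
  intro k
  obtain ⟨f, hf, g, hg, hg0, hk⟩ := h k
  obtain ⟨k1, h1⟩ := genV_aux a b v hv f hf
  obtain ⟨k2, h2⟩ := genV_aux a b v hv g hg
  refine ⟨f * v⁻¹ ^ (k1 + k2), h1 _ (Nat.le_add_right _ _), g * v⁻¹ ^ (k1 + k2),
    h2 _ (Nat.le_add_left _ _), mul_ne_zero hg0 (pow_ne_zero _ (inv_ne_zero hv)), ?_⟩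
  rw [← hk]; ring

end Pool.Agent.H67NP.Q
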