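import Pool.Agent.helper67NP.Base
import Pool.Agent.helper67NP.Q_Defs

set_option autoImplicit false

namespace Pool.Agent.H67NP.Q

variable [BaseField]



theorem cop_exists {K : Type*} [Field K] {R : Type*} [CommRing R] [IsDomain R]
    [UniqueFactorizationMonoid R] [Algebra R K] [IsFractionRing R K] {n : ℕ} (y : Fin n → K)
    (hy : ∃ i, y i ≠ 0) : ∃ c : K, c ≠ 0 ∧ Cop (algebraMap R K).range (fun j => c * y j) := by
  classical
  let _ : StrongNormalizationMonoid R := UniqueFactorizationMonoid.strongNormalizationMonoid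
  let _ : StrongNormalizedGCDMonoid R :=
    UniqueFactorizationMonoid.toStrongNormalizedGCDMonoid R
  obtain ⟨i0, hi0⟩ := hy
  have hinj : Function.Injective (algebraMap R K) := IsFractionRing.injective R K
  obtain ⟨b, hb⟩ := IsLocalization.exist_integer_multiples_of_finite (nonZeroDivisors R) y
  have hb0 : (b : R) ≠ 0 := nonZeroDivisors.ne_zero b.2
  choose r hr using hb
  have hr' : ∀ i, algebraMap R K (r i) = algebraMap R K (b : R) * y i := by
    intro i
    rw [hr i, Algebra.smul_def]
  have hne : (Finset.univ : Finset (Fin n)).Nonempty := ⟨i0, Finset.mem_univ _⟩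
  obtain ⟨g, hg, hg1⟩ := Finset.extract_gcd r hne
  have hd0 : Finset.univ.gcd r ≠ 0 := by
    intro h0
    have h1 : r i0 = 0 := by rw [hg i0 (Finset.mem_univ _), h0, zero_mul]
    have h2 := hr' i0
    rw [h1, map_zero] at h2
    rcases mul_eq_zero.1 h2.symm with h3 | h3
    · exact hb0 (hinj (by rw [h3, map_zero]))
    · exact hi0 h3
  have hD : algebraMap R K (Finset.univ.gcd r) ≠ 0 := fun h => hd0 (hinj (by rw [h, map_zero]))
  have hB : algebraMap R K (b : R) ≠ 0 := fun h => hb0 (hinj (by rw [h, map_zero]))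
  have hc : ∀ j, algebraMap R K (b : R) / algebraMap R K (Finset.univ.gcd r) * y j
      = algebraMap R K (g j) := by
    intro j
    have h1 := hr' j
    rw [hg j (Finset.mem_univ _), map_mul] at h1
    field_simp
    linear_combination -h1
  refine ⟨algebraMap R K (b : R) / algebraMap R K (Finset.univ.gcd r), div_ne_zero hB hD, ?_, ?_⟩
  · intro j
    exact ⟨g j, (hc j).symm⟩
  · intro z hz
    obtain ⟨p, q, hq, hpq⟩ := IsFractionRing.div_surjective (A := R) z
    have hq0 : q ≠ 0 := nonZeroDivisors.ne_zero hq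
    have hQ : algebraMap R K q ≠ 0 := fun h => hq0 (hinj (by rw [h, map_zero]))
    have h1 : ∀ j, q ∣ p * g j := by
      intro j
      obtain ⟨t, ht⟩ := hz j
      refine ⟨t, hinj ?_⟩
      have h2 : z * (algebraMap R K (b : R) / algebraMap R K (Finset.univ.gcd r) * y j)
          = algebraMap R K t := ht.symm
      rw [hc j, ← hpq] at h2
      rw [map_mul, map_mul, ← h2]
      field_simp
    have h3 : q ∣ Finset.univ.gcd (fun j => p * g j) :=
      Finset.dvd_gcd (fun j _ => h1 j)
    rw [Finset.gcd_mul_left, hg1, mul_one, dvd_normalize_iff] at h3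
    obtain ⟨m, hm⟩ := h3
    refine ⟨m, ?_⟩
    rw [← hpq, hm, map_mul]
    field_simp

end Pool.Agent.H67NP.Q
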