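import Pool.Agent.helper67NP.Base
import Pool.Agent.helper67NP.Q_Defs

set_option autoImplicit false

namespace Pool.Agent.H67NP.Q

variable [BaseField]



theorem flip {K : Type*} [Field K] {R R1 : Subring K} {n : ℕ} (y : Fin n → K) (β : K) (hβ : β ≠ 0)
    (hβR : β ∈ R) (hπ : β⁻¹ ∈ R1)
    (hprime : ∀ f ∈ R1, ∀ g ∈ R1, β * (f * g) ∈ R1 → β * f ∈ R1 ∨ β * g ∈ R1)
    (h1 : ∀ z ∈ R, ∃ k : ℕ, z * β⁻¹ ^ k ∈ R1) (h2 : ∀ z ∈ R1, ∃ k : ℕ, z * β ^ k ∈ R)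
    (hy : Cop R y) (N : ℕ) (hN : ∀ j, y j * β⁻¹ ^ N ∈ R1) (hmin : ∃ j, β * (y j * β⁻¹ ^ N) ∉ R1) :
    Cop R1 (fun j => y j * β⁻¹ ^ N) := by
  classical
  refine ⟨hN, fun z hz => ?_⟩
  have hc : ∃ k : ℕ, ∀ j, z * (y j * β⁻¹ ^ N) * β ^ k ∈ R := by
    choose k hk using fun j => h2 _ (hz j)
    refine ⟨∑ j, k j, fun j => ?_⟩
    rw [← Finset.add_sum_erase _ _ (Finset.mem_univ j), pow_add, ← mul_assoc]
    exact R.mul_mem (hk j) (R.pow_mem hβR _)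
  obtain ⟨k, hk⟩ := hc
  have hz1 : z * β ^ k ∈ R := by
    refine hy.2 _ fun j => ?_
    have h3 := R.mul_mem (hk j) (R.pow_mem hβR N)
    have h4 : z * (y j * β⁻¹ ^ N) * β ^ k * β ^ N = z * β ^ k * y j := by
      have : β⁻¹ ^ N * β ^ N = 1 := by
        rw [← mul_pow, inv_mul_cancel₀ hβ, one_pow]
      calc z * (y j * β⁻¹ ^ N) * β ^ k * β ^ N = z * β ^ k * y j * (β⁻¹ ^ N * β ^ N) := by ring
        _ = z * β ^ k * y j := by rw [this, mul_one]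
    rwa [h4] at h3
  have hM : ∃ M : ℕ, z * β⁻¹ ^ M ∈ R1 := by
    obtain ⟨m, hm⟩ := h1 _ hz1
    refine ⟨m, ?_⟩
    have h3 := R1.mul_mem hm (R1.pow_mem hπ k)
    have h4 : z * β ^ k * β⁻¹ ^ m * β⁻¹ ^ k = z * β⁻¹ ^ m := by
      have : β ^ k * β⁻¹ ^ k = 1 := by
        rw [← mul_pow, mul_inv_cancel₀ hβ, one_pow]
      calc z * β ^ k * β⁻¹ ^ m * β⁻¹ ^ k = z * β⁻¹ ^ m * (β ^ k * β⁻¹ ^ k) := by ring
        _ = z * β⁻¹ ^ m := by rw [this, mul_one]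
    rwa [h4] at h3
  rcases hcase : Nat.find hM with _ | M'
  · have := Nat.find_spec hM
    rw [hcase, pow_zero, mul_one] at this
    exact this
  · exfalso
    have hf := Nat.find_spec hM
    rw [hcase] at hf
    have hnf : z * β⁻¹ ^ M' ∉ R1 := Nat.find_min hM (by rw [hcase]; exact Nat.lt_succ_self _)
    have e1 : β * (z * β⁻¹ ^ (M' + 1)) = z * β⁻¹ ^ M' := by
      rw [pow_succ]
      calc β * (z * (β⁻¹ ^ M' * β⁻¹)) = z * β⁻¹ ^ M' * (β * β⁻¹) := by ring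
        _ = z * β⁻¹ ^ M' := by rw [mul_inv_cancel₀ hβ, mul_one]
    obtain ⟨j, hj⟩ := hmin
    rcases hprime _ hf _ (hN j) (by
      have h3 := R1.mul_mem (R1.pow_mem hπ M') (hz j)
      have h4 : β⁻¹ ^ M' * (z * (y j * β⁻¹ ^ N)) =
          β * (z * β⁻¹ ^ (M' + 1) * (y j * β⁻¹ ^ N)) := by
        rw [← mul_assoc β, e1]; ring
      rwa [h4] at h3) with h | h
    · rw [e1] at h
      exact hnf h
    · exact hj h

end Pool.Agent.H67NP.Q
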