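import Pool.Agent.helper67NP.Base
import Pool.Agent.helper67NP.Q_Defs

set_option autoImplicit false

namespace Pool.Agent.H67NP.Q

variable [BaseField]



theorem prime1 {K : Type*} [Field K] [Algebra 𝕜 K] (x y z : K)
    (h : AlgebraicIndependent 𝕜 ![x, y, z]) :
    ∀ f ∈ PR x y z, ∀ g ∈ PR x y z, x⁻¹ * (f * g) ∈ PR x y z → x⁻¹ * f ∈ PR x y z ∨ x⁻¹ * g ∈ PR x y z := by
  have hmem : ∀ k : K, k ∈ PR x y z ↔ ∃ p : MvPolynomial (Fin 3) 𝕜, MvPolynomial.aeval ![x, y, z] p = k := by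
    intro k
    have hset : ({x, y, z} : Set K) = Set.range ![x, y, z] := by
      ext t
      constructor
      · rintro (rfl | rfl | rfl)
        · exact ⟨0, rfl⟩
        · exact ⟨1, rfl⟩
        · exact ⟨2, rfl⟩
      · rintro ⟨i, rfl⟩
        fin_cases i <;> simp
    unfold PR
    rw [Subalgebra.mem_toSubring, hset, Algebra.adjoin_range_eq_range_aeval]
    rfl
  have hinj : Function.Injective (MvPolynomial.aeval (R := 𝕜) ![x, y, z]) := h
  have hX : MvPolynomial.aeval (R := 𝕜) ![x, y, z] (MvPolynomial.X 0) = x := by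
    rw [MvPolynomial.aeval_X]
    rfl
  have hx : x ≠ 0 := by
    intro h0
    have : (MvPolynomial.X 0 : MvPolynomial (Fin 3) 𝕜) = 0 := by
      apply hinj
      rw [hX, h0, map_zero]
    exact MvPolynomial.X_ne_zero _ this
  have key : ∀ k : K, ∀ p : MvPolynomial (Fin 3) 𝕜, MvPolynomial.aeval ![x, y, z] p = k →
      (MvPolynomial.X 0 : MvPolynomial (Fin 3) 𝕜) ∣ p → x⁻¹ * k ∈ PR x y z := by
    rintro k p hp ⟨q, rfl⟩
    rw [hmem]
    refine ⟨q, ?_⟩
    rw [map_mul, hX] at hp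
    rw [← hp, inv_mul_cancel_left₀ hx]
  intro f hf g hg hfg
  obtain ⟨p, hp⟩ := (hmem f).1 hf
  obtain ⟨q, hq⟩ := (hmem g).1 hg
  obtain ⟨r, hr⟩ := (hmem _).1 hfg
  have h1 : p * q = MvPolynomial.X 0 * r := by
    apply hinj
    rw [map_mul, map_mul, hp, hq, hr, hX, mul_inv_cancel_left₀ hx]
  have hprime : Prime (MvPolynomial.X 0 : MvPolynomial (Fin 3) 𝕜) := MvPolynomial.X_prime
  rcases hprime.dvd_or_dvd (⟨r, h1⟩ : MvPolynomial.X 0 ∣ p * q) with h2 | h2
  · exact Or.inl (key f p hp h2)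
  · exact Or.inr (key g q hq h2)

end Pool.Agent.H67NP.Q
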