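import Pool.Agent.helper67NP.Base
import Pool.Agent.helper67NP.Q_Defs

set_option autoImplicit false

namespace Pool.Agent.H67NP.Q

variable [BaseField]



theorem compl {K : Type*} [Field K] (R : Subring K) (p d : K) (hp : p ∈ R) (hp0 : p ≠ 0) (hd : d ∈ R)
    (hprime : ∀ f ∈ R, ∀ g ∈ R, p⁻¹ * (f * g) ∈ R → p⁻¹ * f ∈ R ∨ p⁻¹ * g ∈ R)
    (hpd : p⁻¹ * d ∉ R) (z : K) (k m : ℕ) (h1 : z * p ^ k ∈ R) (h2 : z * d ^ m ∈ R) : z ∈ R := by
  have hdm : ∀ n : ℕ, p⁻¹ * d ^ n ∉ R := by
    intro n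
    induction n with
    | zero =>
      intro h
      rw [pow_zero, mul_one] at h
      exact hpd (R.mul_mem h hd)
    | succ n ih =>
      intro h
      rw [pow_succ] at h
      rcases hprime _ (R.pow_mem hd n) _ hd h with h' | h'
      · exact ih h'
      · exact hpd h'
  induction k with
  | zero => simpa using h1
  | succ k ih =>
    have e1 : p⁻¹ * ((z * p ^ (k + 1)) * d ^ m) = (z * d ^ m) * p ^ k := by
      rw [pow_succ]
      field_simp
    have h3 : p⁻¹ * ((z * p ^ (k + 1)) * d ^ m) ∈ R := by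
      rw [e1]
      exact R.mul_mem h2 (R.pow_mem hp k)
    rcases hprime _ h1 _ (R.pow_mem hd m) h3 with h' | h'
    · apply ih
      have e2 : p⁻¹ * (z * p ^ (k + 1)) = z * p ^ k := by
        rw [pow_succ]
        field_simp
      rwa [e2] at h'
    · exact absurd h' (hdm m)

end Pool.Agent.H67NP.Q
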