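import Pool.Agent.helper67NP.Base
import Pool.Agent.helper67NP.Q_Defs
import Pool.Agent.helper67NP.Q_P_nz

set_option autoImplicit false

namespace Pool.Agent.H67NP.Q

variable [BaseField]



theorem genR2 {K : Type*} [Field K] [Algebra 𝕜 K] (a b v : K)
    (hind : AlgebraicIndependent 𝕜 ![a, b, v]) (h : IsGen a b v) :
    IsGen a⁻¹ (b / a) (fw0 a b v / fw3 a b v) := by
  classical
  obtain ⟨ha, -, -, -, -, -, hw3, -, -, -⟩ := nz a b v hind
  set W : K := fw0 a b v / fw3 a b v with hW
  set A : Subring K := PR a⁻¹ (b / a) W with hA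
  set S : Subfield K := Subfield.closure (A : Set K) with hS
  have hAS : ∀ x ∈ A, x ∈ S := fun x hx => Subfield.subset_closure hx
  have gen : ∀ x ∈ ({a⁻¹, b / a, W} : Set K), x ∈ A := fun x hx => Algebra.subset_adjoin hx
  have mA1 : a⁻¹ ∈ S := hAS _ (gen _ (by simp))
  have mA2 : b / a ∈ S := hAS _ (gen _ (by simp))
  have mW : W ∈ S := hAS _ (gen _ (by simp))
  have ma : a ∈ S := by
    have := S.inv_mem mA1
    rwa [inv_inv] at this
  have mb : b ∈ S := by
    have := S.mul_mem mA2 ma
    rwa [div_mul_cancel₀ _ ha] at this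
  have mC : ∀ z : 𝕜, algebraMap 𝕜 K z ∈ S := fun z =>
    hAS _ ((Algebra.adjoin 𝕜 ({a⁻¹, b / a, W} : Set K)).algebraMap_mem z)
  have mc : fc a b ∈ S := by
    unfold fc
    exact add_mem (sub_mem (mul_mem (ofNat_mem S 3) (pow_mem ma 2))
      (mul_mem (ofNat_mem S 4) (pow_mem mb 3))) (one_mem S)
  have mq : fq0 a b ∈ S := by
    unfold fq0
    exact mul_mem (pow_mem mb 2) (add_mem (mul_mem (ofNat_mem S 4) ma) (one_mem S))
  have hq1 : fq1 a b ≠ 0 := by
    intro h0
    let p : MvPolynomial (Fin 3) 𝕜 := 1 + 3 * MvPolynomial.X 0 ^ 3 + MvPolynomial.X 0 +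
      MvPolynomial.X 1 ^ 3
    have hp : MvPolynomial.aeval ![a, b, v] p = 0 := by
      simp only [p, map_add, map_mul, map_pow, map_one, MvPolynomial.aeval_X, map_ofNat]
      simpa [fq1] using h0
    have hp0 : p = 0 := by
      have hinj : Function.Injective (MvPolynomial.aeval ![a, b, v] : MvPolynomial (Fin 3) 𝕜 →ₐ[𝕜] K) :=
        hind
      exact hinj (by rw [hp, map_zero])
    have h1 := congrArg (MvPolynomial.eval (fun _ : Fin 3 => (0:𝕜))) hp0
    simp [p] at h1
  have hWe : W * fw3 a b v = fw0 a b v := div_mul_cancel₀ _ hw3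
  have hden : (1 + a * fc a b) * W - b * fc a b ≠ 0 := by
    intro h0
    have h1 : ((1 + a * fc a b) * W - b * fc a b) * fw3 a b v = -(a * fq1 a b) := by
      have : ((1 + a * fc a b) * W - b * fc a b) * fw3 a b v =
          (1 + a * fc a b) * fw0 a b v - b * fc a b * fw3 a b v := by
        rw [← hWe]; ring
      rw [this]
      simp only [fw0, fw3, fw1, fc, fq0, fq1]
      ring
    rw [h0, zero_mul] at h1
    have : a * fq1 a b = 0 := by
      rw [← neg_eq_zero]; exact h1.symm
    rcases mul_eq_zero.1 this with h | h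
    · exact ha h
    · exact hq1 h
  have hv : v = (a ^ 2 * fq0 a b * W - a * b * fq0 a b - a) /
      ((1 + a * fc a b) * W - b * fc a b) := by
    rw [eq_div_iff hden]
    have h1 : W * ((1 + a * fc a b) * v - a ^ 2 * fq0 a b) =
        b * fc a b * v - a * b * fq0 a b - a := by
      have e3 : fw3 a b v = (1 + a * fc a b) * v - a ^ 2 * fq0 a b := by
        simp only [fw3, fw1]; ring
      have e0 : fw0 a b v = b * fc a b * v - a * b * fq0 a b - a := by
        simp only [fw0, fw1]; ring
      rw [← e3, ← e0]; exact hWe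
    linear_combination h1
  have mv : v ∈ S := by
    rw [hv]
    exact div_mem (sub_mem (sub_mem (mul_mem (mul_mem (pow_mem ma 2) mq) mW)
      (mul_mem (mul_mem ma mb) mq)) ma)
      (sub_mem (mul_mem (add_mem (one_mem S) (mul_mem ma mc)) mW) (mul_mem mb mc))
  -- all of `PR a b v` lies in `S`
  have hPR : ∀ x ∈ PR a b v, x ∈ S := by
    intro x hx
    have hx' : x ∈ Algebra.adjoin 𝕜 ({a, b, v} : Set K) := hx
    clear hx
    induction hx' using Algebra.adjoin_induction with
    | mem x hx =>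
      rcases hx with rfl | rfl | rfl
      · exact ma
      · exact mb
      · exact mv
    | algebraMap r => exact mC r
    | add x y _ _ hx hy => exact add_mem hx hy
    | mul x y _ _ hx hy => exact mul_mem hx hy
  intro k
  obtain ⟨f, hf, g, hg, hg0, hk⟩ := h k
  have mk : k ∈ S := by
    rw [eq_div_of_mul_eq hg0 hk]
    exact div_mem (hPR f hf) (hPR g hg)
  obtain ⟨y, hy, z, hz, hyz⟩ := Subfield.mem_closure_iff.1 mk
  rw [Subring.closure_eq] at hy hz
  by_cases hz0 : z = 0
  · refine ⟨0, zero_mem _, 1, one_mem _, one_ne_zero, ?_⟩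
    rw [← hyz, hz0, div_zero, zero_mul]
  · exact ⟨y, hy, z, hz, hz0, by rw [← hyz, div_mul_cancel₀ _ hz0]⟩

end Pool.Agent.H67NP.Q
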