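import Pool.Agent.helper67NP.Base
import Pool.Agent.helper67NP.Q_Defs
import Pool.Agent.helper67NP.Q_P_loccop
import Pool.Agent.helper67NP.Q_P_nz
import Pool.Agent.helper67NP.Q_P_curve
import Pool.Agent.helper67NP.Q_P_etaBw
import Pool.Agent.helper67NP.Q_P_r2fin
import Pool.Agent.helper67NP.Q_P_flipV

set_option autoImplicit false

namespace Pool.Agent.H67NP.Q

variable [BaseField]



theorem ebm_adj {K : Type*} [Field K] [Algebra 𝕜 K] {F : Type*} [Field F] [Algebra 𝕜 F] (O : Subring K)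
    (ψ : O →+* F) (hc : ∀ c : 𝕜, ∃ h : algebraMap 𝕜 K c ∈ O, ψ ⟨_, h⟩ = algebraMap 𝕜 F c) (S : Set K)
    (A : Subalgebra 𝕜 F) (hS : ∀ s ∈ S, ∃ h : s ∈ O, ψ ⟨s, h⟩ ∈ A) (z : K) (hz : z ∈ Algebra.adjoin 𝕜 S) :
    ∃ h : z ∈ O, ψ ⟨z, h⟩ ∈ A := by
  induction hz using Algebra.adjoin_induction with
  | mem x hx => exact hS x hx
  | algebraMap r =>
    obtain ⟨h, e⟩ := hc r
    exact ⟨h, by rw [e]; exact A.algebraMap_mem r⟩
  | add x y _ _ hx hy =>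
    obtain ⟨h1, e1⟩ := hx
    obtain ⟨h2, e2⟩ := hy
    refine ⟨O.add_mem h1 h2, ?_⟩
    have e3 : (⟨x + y, O.add_mem h1 h2⟩ : O) = ⟨x, h1⟩ + ⟨y, h2⟩ := rfl
    rw [e3, map_add]
    exact A.add_mem e1 e2
  | mul x y _ _ hx hy =>
    obtain ⟨h1, e1⟩ := hx
    obtain ⟨h2, e2⟩ := hy
    refine ⟨O.mul_mem h1 h2, ?_⟩
    have e3 : (⟨x * y, O.mul_mem h1 h2⟩ : O) = ⟨x, h1⟩ * ⟨y, h2⟩ := rfl
    rw [e3, map_mul]
    exact A.mul_mem e1 e2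

theorem etaBMain {K : Type*} [Field K] [Algebra 𝕜 K] (hK : Algebra.trdeg 𝕜 K = 3) (a b v : K)
    (hind : AlgebraicIndependent 𝕜 ![a, b, v]) (hgen : IsGen a b v)
    (O : Subring K) {F : Type*} [Field F] [Algebra 𝕜 F] (ψ : O →+* F) (h : EtaB a b v O ψ)
    (n : ℕ) (y : Fin n → K) (i : Fin n) (hy : Cop (PR a b v) y) (hi : y i ≠ 0)
    (hij : ∀ j, y j / y i ∈ O) (hb : ∀ j, b * y j ∈ P1 a b v) : False := by
  obtain ⟨ha0, hb0, hv0, -, hw00, -, hw30, -, -, -⟩ := nz a b v hind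
  obtain ⟨N, hN⟩ := flipV hK a b v hind hgen y hy ⟨i, hi⟩
  have hRO : PR v⁻¹ a b ≤ O := h.loc.1
  have hcop : Cop O (fun j => y j * v⁻¹ ^ N) := loccop _ hN hRO h.loc.2.2
  set w : K := y i * v⁻¹ ^ N with hw
  have hwP : w ∈ PR v⁻¹ a b := hN.1 i
  have hwO : w ∈ O := hRO hwP
  have hvN : v⁻¹ ^ N ≠ 0 := pow_ne_zero _ (inv_ne_zero hv0)
  have hw0 : w ≠ 0 := mul_ne_zero hi hvN
  have hwi : w⁻¹ ∈ O := by
    refine hcop.2 w⁻¹ fun j => ?_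
    have e : w⁻¹ * (y j * v⁻¹ ^ N) = y j / y i := by
      rw [hw, mul_inv, div_eq_mul_inv]
      field_simp
    rw [e]
    exact hij j
  have hf0 : ψ ⟨w, hwO⟩ ≠ 0 := by
    intro h0
    have h1 : InM O w := (h.inM ⟨w, hwO⟩).2 h0
    rcases h1.2 with h2 | h2
    · exact hw0 h2
    · exact h2 hwi
  obtain ⟨⟨hw3i, ew3i⟩, ⟨hw03, ew03⟩, ⟨hvw, evw⟩, -, ⟨hai, ha, eai⟩⟩ := etaBw a b v hw30 hv0 O ψ h
  obtain ⟨_, hbO, hcur, htr⟩ := h.hab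
  obtain ⟨hvi, evi⟩ := h.hv
  set α : F := ψ ⟨a, ha⟩ with hα
  set β : F := ψ ⟨b, hbO⟩ with hβ
  have hf : ψ ⟨w, hwO⟩ ∈ Algebra.adjoin 𝕜 ({α, β} : Set F) := by
    obtain ⟨_, e⟩ := ebm_adj O ψ h.hc ({v⁻¹, a, b} : Set K) (Algebra.adjoin 𝕜 ({α, β} : Set F)) (by
      intro s hs
      simp only [Set.mem_insert_iff, Set.mem_singleton_iff] at hs
      rcases hs with rfl | rfl | rfl
      · exact ⟨hvi, by rw [evi]; exact Subalgebra.zero_mem _⟩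
      · exact ⟨ha, Algebra.subset_adjoin (by simp [hα])⟩
      · exact ⟨hbO, Algebra.subset_adjoin (by simp [hβ])⟩) w hwP
    exact e
  obtain ⟨M, hM⟩ := r2fin hK a b v hind hgen (y i) N (hy.1 i) hwP (hb i)
  have hba : b / a ∈ O := by rw [div_eq_mul_inv]; exact O.mul_mem hbO hai
  have eba : ψ ⟨b / a, hba⟩ = β / α := by
    have e3 : (⟨b / a, hba⟩ : O) = ⟨b, hbO⟩ * ⟨a⁻¹, hai⟩ := Subtype.ext (div_eq_mul_inv b a)
    rw [e3, map_mul, eai, div_eq_mul_inv]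
  obtain ⟨hEO, hE⟩ := ebm_adj O ψ h.hc ({a⁻¹, b / a, fw0 a b v / fw3 a b v} : Set K)
    (Algebra.adjoin 𝕜 ({α⁻¹, β / α} : Set F)) (by
      intro s hs
      simp only [Set.mem_insert_iff, Set.mem_singleton_iff] at hs
      rcases hs with rfl | rfl | rfl
      · exact ⟨hai, by rw [eai]; exact Algebra.subset_adjoin (by simp)⟩
      · exact ⟨hba, by rw [eba]; exact Algebra.subset_adjoin (by simp)⟩
      · exact ⟨hw03, by rw [ew03]; exact Subalgebra.zero_mem _⟩) _ hM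
  have e4 : (⟨_, hEO⟩ : O) = ⟨w, hwO⟩ * ⟨a, ha⟩ * ⟨v / fw3 a b v, hvw⟩ ^ N *
      (⟨a⁻¹, hai⟩ ^ 3 + 3 + ⟨a⁻¹, hai⟩ ^ 2 + ⟨b / a, hba⟩ ^ 3) ^ M := by
    apply Subtype.ext
    push_cast
    congr 1
    rw [hw, div_pow, inv_pow]
    field_simp
  rw [e4] at hE
  simp only [map_mul, map_pow, map_add, map_ofNat, evw, one_pow, mul_one, eai, eba] at hE
  exact curve α β hcur htr _ hf hf0 M hE

end Pool.Agent.H67NP.Q
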