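import Pool.Agent.helper67NP.Base
import Pool.Agent.helper67NP.Q_Defs

set_option autoImplicit false

namespace Pool.Agent.H67NP.Q

variable [BaseField]



theorem psiE2_aux {K : Type*} [Field K] (R : Subring K) {b w0 w1 w3 s e2 : K} (h0 : w0 ∈ R)
    (h1 : w1 ∈ R) (h3 : w3 ∈ R) (hs : fA3 w0 w1 w3 = s) (he : b * s + fA2 w0 w1 w3 = e2)
    (hbs : b * s ∈ R) (hbe : b * e2 ∈ R) :
    s ∈ R ∧ fDl w0 w1 * e2 - 4 * fm w0 w1 w3 * (b * e2 + fA1 w0 w1 w3) ∈ R := by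
  have n3 : (3 : K) ∈ R := ofNat_mem R 3
  have n4 : (4 : K) ∈ R := ofNat_mem R 4
  have n6 : (6 : K) ∈ R := ofNat_mem R 6
  have n9 : (9 : K) ∈ R := ofNat_mem R 9
  have n1 : (1 : K) ∈ R := R.one_mem
  have hm : fm w0 w1 w3 ∈ R := by
    unfold fm
    apply_rules [add_mem, sub_mem, mul_mem, pow_mem, neg_mem]
  have hk : fkap w0 w1 ∈ R := by
    unfold fkap
    apply_rules [add_mem, sub_mem, mul_mem, pow_mem, neg_mem]
  have hA1 : fA1 w0 w1 w3 ∈ R := by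
    unfold fA1
    exact mul_mem h1 hm
  have hA2 : fA2 w0 w1 w3 ∈ R := by
    unfold fA2
    apply_rules [add_mem, sub_mem, mul_mem, pow_mem, neg_mem]
  have hA3 : fA3 w0 w1 w3 ∈ R := by
    unfold fA3
    apply_rules [add_mem, sub_mem, mul_mem, pow_mem, neg_mem]
  have hD : fDl w0 w1 ∈ R := by
    unfold fDl
    apply_rules [add_mem, sub_mem, mul_mem, pow_mem, neg_mem]
  have he2 : e2 ∈ R := by rw [← he]; exact add_mem hbs hA2
  refine ⟨by rw [← hs]; exact hA3, ?_⟩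
  exact sub_mem (mul_mem hD he2) (mul_mem (mul_mem n4 hm) (add_mem hbe hA1))

theorem psiE2 {K : Type*} [Field K] [Algebra 𝕜 K] (a b v : K)
    (hind : AlgebraicIndependent 𝕜 ![a, b, v]) :
    fs a b v ∈ G2 a b v ∧ b * fs a b v ∈ G2 a b v ∧ ft a b v ∈ G2 a b v := by
  have hsub : ∀ x ∈ ({fw0 a b v, fw1 a b v, fw3 a b v, b * fs a b v, b * fe2 a b v,
    (fde a b v)⁻¹} : Set K), x ∈ G2 a b v := by
    intro x hx
    exact Algebra.subset_adjoin (Set.mem_union_left _ hx)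
  have h0 : fw0 a b v ∈ G2 a b v := hsub _ (by simp)
  have h1 : fw1 a b v ∈ G2 a b v := hsub _ (by simp)
  have h3 : fw3 a b v ∈ G2 a b v := hsub _ (by simp)
  have hbs : b * fs a b v ∈ G2 a b v := hsub _ (by simp)
  have hbe : b * fe2 a b v ∈ G2 a b v := hsub _ (by simp)
  have h := psiE2_aux (G2 a b v) h0 h1 h3 (rfl : _ = fs a b v) (rfl : _ = fe2 a b v) hbs hbe
  exact ⟨h.1, hbs, h.2⟩

end Pool.Agent.H67NP.Q
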