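import Pool.Agent.helper67NP.Base
import Pool.Agent.helper67NP.Q_Defs
import Pool.Agent.helper67NP.Q_P_idealC
import Pool.Agent.helper67NP.Q_P_nz
import Pool.Agent.helper67NP.Q_P_psiE2

set_option autoImplicit false

namespace Pool.Agent.H67NP.Q

variable [BaseField]



theorem decG2 {K : Type*} [Field K] [Algebra 𝕜 K] (a b v : K)
    (hind : AlgebraicIndependent 𝕜 ![a, b, v]) :
    ∀ z ∈ G2 a b v, ∃ (f : Polynomial 𝕜), ∃ g1 ∈ G2 a b v, ∃ g2 ∈ G2 a b v,
      z = Polynomial.aeval (ft a b v / fs a b v ^ 2) f + g1 * fs a b v + g2 * (b * fs a b v) := by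
  obtain ⟨ha, hb, hv, hfc, hw0, hw1, hw3, hs, ht, hde⟩ := nz a b v hind
  obtain ⟨psA, pbsA, ptA⟩ := psiE2 a b v hind
  have hC : ∀ c : 𝕜, algebraMap 𝕜 K c ∈ G2 a b v := fun c =>
    (Algebra.adjoin 𝕜 (({fw0 a b v, fw1 a b v, fw3 a b v, b * fs a b v, b * fe2 a b v,
      (fde a b v)⁻¹} : Set K) ∪ {ft a b v / fs a b v ^ 2})).algebraMap_mem c
  have hgen : ∀ x ∈ (({fw0 a b v, fw1 a b v, fw3 a b v, b * fs a b v, b * fe2 a b v,
      (fde a b v)⁻¹} : Set K) ∪ {ft a b v / fs a b v ^ 2}), x ∈ G2 a b v := fun x hx =>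
    Algebra.subset_adjoin hx
  have m0 : fw0 a b v ∈ G2 a b v := hgen _ (by simp)
  have m1 : fw1 a b v ∈ G2 a b v := hgen _ (by simp)
  have m3 : fw3 a b v ∈ G2 a b v := hgen _ (by simp)
  have md : (fde a b v)⁻¹ ∈ G2 a b v := hgen _ (by simp)
  have mr : ft a b v / fs a b v ^ 2 ∈ G2 a b v := hgen _ (by simp)
  let A : Subring K := G2 a b v
  let I : Submodule A K := Submodule.span A {fs a b v, b * fs a b v}
  have hI : ∀ (c x : K), c ∈ G2 a b v → x ∈ I → c * x ∈ I := fun c x hc hx =>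
    I.smul_mem (⟨c, hc⟩ : A) hx
  have i1 : fs a b v ∈ I := Submodule.subset_span (by simp)
  have i2 : b * fs a b v ∈ I := Submodule.subset_span (by simp)
  have i3 : ft a b v ∈ I := by
    have := hI (ft a b v / fs a b v ^ 2 * fs a b v) _ ((G2 a b v).mul_mem mr psA) i1
    have e : ft a b v / fs a b v ^ 2 * fs a b v * fs a b v = ft a b v := by field_simp
    rwa [e] at this
  have i4 : b * ft a b v ∈ I := by
    have := hI (ft a b v / fs a b v ^ 2 * fs a b v) _ ((G2 a b v).mul_mem mr psA) i2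
    have e : ft a b v / fs a b v ^ 2 * fs a b v * (b * fs a b v) = b * ft a b v := by field_simp
    rwa [e] at this
  have i5 : b ^ 2 * ft a b v ∈ I := by
    have := hI (ft a b v / fs a b v ^ 2 * (b * fs a b v)) _ ((G2 a b v).mul_mem mr pbsA) i2
    have e : ft a b v / fs a b v ^ 2 * (b * fs a b v) * (b * fs a b v) = b ^ 2 * ft a b v := by
      field_simp
    rwa [e] at this
  obtain ⟨j0, j1, j3, je⟩ := idealC a b v hde A m0 m1 m3 pbsA md hC I i1 i2 i3 i4 i5
  have key : ∀ z ∈ Algebra.adjoin 𝕜 (({fw0 a b v, fw1 a b v, fw3 a b v, b * fs a b v,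
      b * fe2 a b v, (fde a b v)⁻¹} : Set K) ∪ {ft a b v / fs a b v ^ 2}),
      ∃ f : Polynomial 𝕜, z - Polynomial.aeval (ft a b v / fs a b v ^ 2) f ∈ I := by
    intro z hz
    have hF : ∀ f : Polynomial 𝕜, Polynomial.aeval (ft a b v / fs a b v ^ 2) f ∈ G2 a b v := by
      intro f
      have h1 : Polynomial.aeval (ft a b v / fs a b v ^ 2) f ∈
          Algebra.adjoin 𝕜 (({fw0 a b v, fw1 a b v, fw3 a b v, b * fs a b v,
      b * fe2 a b v, (fde a b v)⁻¹} : Set K) ∪ {ft a b v / fs a b v ^ 2}) := by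
        have h2 : ft a b v / fs a b v ^ 2 ∈
          Algebra.adjoin 𝕜 (({fw0 a b v, fw1 a b v, fw3 a b v, b * fs a b v,
          b * fe2 a b v, (fde a b v)⁻¹} : Set K) ∪ {ft a b v / fs a b v ^ 2}) := mr
        exact (Algebra.adjoin_le (Set.singleton_subset_iff.2 h2)) (Polynomial.aeval_mem_adjoin_singleton 𝕜 _)
      exact h1
    induction hz using Algebra.adjoin_induction with
    | mem x hx =>
      simp only [Set.union_singleton, Set.mem_insert_iff, Set.mem_singleton_iff] at hx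
      rcases hx with rfl | rfl | rfl | rfl | rfl | rfl | rfl
      · exact ⟨Polynomial.X, by simp⟩
      · exact ⟨0, by simpa using j0⟩
      · exact ⟨0, by simpa using j1⟩
      · exact ⟨0, by simpa using j3⟩
      · exact ⟨0, by simpa using i2⟩
      · exact ⟨0, by simpa using je⟩
      · refine ⟨Polynomial.C (1 / 5), ?_⟩
        rw [Polynomial.aeval_C]
        have hnum : ∀ n : ℕ, (n : K) ∈ G2 a b v := fun n => natCast_mem _ n
        have n4 : (4 : K) ∈ G2 a b v := by exact_mod_cast hnum 4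
        have n9 : (9 : K) ∈ G2 a b v := by exact_mod_cast hnum 9
        have n20 : (20 : K) ∈ G2 a b v := by exact_mod_cast hnum 20
        have n8 : (8 : K) ∈ G2 a b v := by exact_mod_cast hnum 8
        have n3 : (3 : K) ∈ G2 a b v := by exact_mod_cast hnum 3
        have n24 : (24 : K) ∈ G2 a b v := by exact_mod_cast hnum 24
        have n45 : (45 : K) ∈ G2 a b v := by exact_mod_cast hnum 45
        have hkap : fkap (fw0 a b v) (fw1 a b v) ∈ G2 a b v := by
          unfold fkap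
          exact (G2 a b v).sub_mem ((G2 a b v).sub_mem (G2 a b v).one_mem
            ((G2 a b v).mul_mem n4 m0)) ((G2 a b v).mul_mem n9 ((G2 a b v).pow_mem m1 3))
        have hP : -20 + (-8 + 3 * fw0 a b v - 24 * fw0 a b v ^ 2) *
            fkap (fw0 a b v) (fw1 a b v) ∈ G2 a b v :=
          (G2 a b v).add_mem ((G2 a b v).neg_mem n20) ((G2 a b v).mul_mem
            ((G2 a b v).sub_mem ((G2 a b v).add_mem ((G2 a b v).neg_mem n8)
              ((G2 a b v).mul_mem n3 m0)) ((G2 a b v).mul_mem n24 ((G2 a b v).pow_mem m0 2))) hkap)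
        have hQ : -(45 * fw1 a b v ^ 2) + (-(3 * fw1 a b v ^ 2) - 9 * fw0 a b v ^ 2 *
            fw1 a b v ^ 2) * fkap (fw0 a b v) (fw1 a b v) ∈ G2 a b v :=
          (G2 a b v).add_mem ((G2 a b v).neg_mem ((G2 a b v).mul_mem n45
            ((G2 a b v).pow_mem m1 2))) ((G2 a b v).mul_mem
            ((G2 a b v).sub_mem ((G2 a b v).neg_mem ((G2 a b v).mul_mem n3
              ((G2 a b v).pow_mem m1 2))) ((G2 a b v).mul_mem ((G2 a b v).mul_mem n9
              ((G2 a b v).pow_mem m0 2)) ((G2 a b v).pow_mem m1 2))) hkap)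
        have hd5 : fde a b v - 5 ∈ I := by
          have e : fde a b v - 5 = (-20 + (-8 + 3 * fw0 a b v - 24 * fw0 a b v ^ 2) *
            fkap (fw0 a b v) (fw1 a b v)) * fw0 a b v +
            (-(45 * fw1 a b v ^ 2) + (-(3 * fw1 a b v ^ 2) - 9 * fw0 a b v ^ 2 *
            fw1 a b v ^ 2) * fkap (fw0 a b v) (fw1 a b v)) * fw1 a b v := by
            unfold fde fDl fkap
            generalize fw0 a b v = x
            generalize fw1 a b v = y
            ring
          rw [e]
          exact I.add_mem (hI _ _ hP j0) (hI _ _ hQ j1)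
        have h15 : algebraMap 𝕜 K (1 / 5) ∈ G2 a b v := hC _
        have h15' : algebraMap 𝕜 K (1 / 5) * 5 = 1 := by
          have : (5 : K) = algebraMap 𝕜 K 5 := (map_ofNat (algebraMap 𝕜 K) 5).symm
          rw [this, ← map_mul, one_div, inv_mul_cancel₀ nz5, map_one]
        have e : (fde a b v)⁻¹ - algebraMap 𝕜 K (1 / 5) =
            (-(algebraMap 𝕜 K (1 / 5) * (fde a b v)⁻¹)) * (fde a b v - 5) := by
          have h5 : (fde a b v)⁻¹ * fde a b v = 1 := inv_mul_cancel₀ hde
          linear_combination (-(fde a b v)⁻¹) * h15' + (algebraMap 𝕜 K (1 / 5)) * h5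
        rw [e]
        exact hI _ _ ((G2 a b v).neg_mem ((G2 a b v).mul_mem h15 md)) hd5
    | algebraMap c => exact ⟨Polynomial.C c, by simp⟩
    | add x y hx hy ihx ihy =>
      obtain ⟨f, hf⟩ := ihx
      obtain ⟨g, hg⟩ := ihy
      refine ⟨f + g, ?_⟩
      have := I.add_mem hf hg
      rw [map_add]
      convert this using 1
      ring
    | mul x y hx hy ihx ihy =>
      obtain ⟨f, hf⟩ := ihx
      obtain ⟨g, hg⟩ := ihy
      refine ⟨f * g, ?_⟩
      have h1 := hI y _ hy hf
      have h2 := hI _ _ (hF f) hg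
      have := I.add_mem h1 h2
      rw [map_mul]
      convert this using 1
      ring
  intro z hz
  obtain ⟨f, hf⟩ := key z hz
  obtain ⟨c, d, hcd⟩ := Submodule.mem_span_pair.1 hf
  refine ⟨f, c, c.2, d, d.2, ?_⟩
  have e1 : c • fs a b v = (c : K) * fs a b v := rfl
  have e2 : d • (b * fs a b v) = (d : K) * (b * fs a b v) := rfl
  rw [e1, e2] at hcd
  linear_combination -hcd

end Pool.Agent.H67NP.Q
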