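import Pool.Agent.helper67NP.Base
import Pool.Agent.helper67NP.Q_Defs

set_option autoImplicit false

namespace Pool.Agent.H67NP.Q

variable [BaseField]



theorem noethloc_unit {K : Type*} [Field K] (O : Subring K) (x : O) (hx : (x : K) ≠ 0)
    (h : (x : K)⁻¹ ∈ O) : IsUnit x := by
  refine IsUnit.of_mul_eq_one (⟨(x : K)⁻¹, h⟩ : O) ?_
  apply Subtype.ext
  simp [hx]

theorem noethloc {K : Type*} [Field K] (A O : Subring K) [IsNoetherianRing A] (h : IsLocAt A O) :
    IsNoetherianRing O ∧ IsLocalRing O := by
  obtain ⟨hAO, hloc, hfr⟩ := h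
  constructor
  · rw [isNoetherianRing_iff_ideal_fg]
    intro J
    set ι : A →+* O := Subring.inclusion hAO with hι
    have hfg : (J.comap ι).FG := (isNoetherianRing_iff_ideal_fg A).mp inferInstance _
    have hJ : J = (J.comap ι).map ι := by
      refine le_antisymm ?_ Ideal.map_comap_le
      intro z hz
      obtain ⟨x, hx, s, hs, hs0, hsi, hzs⟩ := hfr z z.2
      have h1 : ι ⟨x, hx⟩ = z * ⟨s, hAO hs⟩ := by
        apply Subtype.ext
        exact hzs.symm
      have h2 : (⟨x, hx⟩ : A) ∈ J.comap ι := by
        rw [Ideal.mem_comap, h1]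
        exact J.mul_mem_right _ hz
      have h3 : z = (⟨s⁻¹, hsi⟩ : O) * ι ⟨x, hx⟩ := by
        rw [h1]
        apply Subtype.ext
        change (z : K) = s⁻¹ * ((z : K) * s)
        field_simp
      rw [h3]
      exact Ideal.mul_mem_left _ _ (Ideal.mem_map_of_mem ι h2)
    rw [hJ]
    exact hfg.map ι
  · refine IsLocalRing.of_isUnit_or_isUnit_one_sub_self fun x => ?_
    rcases hloc x x.2 with h | h
    · by_cases hx : (x : K) = 0
      · right
        have : x = 0 := Subtype.ext hx
        rw [this, sub_zero]
        exact isUnit_one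
      · exact Or.inl (noethloc_unit O x hx h)
    · by_cases hx : (1 : K) - x = 0
      · left
        have : x = 1 := by
          apply Subtype.ext
          exact (sub_eq_zero.mp hx).symm
        rw [this]
        exact isUnit_one
      · exact Or.inr (noethloc_unit O (1 - x) hx h)

end Pool.Agent.H67NP.Q
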