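import Pool.Agent.helper67NP.Base
import Pool.Agent.helper67NP.Q_Defs

set_option autoImplicit false

namespace Pool.Agent.H67NP.Q

variable [BaseField]



theorem psiP {K : Type*} [Field K] [Algebra 𝕜 K] (a b v : K) (D : Subring K)
    (Ψ : D →+* PowerSeries (RatFunc 𝕜)) (h : PsiD a b v D Ψ) :
    PR a b v ≤ D ∧ ∀ f (hf : f ∈ D), f ∈ PR a b v →
      ∃ c : 𝕜, PowerSeries.constantCoeff (Ψ ⟨f, hf⟩) = RatFunc.C c := by
  have key : ∀ f ∈ Algebra.adjoin 𝕜 ({a, b, v} : Set K), ∃ hf : f ∈ D,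
      ∃ c : 𝕜, PowerSeries.constantCoeff (Ψ ⟨f, hf⟩) = RatFunc.C c := by
    intro f hf
    induction hf using Algebra.adjoin_induction with
    | mem x hx =>
      simp only [Set.mem_insert_iff, Set.mem_singleton_iff] at hx
      rcases hx with rfl | rfl | rfl
      · obtain ⟨h1, h2⟩ := h.ha
        refine ⟨h1, 0, ?_⟩
        rw [h2]
        simp
      · obtain ⟨h1, h2⟩ := h.hb
        refine ⟨h1, 0, ?_⟩
        rw [h2]
        simp
      · obtain ⟨h1, h2⟩ := h.hv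
        refine ⟨h1, 0, ?_⟩
        rw [h2]
        simp
    | algebraMap r =>
      obtain ⟨h1, h2⟩ := h.hc r
      refine ⟨h1, r, ?_⟩
      rw [h2]
      simp
    | add x y hx hy ihx ihy =>
      obtain ⟨h1, c1, e1⟩ := ihx
      obtain ⟨h2, c2, e2⟩ := ihy
      refine ⟨D.add_mem h1 h2, c1 + c2, ?_⟩
      have : (⟨x + y, D.add_mem h1 h2⟩ : D) = ⟨x, h1⟩ + ⟨y, h2⟩ := rfl
      rw [this, map_add, map_add, e1, e2, map_add]
    | mul x y hx hy ihx ihy =>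
      obtain ⟨h1, c1, e1⟩ := ihx
      obtain ⟨h2, c2, e2⟩ := ihy
      refine ⟨D.mul_mem h1 h2, c1 * c2, ?_⟩
      have : (⟨x * y, D.mul_mem h1 h2⟩ : D) = ⟨x, h1⟩ * ⟨y, h2⟩ := rfl
      rw [this, map_mul, map_mul, e1, e2, map_mul]
  refine ⟨fun f hf => (key f hf).1, fun f hf hfP => ?_⟩
  obtain ⟨_, c, hc⟩ := key f hfP
  exact ⟨c, hc⟩

end Pool.Agent.H67NP.Q
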