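import Pool.Agent.helper67NP.Base
import Pool.Agent.helper67NP.Q_Defs

set_option autoImplicit false

namespace Pool.Agent.H67NP.Q

variable [BaseField]


theorem reg_aux {O : Type*} [CommRing O] [IsDomain O] [IsNoetherianRing O] [IsLocalRing O] (p q : O)
    (hm : IsLocalRing.maximalIdeal O = Ideal.span {p, q})
    (hpq : ∀ N : ℕ, p ^ N ∉ Ideal.span {q}) (x : O) (hx : p * x ∈ Ideal.span {q}) :
    x ∈ Ideal.span {q} := by
  classical
  set I : Ideal O := Ideal.span {q} with hI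
  have hqm : q ∈ IsLocalRing.maximalIdeal O := by
    rw [hm]; exact Ideal.subset_span (by simp)
  have hpm : p ∈ IsLocalRing.maximalIdeal O := by
    rw [hm]; exact Ideal.subset_span (by simp)
  have hIle : I ≤ IsLocalRing.maximalIdeal O := by
    rw [hI, Ideal.span_le]; simpa using hqm
  have hIne : I ≠ ⊤ := fun h => by
    rw [h] at hIle
    exact (IsLocalRing.maximalIdeal.isMaximal O).ne_top (top_le_iff.1 hIle)
  haveI : Nontrivial (O ⧸ I) := Ideal.Quotient.nontrivial_iff.2 hIne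
  haveI : IsLocalRing (O ⧸ I) := IsLocalRing.of_surjective' (Ideal.Quotient.mk I)
    Ideal.Quotient.mk_surjective
  by_contra hxI
  set J : Ideal (O ⧸ I) := Ideal.span {Ideal.Quotient.mk I p} with hJ
  have hJne : J ≠ ⊤ := by
    intro h
    have h1 : IsUnit (Ideal.Quotient.mk I p) := Ideal.span_singleton_eq_top.1 h
    obtain ⟨w, hw⟩ := h1.exists_right_inv
    obtain ⟨w', rfl⟩ := Ideal.Quotient.mk_surjective w
    rw [← map_mul, ← map_one (Ideal.Quotient.mk I), Ideal.Quotient.eq] at hw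
    have h2 : p * w' - 1 ∈ IsLocalRing.maximalIdeal O := hIle hw
    have h3 : (1 : O) ∈ IsLocalRing.maximalIdeal O := by
      have := Ideal.sub_mem _ (Ideal.mul_mem_right w' _ hpm) h2
      simpa using this
    exact (Ideal.ne_top_iff_one _).1 (IsLocalRing.maximalIdeal.isMaximal O).ne_top h3
  have hinf : ⨅ i : ℕ, J ^ i = ⊥ := Ideal.iInf_pow_eq_bot_of_isLocalRing J hJne
  have hx0 : Ideal.Quotient.mk I x ≠ 0 := by
    rwa [Ne, Ideal.Quotient.eq_zero_iff_mem]
  have hex : ∃ k : ℕ, Ideal.Quotient.mk I x ∉ J ^ k := by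
    by_contra h
    push Not at h
    have h1 : Ideal.Quotient.mk I x ∈ ⨅ i : ℕ, J ^ i := by
      rw [Submodule.mem_iInf]; exact h
    rw [hinf] at h1
    exact hx0 h1
  have hk := Nat.find_spec hex
  obtain ⟨k, hk'⟩ : ∃ k, Nat.find hex = k + 1 := by
    refine Nat.exists_eq_succ_of_ne_zero ?_
    intro h0
    rw [h0] at hk
    simp at hk
  have hkm : Ideal.Quotient.mk I x ∈ J ^ k := by
    by_contra h
    have := Nat.find_min' hex h
    omega
  rw [hk'] at hk
  rw [hJ, Ideal.span_singleton_pow, Ideal.mem_span_singleton] at hkm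
  obtain ⟨u, hu⟩ := hkm
  have huJ : ¬ (Ideal.Quotient.mk I p ∣ u) := by
    rintro ⟨w, hw⟩
    apply hk
    rw [hJ, Ideal.span_singleton_pow, Ideal.mem_span_singleton]
    exact ⟨w, by rw [hu, hw, pow_succ]; ring⟩
  have huU : IsUnit u := by
    obtain ⟨u', rfl⟩ := Ideal.Quotient.mk_surjective u
    by_cases hu' : IsUnit u'
    · exact hu'.map _
    · exfalso
      have h1 : u' ∈ IsLocalRing.maximalIdeal O := hu'
      rw [hm, Ideal.mem_span_pair] at h1
      obtain ⟨a, b, hab⟩ := h1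
      apply huJ
      refine ⟨Ideal.Quotient.mk I a, ?_⟩
      have hq0 : Ideal.Quotient.mk I q = 0 :=
        Ideal.Quotient.eq_zero_iff_mem.2 (Ideal.subset_span (by simp))
      rw [← hab, map_add, map_mul, map_mul, hq0]
      ring
  have hpx : Ideal.Quotient.mk I p * Ideal.Quotient.mk I x = 0 := by
    rw [← map_mul, Ideal.Quotient.eq_zero_iff_mem]; exact hx
  rw [hu] at hpx
  have h5 : Ideal.Quotient.mk I p ^ (k + 1) * u = 0 := by
    rw [pow_succ]
    calc Ideal.Quotient.mk I p ^ k * Ideal.Quotient.mk I p * u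
        = Ideal.Quotient.mk I p * (Ideal.Quotient.mk I p ^ k * u) := by ring
      _ = 0 := hpx
  have h6 : Ideal.Quotient.mk I p ^ (k + 1) = 0 := (huU.mul_left_eq_zero).1 h5
  rw [← map_pow, Ideal.Quotient.eq_zero_iff_mem] at h6
  exact hpq _ h6

theorem reg_aux2 {O : Type*} [CommRing O] [IsDomain O] [IsNoetherianRing O] [IsLocalRing O] (p q : O)
    (hm : IsLocalRing.maximalIdeal O = Ideal.span {p, q})
    (hpq : ∀ N : ℕ, p ^ N ∉ Ideal.span {q}) (n : ℕ) : ∀ x : O, x * p ^ n ∈ Ideal.span {q} →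
    x ∈ Ideal.span {q} := by
  induction n with
  | zero => intro x hx; simpa using hx
  | succ n ih =>
    intro x hx
    apply ih
    apply reg_aux p q hm hpq
    have : p * (x * p ^ n) = x * p ^ (n + 1) := by ring
    rw [this]; exact hx

theorem reg_aux3 {O : Type*} [CommRing O] [IsDomain O] [IsNoetherianRing O] [IsLocalRing O] (p q : O)
    (hq : q ≠ 0) (hm : IsLocalRing.maximalIdeal O = Ideal.span {p, q})
    (hpq : ∀ N : ℕ, p ^ N ∉ Ideal.span {q}) (n m : ℕ) : ∀ f g : O, f * q ^ m = g * p ^ n →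
    ∃ h : O, g = h * q ^ m := by
  induction m with
  | zero => intro f g _; exact ⟨g, by simp⟩
  | succ m ih =>
    intro f g hfg
    have h1 : g ∈ Ideal.span {q} := by
      apply reg_aux2 p q hm hpq n
      rw [← hfg, Ideal.mem_span_singleton]
      exact ⟨f * q ^ m, by ring⟩
    obtain ⟨g', hg'⟩ := Ideal.mem_span_singleton.1 h1
    have h2 : f * q ^ m = g' * p ^ n := by
      have h3 : q * (f * q ^ m) = q * (g' * p ^ n) := by
        calc q * (f * q ^ m) = f * q ^ (m + 1) := by ring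
          _ = g * p ^ n := hfg
          _ = q * (g' * p ^ n) := by rw [hg']; ring
      exact mul_left_cancel₀ hq h3
    obtain ⟨h, hh⟩ := ih f g' h2
    exact ⟨h, by rw [hg', hh]; ring⟩

theorem reg {K : Type*} [Field K] (O : Subring K) [IsNoetherianRing O] [IsLocalRing O] (p q : O)
    (hq : q ≠ 0) (hm : IsLocalRing.maximalIdeal O = Ideal.span {p, q})
    (hpq : ∀ N : ℕ, p ^ N ∉ Ideal.span {q}) (z : K) (n m : ℕ) (h1 : z * (p : K) ^ n ∈ O)
    (h2 : z * (q : K) ^ m ∈ O) : z ∈ O := by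
  obtain ⟨f, hf⟩ : ∃ f : O, (f : K) = z * (p : K) ^ n := ⟨⟨_, h1⟩, rfl⟩
  obtain ⟨g, hg⟩ : ∃ g : O, (g : K) = z * (q : K) ^ m := ⟨⟨_, h2⟩, rfl⟩
  have hfg : f * q ^ m = g * p ^ n := by
    apply Subtype.ext
    push_cast
    rw [hf, hg]; ring
  obtain ⟨h, hh⟩ := reg_aux3 p q hq hm hpq n m f g hfg
  have hqK : (q : K) ≠ 0 := fun h0 => hq (Subtype.ext h0)
  have h3 : z * (q : K) ^ m = (h : K) * (q : K) ^ m := by
    rw [← hg, hh]; push_cast; ring
  have h4 : z = h := mul_right_cancel₀ (pow_ne_zero m hqK) h3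
  rw [h4]; exact h.2

end Pool.Agent.H67NP.Q
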