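import Pool.Agent.helper67NP.Base
import Pool.Agent.helper67NP.Q_Defs
import Pool.Agent.helper67NP.Q_P_nz
import Pool.Agent.helper67NP.Q_P_psiE2
import Pool.Agent.helper67NP.Q_P_P1facts

set_option autoImplicit false

namespace Pool.Agent.H67NP.Q

variable [BaseField]



lemma as_frac {K : Type*} [Field K] [Algebra 𝕜 K] (a b v : K)
    (hind : AlgebraicIndependent 𝕜 ![a, b, v]) :
    ∀ g ∈ G2 a b v, ∃ k l : ℕ, g * fde a b v ^ k * fs a b v ^ l ∈ PR a b v := by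
  obtain ⟨-, hb, -, -, -, -, -, hs0, -, hde0⟩ := nz a b v hind
  obtain ⟨-, -, -, -, -, -, -, ms, me2, mt, mde, mw0, mw1, mw3⟩ := P1facts a b v hb
  have mb : b ∈ PR a b v := Algebra.subset_adjoin (by simp)
  have mc : ∀ c : 𝕜, algebraMap 𝕜 K c ∈ PR a b v := fun c => Subalgebra.algebraMap_mem _ c
  intro g hg
  have hg' : g ∈ Algebra.adjoin 𝕜 (({fw0 a b v, fw1 a b v, fw3 a b v, b * fs a b v, b * fe2 a b v,
    (fde a b v)⁻¹} : Set K) ∪ {ft a b v / fs a b v ^ 2}) := hg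
  induction hg' using Algebra.adjoin_induction with
  | mem x hx =>
    rcases hx with hx | hx
    · simp only [Set.mem_insert_iff, Set.mem_singleton_iff] at hx
      rcases hx with rfl | rfl | rfl | rfl | rfl | rfl
      · exact ⟨0, 0, by simpa using mw0⟩
      · exact ⟨0, 0, by simpa using mw1⟩
      · exact ⟨0, 0, by simpa using mw3⟩
      · exact ⟨0, 0, by simpa using (PR a b v).mul_mem mb ms⟩
      · exact ⟨0, 0, by simpa using (PR a b v).mul_mem mb me2⟩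
      · refine ⟨1, 0, ?_⟩
        rw [pow_one, pow_zero, mul_one, inv_mul_cancel₀ hde0]
        exact (PR a b v).one_mem
    · rw [Set.mem_singleton_iff] at hx
      rw [hx]
      refine ⟨0, 2, ?_⟩
      have e : ft a b v / fs a b v ^ 2 * fde a b v ^ 0 * fs a b v ^ 2 = ft a b v := by
        field_simp
      rw [e]
      exact mt
  | algebraMap c => exact ⟨0, 0, by simpa using mc c⟩
  | add x y hx hy ihx ihy =>
    obtain ⟨k, l, h1⟩ := ihx hx
    obtain ⟨k', l', h2⟩ := ihy hy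
    refine ⟨k + k', l + l', ?_⟩
    have e : (x + y) * fde a b v ^ (k + k') * fs a b v ^ (l + l') =
        (x * fde a b v ^ k * fs a b v ^ l) * (fde a b v ^ k' * fs a b v ^ l') +
        (y * fde a b v ^ k' * fs a b v ^ l') * (fde a b v ^ k * fs a b v ^ l) := by ring
    rw [e]
    exact (PR a b v).add_mem
      ((PR a b v).mul_mem h1 ((PR a b v).mul_mem ((PR a b v).pow_mem mde _) ((PR a b v).pow_mem ms _)))
      ((PR a b v).mul_mem h2 ((PR a b v).mul_mem ((PR a b v).pow_mem mde _) ((PR a b v).pow_mem ms _)))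
  | mul x y hx hy ihx ihy =>
    obtain ⟨k, l, h1⟩ := ihx hx
    obtain ⟨k', l', h2⟩ := ihy hy
    refine ⟨k + k', l + l', ?_⟩
    have e : (x * y) * fde a b v ^ (k + k') * fs a b v ^ (l + l') =
        (x * fde a b v ^ k * fs a b v ^ l) * (y * fde a b v ^ k' * fs a b v ^ l') := by ring
    rw [e]
    exact (PR a b v).mul_mem h1 h2

theorem awayS {K : Type*} [Field K] [Algebra 𝕜 K] (a b v : K)
    (hind : AlgebraicIndependent 𝕜 ![a, b, v]) (O : Subring K) (hO : IsLocAt (G2 a b v) O)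
    (hs : fs a b v ∈ O) : PR a b v ≤ away O ⟨_, hs⟩ ∧
      ∀ z ∈ away O ⟨_, hs⟩, ∃ x ∈ PR a b v, ∃ s ∈ PR a b v, s ≠ 0 ∧ s⁻¹ ∈ away O ⟨_, hs⟩ ∧ z * s = x := by
  obtain ⟨-, hb, -, -, -, -, -, hs0, -, hde0⟩ := nz a b v hind
  obtain ⟨-, -, -, -, -, -, -, ms, me2, mt, mde, mw0, mw1, mw3⟩ := P1facts a b v hb
  obtain ⟨-, hbs, -⟩ := psiE2 a b v hind
  obtain ⟨hGO, -, hfr⟩ := hO
  have hOa : ∀ x ∈ O, x ∈ away O ⟨_, hs⟩ := fun x hx => ⟨0, by simpa using hx⟩
  have g0 : fw0 a b v ∈ G2 a b v := Algebra.subset_adjoin (Or.inl (by simp))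
  have g1 : fw1 a b v ∈ G2 a b v := Algebra.subset_adjoin (Or.inl (by simp))
  have g3 : fw3 a b v ∈ G2 a b v := Algebra.subset_adjoin (Or.inl (by simp))
  have gd : (fde a b v)⁻¹ ∈ G2 a b v := Algebra.subset_adjoin (Or.inl (by simp))
  have mb : b ∈ away O ⟨_, hs⟩ := ⟨1, by simpa using hGO hbs⟩
  have m0 := hOa _ (hGO g0)
  have m1 := hOa _ (hGO g1)
  have m3 := hOa _ (hGO g3)
  have ma : a ∈ away O ⟨_, hs⟩ := by
    have e : -fw0 a b v - b * fw1 a b v = a := by unfold fw0; ring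
    have hm := (away O ⟨_, hs⟩).sub_mem ((away O ⟨_, hs⟩).neg_mem m0) ((away O ⟨_, hs⟩).mul_mem mb m1)
    rw [e] at hm
    exact hm
  have mv : v ∈ away O ⟨_, hs⟩ := by
    have e : fw3 a b v + a * fw1 a b v = v := by unfold fw3; ring
    have hm := (away O ⟨_, hs⟩).add_mem m3 ((away O ⟨_, hs⟩).mul_mem ma m1)
    rw [e] at hm
    exact hm
  refine ⟨?_, ?_⟩
  · intro z hz
    have hz' : z ∈ Algebra.adjoin 𝕜 ({a, b, v} : Set K) := hz
    induction hz' using Algebra.adjoin_induction with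
    | mem x hx =>
      simp only [Set.mem_insert_iff, Set.mem_singleton_iff] at hx
      rcases hx with rfl | rfl | rfl
      · exact ma
      · exact mb
      · exact mv
    | algebraMap c => exact hOa _ (hGO (Subalgebra.algebraMap_mem _ c))
    | add x y hx hy ihx ihy => exact (away O ⟨_, hs⟩).add_mem (ihx hx) (ihy hy)
    | mul x y hx hy ihx ihy => exact (away O ⟨_, hs⟩).mul_mem (ihx hx) (ihy hy)
  · rintro z ⟨n, hn⟩
    obtain ⟨x, hx, y, hy, hy0, hyi, hxy⟩ := hfr _ hn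
    obtain ⟨k, l, h1⟩ := as_frac a b v hind x hx
    obtain ⟨k', l', h2⟩ := as_frac a b v hind y hy
    have hsi : (fs a b v)⁻¹ ∈ away O ⟨_, hs⟩ := ⟨1, by
      rw [pow_one]
      show (fs a b v)⁻¹ * fs a b v ∈ O
      rw [inv_mul_cancel₀ hs0]; exact O.one_mem⟩
    have hdi : (fde a b v)⁻¹ ∈ away O ⟨_, hs⟩ := hOa _ (hGO gd)
    have hpw : fde a b v ^ k * fs a b v ^ l ∈ PR a b v :=
      (PR a b v).mul_mem ((PR a b v).pow_mem mde _) ((PR a b v).pow_mem ms _)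
    have hpw' : fde a b v ^ k' * fs a b v ^ l' ∈ PR a b v :=
      (PR a b v).mul_mem ((PR a b v).pow_mem mde _) ((PR a b v).pow_mem ms _)
    refine ⟨(x * fde a b v ^ k * fs a b v ^ l) * (fde a b v ^ k' * fs a b v ^ l'),
      (PR a b v).mul_mem h1 hpw',
      fs a b v ^ n * ((y * fde a b v ^ k' * fs a b v ^ l') * (fde a b v ^ k * fs a b v ^ l)), ?_, ?_, ?_, ?_⟩
    · exact (PR a b v).mul_mem ((PR a b v).pow_mem ms _) ((PR a b v).mul_mem h2 hpw)
    · have h3 := pow_ne_zero n hs0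
      have h4 := pow_ne_zero k hde0
      have h5 := pow_ne_zero k' hde0
      have h6 := pow_ne_zero l hs0
      have h7 := pow_ne_zero l' hs0
      exact mul_ne_zero h3 (mul_ne_zero (mul_ne_zero (mul_ne_zero hy0 h5) h7) (mul_ne_zero h4 h6))
    · simp only [mul_inv, ← inv_pow]
      have p1 : ∀ j : ℕ, (fs a b v)⁻¹ ^ j ∈ away O ⟨_, hs⟩ := fun j => (away O ⟨_, hs⟩).pow_mem hsi j
      have p2 : ∀ j : ℕ, (fde a b v)⁻¹ ^ j ∈ away O ⟨_, hs⟩ := fun j => (away O ⟨_, hs⟩).pow_mem hdi j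
      exact (away O ⟨_, hs⟩).mul_mem (p1 _) ((away O ⟨_, hs⟩).mul_mem ((away O ⟨_, hs⟩).mul_mem
        ((away O ⟨_, hs⟩).mul_mem (hOa _ hyi) (p2 _)) (p1 _)) ((away O ⟨_, hs⟩).mul_mem (p2 _) (p1 _)))
    · have e : z * fs a b v ^ n * y = x := hxy
      rw [← e]
      ring

end Pool.Agent.H67NP.Q
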