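import Pool.Agent.helper67NP.Base
import Pool.Agent.helper67NP.Q_Defs

set_option autoImplicit false

namespace Pool.Agent.H67NP.Q

variable [BaseField]



theorem four_mem {K : Type*} [Field K] [Algebra 𝕜 K] (S : Subalgebra 𝕜 K) {x : K} (hx : x ∈ S) :
    x / 4 ∈ S := by
  have h : x / 4 = ((1 / 4 : 𝕜)) • x := by
    rw [Algebra.smul_def, map_div₀, map_one, map_ofNat]; ring
  rw [h]
  exact S.smul_mem hx _

theorem num_mem {K : Type*} [Field K] [Algebra 𝕜 K] (S : Subalgebra 𝕜 K) (n : ℕ) [n.AtLeastTwo] :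
    (OfNat.ofNat n : K) ∈ S := by
  exact ofNat_mem S n

theorem P1eq {K : Type*} [Field K] [Algebra 𝕜 K] (a b v : K) (hb : b ≠ 0) :
    P1 a b v = PR b⁻¹ (a / b) (fu a b v) := by
  have h4 : (4 : K) ≠ 0 := by
    have : (algebraMap 𝕜 K 4) ≠ 0 := (map_ne_zero (algebraMap 𝕜 K)).2 nz4
    rwa [map_ofNat] at this
  -- identities
  obtain ⟨X0, hX0⟩ : ∃ X0 : K, X0 = b⁻¹ := ⟨_, rfl⟩
  obtain ⟨X2, hX2⟩ : ∃ X2 : K, X2 = a / b := ⟨_, rfl⟩
  obtain ⟨w0, hw0⟩ : ∃ w0 : K, w0 = fw0 a b v := ⟨_, rfl⟩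
  obtain ⟨w1, hw1⟩ : ∃ w1 : K, w1 = fw1 a b v := ⟨_, rfl⟩
  obtain ⟨w3, hw3⟩ : ∃ w3 : K, w3 = fw3 a b v := ⟨_, rfl⟩
  obtain ⟨u, hu⟩ : ∃ u : K, u = fu a b v := ⟨_, rfl⟩
  have key : (3 * X0 * X2 ^ 2 - 4 + X0 ^ 3) * (w3 - X2 * w0)
      = (X0 ^ 3 + 3 * X2 ^ 3 + X0 ^ 2 * X2 + 1) * X2 + X0 ^ 4 * w0 := by
    rw [hX0, hX2, hw0, hw3]
    simp only [fw0, fw3, fw1, fq0, fc]
    field_simp
    ring
  have e1 : w1 = -X0 * w0 - X2 := by
    rw [hX0, hX2, hw0, hw1]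
    simp only [fw0]
    field_simp
    ring
  obtain ⟨y, hy⟩ : ∃ y : K, y = (3 * X2 ^ 2 + X0 ^ 2) / 4 := ⟨_, rfl⟩
  obtain ⟨p, hp⟩ : ∃ p : K, p = -(1 + X0 * y + X0 ^ 2 * y ^ 2 + X0 ^ 3 * y ^ 3) / 4 := ⟨_, rfl⟩
  have hc : 3 * X0 * X2 ^ 2 - 4 + X0 ^ 3 = 4 * X0 * y - 4 := by
    rw [hy]; field_simp; ring
  have hpc : p * (3 * X0 * X2 ^ 2 - 4 + X0 ^ 3) + X0 ^ 4 * y ^ 4 = 1 := by
    rw [hc, hp]; field_simp; ring
  have hu' : u = y ^ 4 * (w3 - X2 * w0) + p * w0 := by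
    rw [hu, hp, hy, hX0, hX2, hw0, hw3]
    simp only [fu, one_div]
  have i0 : w0 = -y ^ 4 * (X0 ^ 3 + 3 * X2 ^ 3 + X0 ^ 2 * X2 + 1) * X2
      + (3 * X0 * X2 ^ 2 - 4 + X0 ^ 3) * u := by
    rw [hu']
    linear_combination (-(y ^ 4)) * key - w0 * hpc
  have i3 : w3 = X2 * w0 + p * (X0 ^ 3 + 3 * X2 ^ 3 + X0 ^ 2 * X2 + 1) * X2 + X0 ^ 4 * u := by
    rw [hu']
    linear_combination p * key - (w3 - X2 * w0) * hpc
  unfold P1 PR
  rw [← hX0, ← hX2, ← hw0, ← hw1, ← hw3, ← hu]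
  have goal : Algebra.adjoin 𝕜 ({X0, X2, w0, w1, w3} : Set K) = Algebra.adjoin 𝕜 ({X0, X2, u} : Set K) := by
    apply le_antisymm
    · apply Algebra.adjoin_le
      set S := Algebra.adjoin 𝕜 ({X0, X2, u} : Set K) with hS
      have m0 : X0 ∈ S := Algebra.subset_adjoin (by simp)
      have m2 : X2 ∈ S := Algebra.subset_adjoin (by simp)
      have mu : u ∈ S := Algebra.subset_adjoin (by simp)
      have n3 : (3 : K) ∈ S := num_mem S 3
      have n4 : (4 : K) ∈ S := num_mem S 4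
      have my : y ∈ S := by
        rw [hy]
        exact four_mem S (S.add_mem (S.mul_mem n3 (S.pow_mem m2 2)) (S.pow_mem m0 2))
      have mp : p ∈ S := by
        rw [hp]
        refine four_mem S (S.neg_mem ?_)
        exact S.add_mem (S.add_mem (S.add_mem S.one_mem (S.mul_mem m0 my))
          (S.mul_mem (S.pow_mem m0 2) (S.pow_mem my 2))) (S.mul_mem (S.pow_mem m0 3) (S.pow_mem my 3))
      have mq : X0 ^ 3 + 3 * X2 ^ 3 + X0 ^ 2 * X2 + 1 ∈ S :=
        S.add_mem (S.add_mem (S.add_mem (S.pow_mem m0 3) (S.mul_mem n3 (S.pow_mem m2 3)))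
          (S.mul_mem (S.pow_mem m0 2) m2)) S.one_mem
      have mc : 3 * X0 * X2 ^ 2 - 4 + X0 ^ 3 ∈ S :=
        S.add_mem (S.sub_mem (S.mul_mem (S.mul_mem n3 m0) (S.pow_mem m2 2)) n4) (S.pow_mem m0 3)
      have k0 : w0 ∈ S := by
        rw [i0]
        exact S.add_mem (S.mul_mem (S.mul_mem (S.neg_mem (S.pow_mem my 4)) mq) m2) (S.mul_mem mc mu)
      have k1 : w1 ∈ S := by
        rw [e1]
        exact S.sub_mem (S.mul_mem (S.neg_mem m0) k0) m2
      have k3 : w3 ∈ S := by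
        rw [i3]
        exact S.add_mem (S.add_mem (S.mul_mem m2 k0) (S.mul_mem (S.mul_mem mp mq) m2))
          (S.mul_mem (S.pow_mem m0 4) mu)
      intro z hz
      simp only [Set.mem_insert_iff, Set.mem_singleton_iff] at hz
      rcases hz with rfl | rfl | rfl | rfl | rfl
      · exact m0
      · exact m2
      · exact k0
      · exact k1
      · exact k3
    · apply Algebra.adjoin_le
      set S := Algebra.adjoin 𝕜 ({X0, X2, w0, w1, w3} : Set K) with hS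
      have m0 : X0 ∈ S := Algebra.subset_adjoin (by simp)
      have m2 : X2 ∈ S := Algebra.subset_adjoin (by simp)
      have k0 : w0 ∈ S := Algebra.subset_adjoin (by simp)
      have k3 : w3 ∈ S := Algebra.subset_adjoin (by simp)
      have n3 : (3 : K) ∈ S := num_mem S 3
      have my : y ∈ S := by
        rw [hy]
        exact four_mem S (S.add_mem (S.mul_mem n3 (S.pow_mem m2 2)) (S.pow_mem m0 2))
      have mp : p ∈ S := by
        rw [hp]
        refine four_mem S (S.neg_mem ?_)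
        exact S.add_mem (S.add_mem (S.add_mem S.one_mem (S.mul_mem m0 my))
          (S.mul_mem (S.pow_mem m0 2) (S.pow_mem my 2))) (S.mul_mem (S.pow_mem m0 3) (S.pow_mem my 3))
      have mu : u ∈ S := by
        rw [hu']
        exact S.add_mem (S.mul_mem (S.pow_mem my 4) (S.sub_mem k3 (S.mul_mem m2 k0))) (S.mul_mem mp k0)
      intro z hz
      simp only [Set.mem_insert_iff, Set.mem_singleton_iff] at hz
      rcases hz with rfl | rfl | rfl
      · exact m0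
      · exact m2
      · exact mu
  rw [goal]

end Pool.Agent.H67NP.Q
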