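import Pool.Agent.helper67NP.Base
import Pool.Agent.helper67NP.Q_Defs
import Pool.Agent.helper67NP.Q_P_etaO
import Pool.Agent.helper67NP.Q_P_flipP
import Pool.Agent.helper67NP.Q_P_etaUnit
import Pool.Agent.helper67NP.Q_P_etaFin

set_option autoImplicit false

namespace Pool.Agent.H67NP.Q

variable [BaseField]



theorem etaMain {K : Type*} [Field K] [Algebra 𝕜 K] (hK : Algebra.trdeg 𝕜 K = 3) (a b v : K)
    (hind : AlgebraicIndependent 𝕜 ![a, b, v]) (hgen : IsGen a b v) :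
    ∃ O : Subring K, IsLocAt (G2 a b v) O ∧
      ∀ (n : ℕ) (y : Fin n → K) (i : Fin n), Cop (PR a b v) y → y i ≠ 0 → (∀ j, y j / y i ∈ O) →
      (∀ z ∈ O, ∃ x ∈ Algebra.adjoin 𝕜 (Set.range fun j => y j / y i),
        ∃ s ∈ Algebra.adjoin 𝕜 (Set.range fun j => y j / y i), s ≠ 0 ∧ s⁻¹ ∈ O ∧ z * s = x) →
      ∀ j, b * y j ∈ P1 a b v := by
  obtain ⟨O, D, Ψ, h⟩ := etaO a b v hind hgen
  refine ⟨O, h.loc, ?_⟩
  intro n y i hy hi hij hloc
  by_contra hcon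
  obtain ⟨N, hN⟩ := flipP hK a b v hind hgen y hy hcon
  obtain ⟨_, h1, h2⟩ := etaUnit a b v hind O D Ψ h n N y hy hN i hi hij
  exact etaFin a b v O D Ψ h n y hy.1 i hi hij h1 h2 hloc

end Pool.Agent.H67NP.Q
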