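import Pool.Agent.helper67NP.Base
import Pool.Agent.helper67NP.D_Glue
import Pool.Agent.helper67NP.D_Reg
import Pool.Agent.helper67NP.D_Stmt
import Pool.Agent.helper67NP.Q_P_genV
import Pool.Agent.helper67NP.Q_P_etaB
import Pool.Agent.helper67NP.Q_P_etaBw
import Pool.Agent.helper67NP.Q_P_numeric
import Pool.Agent.helper67NP.Q_P_kerB
import Pool.Agent.helper67NP.Q_P_dvr
import Pool.Agent.helper67NP.Q_P_ufdV
import Pool.Agent.helper67NP.Q_P_alg3
import Pool.Agent.helper67NP.Q_P_nz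
import Pool.Agent.helper67NP.Q_P_notrat
import Pool.Agent.helper67NP.E_All

set_option autoImplicit false

namespace Pool.Agent.H67NP.D

open D71
variable [BaseField]

open ZA Pool.Agent.H67NP.Q

/-! ### the field -/

abbrev KK : Type := FractionRing (MvPolynomial (Fin 3) 𝕜)

noncomputable def gA : KK := algebraMap (MvPolynomial (Fin 3) 𝕜) KK (MvPolynomial.X 0)
noncomputable def gB : KK := algebraMap (MvPolynomial (Fin 3) 𝕜) KK (MvPolynomial.X 1)
noncomputable def gV : KK := algebraMap (MvPolynomial (Fin 3) 𝕜) KK (MvPolynomial.X 2)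

theorem g_ind : AlgebraicIndependent 𝕜 ![gA, gB, gV] := by
  have h : (![gA, gB, gV] : Fin 3 → KK) = fun i =>
      (IsScalarTower.toAlgHom 𝕜 (MvPolynomial (Fin 3) 𝕜) KK) (MvPolynomial.X i) := by
    funext i
    fin_cases i <;> rfl
  rw [h]
  exact (MvPolynomial.algebraicIndependent_X (Fin 3) 𝕜).map'
    (f := IsScalarTower.toAlgHom 𝕜 (MvPolynomial (Fin 3) 𝕜) KK)
    (IsFractionRing.injective (MvPolynomial (Fin 3) 𝕜) KK)

theorem g_mem (p : MvPolynomial (Fin 3) 𝕜) :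
    algebraMap (MvPolynomial (Fin 3) 𝕜) KK p ∈ PR gA gB gV := by
  induction p using MvPolynomial.induction_on with
  | C c => exact (Algebra.adjoin 𝕜 ({gA, gB, gV} : Set KK)).algebraMap_mem c
  | add p q hp hq => rw [map_add]; exact add_mem hp hq
  | mul_X p i hp =>
    rw [map_mul]
    refine mul_mem hp ?_
    fin_cases i
    · exact mem_PR_left _ _ _
    · exact mem_PR_mid _ _ _
    · exact mem_PR_right _ _ _

theorem g_gen : IsGen gA gB gV := by
  intro k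
  obtain ⟨p, q, hq, h⟩ := IsFractionRing.div_surjective (A := MvPolynomial (Fin 3) 𝕜) k
  have hq0 : algebraMap (MvPolynomial (Fin 3) 𝕜) KK q ≠ 0 :=
    IsFractionRing.to_map_ne_zero_of_mem_nonZeroDivisors hq
  exact ⟨_, g_mem p, _, g_mem q, hq0, by rw [← h, div_mul_cancel₀ _ hq0]⟩

theorem g_trdeg : Algebra.trdeg 𝕜 KK = 3 := by
  have h1 := trdeg_add_eq (R := 𝕜) (S := MvPolynomial (Fin 3) 𝕜) (A := KK)
  have h0 : Algebra.IsAlgebraic (MvPolynomial (Fin 3) 𝕜) KK :=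
    IsLocalization.isAlgebraic KK (nonZeroDivisors (MvPolynomial (Fin 3) 𝕜))
  have h2 : Algebra.trdeg (MvPolynomial (Fin 3) 𝕜) KK = 0 := trdeg_eq_zero
  rw [h2, add_zero, MvPolynomial.trdeg_of_isDomain] at h1
  rw [← h1]
  simp

theorem trdeg_closure : Algebra.trdeg 𝕜 (AlgebraicClosure (RatFunc 𝕜)) ≤ 1 := by
  have h1 := trdeg_add_eq (R := 𝕜) (S := RatFunc 𝕜) (A := AlgebraicClosure (RatFunc 𝕜))
  have h2 : Algebra.trdeg (RatFunc 𝕜) (AlgebraicClosure (RatFunc 𝕜)) = 0 := trdeg_eq_zero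
  have h3 := trdeg_add_eq (R := 𝕜) (S := Polynomial 𝕜) (A := RatFunc 𝕜)
  have h0 : Algebra.IsAlgebraic (Polynomial 𝕜) (RatFunc 𝕜) :=
    IsLocalization.isAlgebraic (RatFunc 𝕜) (nonZeroDivisors (Polynomial 𝕜))
  have h4 : Algebra.trdeg (Polynomial 𝕜) (RatFunc 𝕜) = 0 := trdeg_eq_zero
  rw [h4, add_zero, Polynomial.trdeg_of_isDomain] at h3
  rw [h2, add_zero, ← h3] at h1
  exact h1.symm.le

section assembly

variable {K : Type} [Field K] [Algebra 𝕜 K]

theorem charts_finite (a b v : K) : (charts a b v).Finite := by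
  have h : charts a b v ⊆ Set.range (fun p : Fin 3 × Fin 4 => ch a b v p.1 p.2) ∪
      Set.range (fun i : Fin 4 => gd a b v i) := by
    rintro A (⟨j, l, _, rfl⟩ | ⟨i, rfl⟩)
    · exact Or.inl ⟨(j, l), rfl⟩
    · exact Or.inr ⟨i, rfl⟩
  exact ((Set.finite_range _).union (Set.finite_range _)).subset h

theorem gd1 (a b v : K) : (gd a b v 1).toSubring = G2 a b v := rfl

/-- the threefold -/
def XX (a b v : K) : Set (Subalgebra 𝕜 K) := {O | ∃ A ∈ charts a b v, O ∈ Spec A}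

variable (hK : Algebra.trdeg 𝕜 K = 3) (a b v : K) (hind : AlgebraicIndependent 𝕜 ![a, b, v])
  (hgen : IsGen a b v)
include hK hind hgen

theorem XX_frac (A : Subalgebra 𝕜 K) (hA : A ∈ charts a b v) :
    ∀ x : K, ∃ a ∈ A, ∃ s ∈ A, s ≠ 0 ∧ x = a / s := by
  intro x
  obtain ⟨p, hp, s, hs, hs0, h⟩ := (E.E1charts a b v hind hgen A hA).2 x
  exact ⟨p, hp, s, hs, hs0, by rw [← h, mul_div_cancel_right₀ _ hs0]⟩

theorem XX_sep : ∀ V : ValuationSubring K, OverK 𝕜 V → ∀ O ∈ XX a b v, ∀ O' ∈ XX a b v,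
    Dominates V O → Dominates V O' → O = O' := by
  rintro V hV O ⟨A, hA, hO⟩ O' ⟨B, hB, hO'⟩ h h'
  apply toSubring_inj
  exact E.E3sep a b v hind V hV A B hA hB O.toSubring O'.toSubring
    ((isLocAt_iff A _).2 ((mem_Spec_iff A O).1 hO)) ((isLocAt_iff B _).2 ((mem_Spec_iff B O').1 hO'))
    ⟨fun x hx => h.1 x hx, h.2⟩ ⟨fun x hx => h'.1 x hx, h'.2⟩

theorem XX_threefold : IsThreefold (XX a b v) where
  dim_eq := hK
  charts := ⟨charts a b v, charts_finite a b v, ⟨gd a b v 1, Or.inr ⟨1, rfl⟩⟩,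
    fun A hA => ⟨(E.E1charts a b v hind hgen A hA).1, XX_frac hK a b v hind hgen A hA⟩, rfl⟩
  separated := XX_sep hK a b v hind hgen

theorem XX_complete : IsComplete (XX a b v) := by
  intro V hV
  obtain ⟨A, hA, hAV⟩ := E.E3complete a b v hind V hV
  obtain ⟨O, hO, h⟩ := spec_of_dom A V hAV
  exact ⟨O, ⟨A, hA, hO⟩, h⟩

theorem XX_smooth3 : IsSmooth3 (XX a b v) := by
  refine smooth_of (C := charts a b v) rfl (fun A hA => (E.E1charts a b v hind hgen A hA).1) ?_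
  intro A hA O hl hI hres
  have hO := (isLocAt_iff A _).2 ⟨hl, hI⟩
  obtain ⟨x, y, z, hx, hy, hz, h⟩ := E.E2smooth a b v hind A hA O.toSubring hO (by
    intro z hz
    obtain ⟨c, hc⟩ := hres z hz
    exact ⟨c, sub_mem hz (O.algebraMap_mem c), hc⟩)
  refine ⟨![x, y, z], ?_, ?_⟩
  · intro i
    fin_cases i
    · exact hx
    · exact hy
    · exact hz
  · intro f hf hf'
    obtain ⟨p, hp, q, hq, r, hr, h'⟩ := h f ⟨hf, hf'⟩
    refine ⟨![p, q, r], ?_, by simpa using h'⟩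
    intro i
    fin_cases i
    · exact hp
    · exact hq
    · exact hr

theorem XX_smooth : IsSmooth (XX a b v) := fun _ hO =>
  (regular_of (C := charts a b v) hK rfl (fun A hA => (E.E1charts a b v hind hgen A hA).1)
    (XX_frac hK a b v hind hgen) hO (XX_smooth3 hK a b v hind hgen _ hO)).1

theorem main_of : IsThreefold (XX a b v) ∧ IsComplete (XX a b v) ∧ IsSmooth (XX a b v) ∧
    ¬ IsProjective (XX a b v) ∧ ∃ U : Set (Subalgebra 𝕜 K), IsMaxQPOpen (XX a b v) U ∧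
      ∃ (O : Subalgebra 𝕜 K) (_ : IsLocalRing O), IsGenericPtOfComponent (XX a b v) U O ∧
        Algebra.trdeg 𝕜 (IsLocalRing.ResidueField O) = 1 ∧
        IsEmpty (IsLocalRing.ResidueField O ≃ₐ[𝕜] RatFunc 𝕜) := by
  obtain ⟨ha0, hb0, hv0, hfc0, hw0, hw1, hw3, hs0, ht0, hde0⟩ := nz a b v hind
  have hgenV := genV a b v hv0 hgen
  have hindV := alg3 hK _ _ _ hgenV
  -- the two local rings
  obtain ⟨R, hR, hRnum⟩ := numeric hK a b v hind hgen
  obtain ⟨OB, ψ, hB⟩ := etaB a b v hindV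
  obtain ⟨⟨h3, h3'⟩, ⟨h03, h03'⟩, ⟨hu, hu'⟩, _⟩ := etaBw a b v hw3 hv0 OB ψ hB
  have hui : (v / fw3 a b v)⁻¹ ∈ OB := by
    by_contra hcon
    have : InM OB (v / fw3 a b v) := ⟨hu, Or.inr hcon⟩
    have h1 := (hB.inM ⟨_, hu⟩).1 this
    rw [hu'] at h1
    exact one_ne_zero h1
  have hOBch := OBch a b v hv0 hw3 OB hB.loc hu hui
  have h03mem : ch a b v 0 3 ∈ charts a b v := Or.inl ⟨0, 3, by decide, rfl⟩
  have h1mem : gd a b v 1 ∈ charts a b v := Or.inr ⟨1, rfl⟩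
  obtain ⟨Rs, hRs⟩ := exists_subalg (gd a b v 1) R
    ((isLocAt_iff (gd a b v 1) R).1 (by rw [gd1]; exact hR)).2
  obtain ⟨Es, hEs⟩ := exists_subalg (ch a b v 0 3) OB ((isLocAt_iff _ _).1 hOBch).2
  subst hRs
  have hRspec : Rs ∈ Spec (gd a b v 1) := (mem_Spec_iff _ _).2
    ((isLocAt_iff (gd a b v 1) _).1 (by rw [gd1]; exact hR))
  have hEspec : Es ∈ Spec (ch a b v 0 3) := (mem_Spec_iff _ _).2
    ((isLocAt_iff _ _).1 (by rw [hEs]; exact hOBch))
  have hEX : Es ∈ XX a b v := ⟨_, h03mem, hEspec⟩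
  have hsep := XX_sep hK a b v hind hgen
  have hred := red (XX a b v) (charts a b v) (charts_finite a b v)
    (fun A hA => (E.E1charts a b v hind hgen A hA).1) (XX_frac hK a b v hind hgen) rfl hsep
    (gd a b v 1) h1mem Rs Es hRspec hEX
    (by
      rintro L hL ⟨hy1, hy2⟩
      obtain ⟨n, y, hy⟩ := proj_of_adj L hL
      obtain ⟨i, hi, hi'⟩ := hy Rs ((mem_Spec_iff _ _).1 hRspec).1 hy1
      obtain ⟨i', hi'0, hi''⟩ := hy Es ((mem_Spec_iff _ _).1 hEspec).1 hy2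
      obtain ⟨hl1, hI1⟩ := (mem_Spec_iff _ _).1 hi'
      obtain ⟨hl2, hI2⟩ := (mem_Spec_iff _ _).1 hi''
      refine hRnum OB ψ hB (n + 1) y i i' hi (fun j => hI1.1 _ (Algebra.subset_adjoin ⟨j, rfl⟩)) ?_
        hi'0 (fun j => ?_)
      · intro z hz
        obtain ⟨s, hs, hs0', hsi, h⟩ := hI1.2 z hz
        exact ⟨_, h, s, hs, hs0', hsi, rfl⟩
      · rw [← hEs]
        exact hI2.1 _ (Algebra.subset_adjoin ⟨j, rfl⟩))
    (by
      intro O' hO' hle hne
      by_cases htop : O' = ⊤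
      · exact Or.inl htop
      right
      have hchO' : ch a b v 0 3 ≤ O' := fun x hx => hle (((mem_Spec_iff _ _).1 hEspec).2.1 x hx)
      have hO'spec := mem_Spec_of_le (X := XX a b v) (C := charts a b v) rfl hsep h03mem hO' hchO'
      have hle' : OB ≤ O'.toSubring := by
        rw [← hEs]
        exact fun x hx => hle hx
      have hO'loc := OB_above a b v hv0 hw3 OB O'.toSubring hB.loc hu
        ((isLocAt_iff _ _).2 ((mem_Spec_iff _ _).1 hO'spec)) hle'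
      obtain ⟨hufd, hnoeth⟩ := ufdV v⁻¹ a b hindV
      obtain ⟨hvO, hvψ⟩ := hB.hv
      obtain ⟨haO, hbO, hcab, htr⟩ := hB.hab
      have hcO : fc a b ∈ PR v⁻¹ a b := by
        have ha := mem_PR_mid v⁻¹ a b
        have hb := mem_PR_right v⁻¹ a b
        have hn : ∀ n : ℕ, (n : K) ∈ PR v⁻¹ a b := fun n => natCast_mem _ n
        simp only [fc]
        exact add_mem (sub_mem (mul_mem (by exact_mod_cast hn 3) (pow_mem ha _))
          (mul_mem (by exact_mod_cast hn 4) (pow_mem hb _))) (one_mem _)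
      have hψc : ψ ⟨fc a b, hB.loc.1 hcO⟩ = 0 := by
        have h1 : (⟨fc a b, hB.loc.1 hcO⟩ : OB) = fc (⟨a, haO⟩ : OB) ⟨b, hbO⟩ := by
          apply Subtype.ext
          simp only [fc]
          push_cast
          rfl
        rw [h1, ← hcab]
        simp only [fc, map_add, map_sub, map_mul, map_pow, map_ofNat, map_one]
      obtain ⟨V, hV, harch⟩ := dvr (PR v⁻¹ a b) (fun z => by
          obtain ⟨f, hf, g, hg, hg0, h⟩ := hgenV z
          exact ⟨f, hf, g, hg, hg0, h⟩) OB O'.toSubring hB.loc v⁻¹ (fc a b)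
        ((hB.inM ⟨_, hvO⟩).2 hvψ) ((hB.inM ⟨_, hB.loc.1 hcO⟩).2 hψc) (mem_PR_left _ _ _) hcO
        (fun z hz hM => kerB a b v OB ψ hB hv0 z hz hM) hO'loc hle'
        (fun h => hne (toSubring_inj (by rw [h, hEs])))
        (fun h => htop (toSubring_inj (by rw [h]; rfl)))
      exact ⟨V, hV, harch⟩)
  obtain ⟨hnp, U, hU, hcomp⟩ := hred
  refine ⟨XX_threefold hK a b v hind hgen, XX_complete hK a b v hind hgen,
    XX_smooth hK a b v hind hgen, hnp, U, hU, Es, ?_⟩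
  -- the residue field
  have hψ : ∀ z : K, z ∈ Es → z ∈ OB := fun z hz => by rw [← hEs]; exact hz
  let ψ' : Es →ₐ[𝕜] AlgebraicClosure (RatFunc 𝕜) :=
    { toFun := fun z => ψ ⟨z, hψ z z.2⟩
      map_one' := map_one ψ
      map_mul' := fun x y => map_mul ψ ⟨x, hψ x x.2⟩ ⟨y, hψ y y.2⟩
      map_zero' := map_zero ψ
      map_add' := fun x y => map_add ψ ⟨x, hψ x x.2⟩ ⟨y, hψ y y.2⟩
      commutes' := fun c => by
        obtain ⟨h, h'⟩ := hB.hc c
        exact h' }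
  obtain ⟨haO, hbO, hcab, htr⟩ := hB.hab
  have hE' : ∀ z : K, z ∈ OB → z ∈ Es := fun z hz => by rw [← hEs] at hz; exact hz
  obtain ⟨hloc, h1, h2⟩ := residue_of Es ((mem_Spec_iff _ _).1 hEspec).1 ψ'
    (by
      intro z hz
      exact (hB.inM ⟨z, hψ z z.2⟩).1 ⟨hψ z z.2, hz.imp id (fun h h' => h (hE' _ h'))⟩)
    trdeg_closure ⟨a, hE' a haO⟩ ⟨b, hE' b hbO⟩ htr (by
      simp only [fc] at hcab
      exact hcab)
    (fun x y h => notrat x y (by simp only [fc]; exact h))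
  exact ⟨hloc, hcomp, h1, h2⟩

end assembly

theorem main : Main :=
  ⟨KK, inferInstance, inferInstance, XX gA gB gV, main_of g_trdeg gA gB gV g_ind g_gen⟩

end Pool.Agent.H67NP.D
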