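import Pool.Agent.helper67NP.D_Final

/-!
The theorem for an arbitrary algebraically closed field of characteristic other than 2, 3, 5.
-/

set_option autoImplicit false

namespace Pool.Agent.H67NP

open _root_.D71

theorem everyField (k : Type) [Field k] [IsAlgClosed k] (h : (30 : k) ≠ 0) :
    ∃ (K : Type) (_ : Field K) (_ : Algebra k K) (X : Set (Subalgebra k K)),
    IsThreefold X ∧ IsComplete X ∧ IsSmooth X ∧ ¬ IsProjective X ∧
    ∃ U : Set (Subalgebra k K), IsMaxQPOpen X U ∧
      ∃ (O : Subalgebra k K) (_ : IsLocalRing O), IsGenericPtOfComponent X U O ∧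
        Algebra.trdeg k (IsLocalRing.ResidueField O) = 1 ∧
        IsEmpty (IsLocalRing.ResidueField O ≃ₐ[k] RatFunc k) :=
  @D.main { 𝕜 := k, nz := h }

end Pool.Agent.H67NP
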